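import Pool.Agent.Lib.MP_ccbbf6_gt.ML

/-!
# TR: the exact cancellation
-/

open Matrix Set Filter Topology
open scoped Real

namespace BL

/-- The primitive of `f / sin ^ 2`. -/
theorem tr_prim {f : ℝ → ℝ} (hf : ContinuousOn f (Ioo 0 π)) {M : ℝ}
    (hM : ∀ x ∈ Ioo 0 π, |f x| ≤ M) :
    ∃ U : ℝ → ℝ, (∀ x ∈ Ioo 0 π, HasDerivAt U (f x / Real.sin x ^ 2) x) ∧
      (∀ x ∈ Ioo 0 π, |Real.sin x * U x| ≤ M) ∧
      ∀ a ∈ Ioo 0 π, ∀ b ∈ Ioo 0 π, ∫ x in a..b, f x / Real.sin x ^ 2 = U b - U a := by
  have hpi := Real.pi_pos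
  have hmid : π / 2 ∈ Ioo (0 : ℝ) π := ⟨by linarith, by linarith⟩
  have hM0 : 0 ≤ M := (abs_nonneg _).trans (hM _ hmid)
  have hg : ContinuousOn (fun x => f x / Real.sin x ^ 2) (Ioo 0 π) :=
    hf.div (by fun_prop) fun x hx => pow_ne_zero _ (Real.sin_pos_of_mem_Ioo hx).ne'
  have hsub : ∀ a ∈ Ioo (0 : ℝ) π, ∀ b ∈ Ioo (0 : ℝ) π, uIcc a b ⊆ Ioo 0 π := fun a ha b hb =>
    Set.OrdConnected.uIcc_subset (by infer_instance) ha hb
  have hint : ∀ a ∈ Ioo (0 : ℝ) π, ∀ b ∈ Ioo (0 : ℝ) π,
      IntervalIntegrable (fun x => f x / Real.sin x ^ 2) MeasureTheory.volume a b :=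
    fun a ha b hb => (hg.mono (hsub a ha b hb)).intervalIntegrable
  refine ⟨fun x => ∫ s in (π / 2)..x, f s / Real.sin s ^ 2, ?_, ?_, ?_⟩
  · intro x hx
    refine intervalIntegral.integral_hasDerivAt_right (hint _ hmid _ hx) ?_
      (hg.continuousAt (isOpen_Ioo.mem_nhds hx))
    exact hg.stronglyMeasurableAtFilter isOpen_Ioo x hx
  · intro x hx
    have hs := Real.sin_pos_of_mem_Ioo hx
    have h1 : |∫ s in (π / 2)..x, f s / Real.sin s ^ 2| ≤
        |∫ s in (π / 2)..x, M * (1 / Real.sin s ^ 2)| := by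
      have hcont : ContinuousOn (fun s => M * (1 / Real.sin s ^ 2)) (uIcc (π / 2) x) := by
        refine ContinuousOn.mul continuousOn_const (continuousOn_const.div (by fun_prop) ?_)
        exact fun y hy => pow_ne_zero _ (Real.sin_pos_of_mem_Ioo (hsub _ hmid _ hx hy)).ne'
      have := intervalIntegral.norm_integral_le_abs_of_norm_le
        (f := fun s => f s / Real.sin s ^ 2) (g := fun s => M * (1 / Real.sin s ^ 2))
        (a := π / 2) (b := x) (μ := MeasureTheory.volume) ?_ hcont.intervalIntegrable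
      · simpa [Real.norm_eq_abs] using this
      · refine (MeasureTheory.ae_restrict_iff' measurableSet_uIoc).2 (Eventually.of_forall ?_)
        intro y hy
        have hy' := hsub _ hmid _ hx (uIoc_subset_uIcc hy)
        have hs' := Real.sin_pos_of_mem_Ioo hy'
        rw [Real.norm_eq_abs, abs_div, abs_of_pos (pow_pos hs' 2), mul_one_div]
        exact div_le_div_of_nonneg_right (hM y hy') (pow_pos hs' 2).le
    have h2 : ∫ s in (π / 2)..x, M * (1 / Real.sin s ^ 2) = - (M * (Real.cos x / Real.sin x)) := by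
      have hd : ∀ y ∈ uIcc (π / 2) x,
          HasDerivAt (fun s => - (M * (Real.cos s / Real.sin s))) (M * (1 / Real.sin y ^ 2)) y := by
        intro y hy
        have hs' := (Real.sin_pos_of_mem_Ioo (hsub _ hmid _ hx hy)).ne'
        have := (((Real.hasDerivAt_cos y).div (Real.hasDerivAt_sin y) hs').const_mul M).neg
        refine this.congr_deriv ?_
        have h3 := Real.sin_sq_add_cos_sq y
        field_simp
        nlinarith [h3]
      rw [intervalIntegral.integral_eq_sub_of_hasDerivAt hd]
      · simp [Real.cos_pi_div_two]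
      · refine ContinuousOn.intervalIntegrable ?_
        refine ContinuousOn.mul continuousOn_const (continuousOn_const.div (by fun_prop) ?_)
        exact fun y hy => pow_ne_zero _ (Real.sin_pos_of_mem_Ioo (hsub _ hmid _ hx hy)).ne'
    rw [abs_mul, abs_of_pos hs]
    calc Real.sin x * |∫ s in (π / 2)..x, f s / Real.sin s ^ 2|
        ≤ Real.sin x * |∫ s in (π / 2)..x, M * (1 / Real.sin s ^ 2)| :=
          mul_le_mul_of_nonneg_left h1 hs.le
      _ = M * |Real.cos x| := by
          rw [h2, abs_neg, abs_mul, abs_div, abs_of_pos hs, abs_of_nonneg hM0]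
          field_simp
      _ ≤ M := by
          have := Real.abs_cos_le_one x
          nlinarith
  · intro a ha b hb
    rw [intervalIntegral.integral_interval_sub_left (hint _ hmid _ hb) (hint _ hmid _ ha)]

/-- The identity for an integrable function. -/
theorem tr_key {t : ℝ} (ht : t ∈ Ioo 0 π) {h : ℝ → ℝ}
    (hh : IntervalIntegrable h MeasureTheory.volume 0 π) :
    IntervalIntegrable (fun w => Real.sin w * h (w + t) - Real.sin (w + t) * h w)
      MeasureTheory.volume 0 (π - t) ∧
    IntervalIntegrable (fun w => Real.sin w * h (w + (π - t)) - Real.sin (t - w) * h w)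
      MeasureTheory.volume 0 t ∧
    (∫ w in (0 : ℝ)..(π - t), (Real.sin w * h (w + t) - Real.sin (w + t) * h w)) +
      (∫ w in (0 : ℝ)..t, (Real.sin w * h (w + (π - t)) - Real.sin (t - w) * h w)) =
      - 2 * Real.sin t * ∫ x in (0 : ℝ)..π, Real.cos x * h x := by
  obtain ⟨h0, h1⟩ := ht
  have hsub : ∀ a b : ℝ, 0 ≤ a → a ≤ b → b ≤ π →
      IntervalIntegrable h MeasureTheory.volume a b := by
    intro a b ha hab hb
    refine hh.mono_set ?_
    rw [uIcc_of_le hab, uIcc_of_le (ha.trans (hab.trans hb))]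
    exact Icc_subset_Icc ha hb
  have i1 : IntervalIntegrable (fun w => Real.sin w * h (w + t)) MeasureTheory.volume 0 (π - t) := by
    have := (hsub t π h0.le h1.le le_rfl).comp_add_right t
    rw [sub_self] at this
    exact this.continuousOn_mul (by fun_prop)
  have i2 : IntervalIntegrable (fun w => Real.sin (w + t) * h w) MeasureTheory.volume 0 (π - t) :=
    (hsub 0 (π - t) le_rfl (by linarith) (by linarith)).continuousOn_mul (by fun_prop)
  have i3 : IntervalIntegrable (fun w => Real.sin w * h (w + (π - t))) MeasureTheory.volume 0 t := by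
    have := (hsub (π - t) π (by linarith) (by linarith) le_rfl).comp_add_right (π - t)
    rw [sub_self, sub_sub_cancel] at this
    exact this.continuousOn_mul (by fun_prop)
  have i4 : IntervalIntegrable (fun w => Real.sin (t - w) * h w) MeasureTheory.volume 0 t :=
    (hsub 0 t le_rfl h0.le h1.le).continuousOn_mul (by fun_prop)
  refine ⟨i1.sub i2, i3.sub i4, ?_⟩
  rw [intervalIntegral.integral_sub i1 i2, intervalIntegral.integral_sub i3 i4]
  have e1 : ∫ w in (0 : ℝ)..(π - t), Real.sin w * h (w + t) =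
      ∫ x in t..π, Real.sin (x - t) * h x := by
    have := intervalIntegral.integral_comp_add_right (a := 0) (b := π - t)
      (fun x => Real.sin (x - t) * h x) t
    simpa using this
  have e3 : ∫ w in (0 : ℝ)..t, Real.sin w * h (w + (π - t)) =
      - ∫ x in (π - t)..π, Real.sin (x + t) * h x := by
    have := intervalIntegral.integral_comp_add_right (a := 0) (b := t)
      (fun x => Real.sin (x - (π - t)) * h x) (π - t)
    simp only [add_sub_cancel_right, zero_add, add_sub_cancel] at this
    rw [this, ← intervalIntegral.integral_neg]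
    refine intervalIntegral.integral_congr fun x _ => ?_
    have : Real.sin (x - (π - t)) = - Real.sin (x + t) := by
      rw [show x - (π - t) = (x + t) - π by ring, Real.sin_sub_pi]
    simp only [this]
    ring
  have e4 : ∫ w in (0 : ℝ)..t, Real.sin (t - w) * h w =
      - ∫ x in (0 : ℝ)..t, Real.sin (x - t) * h x := by
    rw [← intervalIntegral.integral_neg]
    refine intervalIntegral.integral_congr fun x _ => ?_
    have : Real.sin (t - x) = - Real.sin (x - t) := by
      rw [← Real.sin_neg]; congr 1; ring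
    simp only [this]
    ring
  have a1 : (∫ x in (0 : ℝ)..t, Real.sin (x - t) * h x) + ∫ x in t..π, Real.sin (x - t) * h x =
      ∫ x in (0 : ℝ)..π, Real.sin (x - t) * h x :=
    intervalIntegral.integral_add_adjacent_intervals
      ((hsub 0 t le_rfl h0.le h1.le).continuousOn_mul (by fun_prop))
      ((hsub t π h0.le h1.le le_rfl).continuousOn_mul (by fun_prop))
  have a2 : (∫ x in (0 : ℝ)..(π - t), Real.sin (x + t) * h x) +
      ∫ x in (π - t)..π, Real.sin (x + t) * h x = ∫ x in (0 : ℝ)..π, Real.sin (x + t) * h x :=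
    intervalIntegral.integral_add_adjacent_intervals i2
      ((hsub (π - t) π (by linarith) (by linarith) le_rfl).continuousOn_mul (by fun_prop))
  have a3 : (∫ x in (0 : ℝ)..π, Real.sin (x - t) * h x) -
      ∫ x in (0 : ℝ)..π, Real.sin (x + t) * h x =
      - 2 * Real.sin t * ∫ x in (0 : ℝ)..π, Real.cos x * h x := by
    rw [← intervalIntegral.integral_sub (hh.continuousOn_mul (by fun_prop))
      (hh.continuousOn_mul (by fun_prop)), ← intervalIntegral.integral_const_mul]
    refine intervalIntegral.integral_congr fun x _ => ?_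
    simp only [Real.sin_sub, Real.sin_add]
    ring
  rw [e1, e3, e4]
  linarith

theorem trig1 {t : ℝ} (ht : t ∈ Ioo 0 π) {f : ℝ → ℝ} (hf : ContinuousOn f (Ioo 0 π)) {M : ℝ}
    (hM : ∀ x ∈ Ioo 0 π, |f x| ≤ M) :
    IntervalIntegrable (fun w => ∫ x in w..(w + t), Real.sin w * Real.sin (w + t) / (Real.sin t * Real.sin x ^ 2) * f x)
      MeasureTheory.volume 0 (π - t) ∧
    IntervalIntegrable (fun w => ∫ x in w..(w + (π - t)), Real.sin w * Real.sin (t - w) / (Real.sin t * Real.sin x ^ 2) * f x)
      MeasureTheory.volume 0 t ∧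
    (∫ w in (0 : ℝ)..(π - t), ∫ x in w..(w + t), Real.sin w * Real.sin (w + t) / (Real.sin t * Real.sin x ^ 2) * f x)
      + (∫ w in (0 : ℝ)..t, ∫ x in w..(w + (π - t)), Real.sin w * Real.sin (t - w) / (Real.sin t * Real.sin x ^ 2) * f x)
      = ∫ x in (0 : ℝ)..π, f x := by
  have hpi := Real.pi_pos
  have ht' := ht
  obtain ⟨h0, h1⟩ := ht
  have hst := Real.sin_pos_of_mem_Ioo ht'
  obtain ⟨U, hU, hb, hI⟩ := tr_prim hf hM
  set h : ℝ → ℝ := fun x => Real.sin x * U x with hhdef
  have hmid : π / 2 ∈ Ioo (0 : ℝ) π := ⟨by linarith, by linarith⟩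
  have hM0 : 0 ≤ M := (abs_nonneg _).trans (hM _ hmid)
  have hcU : ContinuousOn U (Ioo 0 π) := fun x hx => (hU x hx).continuousAt.continuousWithinAt
  have hch : ContinuousOn h (Ioo 0 π) := ContinuousOn.mul (by fun_prop) hcU
  have hbdd : ∀ k : ℝ → ℝ, ContinuousOn k (Ioo 0 π) → (∀ x ∈ Ioo 0 π, |k x| ≤ M) →
      IntervalIntegrable k MeasureTheory.volume 0 π := by
    intro k hk hkM
    rw [intervalIntegrable_iff_integrableOn_Ioo_of_le hpi.le]
    refine ⟨hk.aestronglyMeasurable measurableSet_Ioo, ?_⟩
    refine MeasureTheory.HasFiniteIntegral.restrict_of_bounded (C := M) (by simp) ?_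
    refine (MeasureTheory.ae_restrict_iff' measurableSet_Ioo).2 (Eventually.of_forall ?_)
    intro x hx
    rw [Real.norm_eq_abs]
    exact hkM x hx
  have hh : IntervalIntegrable h MeasureTheory.volume 0 π := hbdd h hch hb
  have hfi : IntervalIntegrable f MeasureTheory.volume 0 π := hbdd f hf hM
  obtain ⟨k1, k2, k3⟩ := tr_key ht' hh
  have E1 : EqOn (fun w => (Real.sin t)⁻¹ * (Real.sin w * h (w + t) - Real.sin (w + t) * h w))
      (fun w => ∫ x in w..(w + t), Real.sin w * Real.sin (w + t) / (Real.sin t * Real.sin x ^ 2) * f x)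
      (Ioo 0 (π - t)) := by
    intro w hw
    have hw1 : w ∈ Ioo 0 π := ⟨hw.1, by linarith [hw.2]⟩
    have hw2 : w + t ∈ Ioo 0 π := ⟨by linarith [hw.1], by linarith [hw.2]⟩
    have : ∫ x in w..(w + t), Real.sin w * Real.sin (w + t) / (Real.sin t * Real.sin x ^ 2) * f x =
        Real.sin w * Real.sin (w + t) / Real.sin t * ∫ x in w..(w + t), f x / Real.sin x ^ 2 := by
      rw [← intervalIntegral.integral_const_mul]
      refine intervalIntegral.integral_congr fun x _ => ?_
      simp only [div_eq_mul_inv, mul_inv]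
      ring
    simp only [this, hI _ hw1 _ hw2, hhdef]
    field_simp
  have E2 : EqOn (fun w => (Real.sin t)⁻¹ * (Real.sin w * h (w + (π - t)) - Real.sin (t - w) * h w))
      (fun w => ∫ x in w..(w + (π - t)), Real.sin w * Real.sin (t - w) / (Real.sin t * Real.sin x ^ 2) * f x)
      (Ioo 0 t) := by
    intro w hw
    have hw1 : w ∈ Ioo 0 π := ⟨hw.1, by linarith [hw.2]⟩
    have hw2 : w + (π - t) ∈ Ioo 0 π := ⟨by linarith [hw.1], by linarith [hw.2]⟩
    have : ∫ x in w..(w + (π - t)), Real.sin w * Real.sin (t - w) / (Real.sin t * Real.sin x ^ 2) * f x =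
        Real.sin w * Real.sin (t - w) / Real.sin t * ∫ x in w..(w + (π - t)), f x / Real.sin x ^ 2 := by
      rw [← intervalIntegral.integral_const_mul]
      refine intervalIntegral.integral_congr fun x _ => ?_
      simp only [div_eq_mul_inv, mul_inv]
      ring
    have hs : Real.sin (w + (π - t)) = Real.sin (t - w) := by
      rw [← Real.sin_pi_sub]; congr 1; ring
    simp only [this, hI _ hw1 _ hw2, hhdef, hs]
    field_simp
  have hle1 : (0 : ℝ) ≤ π - t := by linarith
  refine ⟨(k1.const_mul _).congr_uIoo (by rw [uIoo_of_le hle1]; exact E1),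
    (k2.const_mul _).congr_uIoo (by rw [uIoo_of_le h0.le]; exact E2), ?_⟩
  rw [← intervalIntegral.integral_congr_Ioo_of_le hle1 E1,
    ← intervalIntegral.integral_congr_Ioo_of_le h0.le E2,
    intervalIntegral.integral_const_mul, intervalIntegral.integral_const_mul, ← mul_add, k3]
  -- the fundamental theorem of calculus for `sin ^ 2 * U`
  have hG : ∫ x in (0 : ℝ)..π, (2 * (Real.cos x * h x) + f x) = 0 := by
    have hcont : ContinuousOn (fun x => Real.sin x * h x) (Icc 0 π) := by
      intro x hx
      rcases eq_or_lt_of_le hx.1 with h2 | h2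
      · subst h2
        have hz : Real.sin 0 * h 0 = 0 := by simp
        rw [ContinuousWithinAt, hz]
        refine squeeze_zero_norm' (a := fun x => M * |Real.sin x|) ?_ ?_
        · filter_upwards [self_mem_nhdsWithin] with y hy
          rcases eq_or_lt_of_le hy.1 with h3 | h3
          · subst h3; simp
          rcases eq_or_lt_of_le hy.2 with h4 | h4
          · subst h4; simp
          · rw [Real.norm_eq_abs, abs_mul, mul_comm M]
            exact mul_le_mul_of_nonneg_left (hb y ⟨h3, h4⟩) (abs_nonneg _)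
        · have : Tendsto (fun x => M * |Real.sin x|) (𝓝 0) (𝓝 (M * |Real.sin 0|)) :=
            (Continuous.tendsto (by fun_prop) 0)
          simp only [Real.sin_zero, abs_zero, mul_zero] at this
          exact this.mono_left nhdsWithin_le_nhds
      · rcases eq_or_lt_of_le hx.2 with h3 | h3
        · subst h3
          have hz : Real.sin π * h π = 0 := by simp
          rw [ContinuousWithinAt, hz]
          refine squeeze_zero_norm' (a := fun x => M * |Real.sin x|) ?_ ?_
          · filter_upwards [self_mem_nhdsWithin] with y hy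
            rcases eq_or_lt_of_le hy.1 with h3 | h3
            · rw [← h3]; simp
            rcases eq_or_lt_of_le hy.2 with h4 | h4
            · rw [h4]; simp
            · rw [Real.norm_eq_abs, abs_mul, mul_comm M]
              exact mul_le_mul_of_nonneg_left (hb y ⟨h3, h4⟩) (abs_nonneg _)
          · have : Tendsto (fun x => M * |Real.sin x|) (𝓝 π) (𝓝 (M * |Real.sin π|)) :=
              (Continuous.tendsto (by fun_prop) π)
            simp only [Real.sin_pi, abs_zero, mul_zero] at this
            exact this.mono_left nhdsWithin_le_nhds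
        · have : ContinuousAt (fun x => Real.sin x * h x) x :=
            (Real.continuous_sin.continuousAt).mul
              (hch.continuousAt (isOpen_Ioo.mem_nhds ⟨h2, h3⟩))
          exact this.continuousWithinAt
    have := intervalIntegral.integral_eq_sub_of_hasDeriv_right_of_le (a := 0) (b := π)
      (f := fun x => Real.sin x * h x) (f' := fun x => 2 * (Real.cos x * h x) + f x) hpi.le hcont
      ?_ ?_
    · rw [this]; simp
    · intro x hx
      have hs := (Real.sin_pos_of_mem_Ioo hx).ne'
      have := (Real.hasDerivAt_sin x).mul ((Real.hasDerivAt_sin x).mul (hU x hx))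
      refine (this.congr_deriv ?_).hasDerivWithinAt
      simp only [hhdef, Pi.mul_apply]
      field_simp
      ring
    · exact ((hh.continuousOn_mul (by fun_prop)).const_mul 2).add hfi
  rw [intervalIntegral.integral_add ((hh.continuousOn_mul (by fun_prop)).const_mul 2) hfi,
    intervalIntegral.integral_const_mul] at hG
  have : (Real.sin t)⁻¹ * (-2 * Real.sin t * ∫ x in (0 : ℝ)..π, Real.cos x * h x) =
      -2 * ∫ x in (0 : ℝ)..π, Real.cos x * h x := by
    field_simp
  rw [this]
  linarith

theorem trig2 {t : ℝ} (ht : t ∈ Ioo 0 (2 * π)) {f : ℝ → ℝ} (hf : ContinuousOn f (Ioo 0 (2 * π))) {M : ℝ}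
    (hM : ∀ x ∈ Ioo 0 (2 * π), |f x| ≤ M) :
    IntervalIntegrable (fun w => ∫ x in w..(w + t),
      Real.sin (w / 2) * Real.sin ((w + t) / 2) / (2 * Real.sin (t / 2) * Real.sin (x / 2) ^ 2) * f x)
      MeasureTheory.volume 0 (2 * π - t) ∧
    IntervalIntegrable (fun w => ∫ x in w..(w + (2 * π - t)),
      Real.sin (w / 2) * Real.sin ((t - w) / 2) / (2 * Real.sin (t / 2) * Real.sin (x / 2) ^ 2) * f x)
      MeasureTheory.volume 0 t ∧
    (∫ w in (0 : ℝ)..(2 * π - t), ∫ x in w..(w + t),
        Real.sin (w / 2) * Real.sin ((w + t) / 2) / (2 * Real.sin (t / 2) * Real.sin (x / 2) ^ 2) * f x)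
      + (∫ w in (0 : ℝ)..t, ∫ x in w..(w + (2 * π - t)),
        Real.sin (w / 2) * Real.sin ((t - w) / 2) / (2 * Real.sin (t / 2) * Real.sin (x / 2) ^ 2) * f x)
      = ∫ x in (0 : ℝ)..(2 * π), f x := by
  have ht2 : t / 2 ∈ Ioo 0 π := ⟨by linarith [ht.1], by linarith [ht.2]⟩
  have hmem : ∀ x ∈ Ioo 0 π, 2 * x ∈ Ioo 0 (2 * π) := fun x hx =>
    ⟨by linarith [hx.1], by linarith [hx.2]⟩
  have hf2 : ContinuousOn (fun x => f (2 * x)) (Ioo 0 π) := hf.comp (by fun_prop) hmem
  obtain ⟨k1, k2, k3⟩ := trig1 ht2 hf2 (M := M) fun x hx => hM _ (hmem x hx)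
  have j1 : (fun w => ∫ x in w..(w + t),
      Real.sin (w / 2) * Real.sin ((w + t) / 2) / (2 * Real.sin (t / 2) * Real.sin (x / 2) ^ 2) * f x) =
      fun w => (fun w' => ∫ x in w'..(w' + t / 2),
        Real.sin w' * Real.sin (w' + t / 2) / (Real.sin (t / 2) * Real.sin x ^ 2) * f (2 * x)) (w / 2) := by
    funext w
    have := intervalIntegral.integral_comp_div (a := w) (b := w + t)
      (fun x => Real.sin (w / 2) * Real.sin ((w + t) / 2) /
        (2 * Real.sin (t / 2) * Real.sin x ^ 2) * f (2 * x)) (two_ne_zero)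
    simp only [mul_div_cancel₀ _ (two_ne_zero' ℝ)] at this
    rw [this, ← intervalIntegral.integral_smul]
    have e : (w + t) / 2 = w / 2 + t / 2 := by ring
    rw [e]
    refine intervalIntegral.integral_congr fun x _ => ?_
    simp only [smul_eq_mul, div_eq_mul_inv, mul_inv]
    ring
  have j2 : (fun w => ∫ x in w..(w + (2 * π - t)),
      Real.sin (w / 2) * Real.sin ((t - w) / 2) / (2 * Real.sin (t / 2) * Real.sin (x / 2) ^ 2) * f x) =
      fun w => (fun w' => ∫ x in w'..(w' + (π - t / 2)),
        Real.sin w' * Real.sin (t / 2 - w') / (Real.sin (t / 2) * Real.sin x ^ 2) * f (2 * x)) (w / 2) := by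
    funext w
    have := intervalIntegral.integral_comp_div (a := w) (b := w + (2 * π - t))
      (fun x => Real.sin (w / 2) * Real.sin ((t - w) / 2) /
        (2 * Real.sin (t / 2) * Real.sin x ^ 2) * f (2 * x)) (two_ne_zero)
    simp only [mul_div_cancel₀ _ (two_ne_zero' ℝ)] at this
    rw [this, ← intervalIntegral.integral_smul]
    have e : (w + (2 * π - t)) / 2 = w / 2 + (π - t / 2) := by ring
    have e' : (t - w) / 2 = t / 2 - w / 2 := by ring
    rw [e, e']
    refine intervalIntegral.integral_congr fun x _ => ?_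
    simp only [smul_eq_mul, div_eq_mul_inv, mul_inv]
    ring
  have scale : ∀ {g : ℝ → ℝ} {b : ℝ}, IntervalIntegrable g MeasureTheory.volume 0 (b / 2) →
      IntervalIntegrable (fun w => g (w / 2)) MeasureTheory.volume 0 b := by
    intro g b hg
    have := hg.comp_mul_left (c := (1 / 2 : ℝ))
    have e0 : (0 : ℝ) / (1 / 2) = 0 := by norm_num
    have e1 : b / 2 / (1 / 2) = b := by ring
    rw [e0, e1] at this
    refine this.congr fun x _ => ?_
    congr 1
    ring
  have eb : (2 * π - t) / 2 = π - t / 2 := by ring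
  rw [j1, j2]
  refine ⟨scale (by rw [eb]; exact k1), scale k2, ?_⟩
  have i1 := intervalIntegral.integral_comp_div (a := 0) (b := 2 * π - t)
    (fun w' => ∫ x in w'..(w' + t / 2),
        Real.sin w' * Real.sin (w' + t / 2) / (Real.sin (t / 2) * Real.sin x ^ 2) * f (2 * x))
    (two_ne_zero)
  have i2 := intervalIntegral.integral_comp_div (a := 0) (b := t)
    (fun w' => ∫ x in w'..(w' + (π - t / 2)),
        Real.sin w' * Real.sin (t / 2 - w') / (Real.sin (t / 2) * Real.sin x ^ 2) * f (2 * x))
    (two_ne_zero)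
  simp only at i1 i2 ⊢
  rw [i1, i2, zero_div, eb, ← smul_add, k3]
  have := intervalIntegral.smul_integral_comp_mul_left (a := 0) (b := π) f 2
  rw [this]
  simp

end BL
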