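import Pool.Agent.Lib.MP_ccbbf6_gt.Base
import Pool.Agent.Lib.MP_ccbbf6_gt.TR

/-!
# ASb: the second block in the four integrals, and the single terms (pure real analysis)

`g_part`: `g` bounded and continuous on `(0, 2π)`.  The first three outer integrals together are `∫ w in 0..(2π-t), ∫ x in w..(w+t), rho2 w (w+t) x * g x` (split at `π - t` and `π`, translate),
the fourth is the second term of `trig2` (`sin ((s + (2π-t))/2) = sin ((t-s)/2)`, `sin ((2π-t)/2) = sin (t/2)`, `rho2 u v x` with `v - u = 2π - t`): `trig2` gives `∫ 0..2π g`.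
Integrability of the pieces: `IntervalIntegrable.mono_set` from `trig2` and translation (`IntervalIntegrable.comp_add_right` or `comp_add_left`).

`singles`: `f` bounded on `(0, 2π)`, continuous off `π`: interval integrable on every subinterval of `[0, 2π]` (bounded and a.e. continuous / `ContinuousOn` on the two open
pieces; e.g. `MeasureTheory.Measure.integrableOn_of_bounded` with measurability from `ContinuousOn.aestronglyMeasurable` on `Ioo 0 π` and `Ioo π (2π)`).
The eight integrals are integrals of `f` over `[0,π-t], [t,π], [π-t,π], [π,π+t], [π,2π-t], [π+t,2π], [0,t], [2π-t,2π]` (`intervalIntegral.integral_comp_add_right`), which cover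
`[0, 2π]` twice.
-/

open Matrix Set Filter Topology
open scoped Real

namespace BL

theorem asb_ii {f : ℝ → ℝ} {M α β : ℝ} (hαβ : α ≤ β) (hf : ContinuousOn f (Ioo α β))
    (hM : ∀ x ∈ Ioo α β, |f x| ≤ M) : IntervalIntegrable f MeasureTheory.volume α β := by
  rw [intervalIntegrable_iff_integrableOn_Ioo_of_le hαβ]
  refine MeasureTheory.IntegrableOn.of_bound ?_
    (hf.aestronglyMeasurable measurableSet_Ioo) M ?_
  · simp
  · refine (MeasureTheory.ae_restrict_iff' measurableSet_Ioo).2 (Filter.Eventually.of_forall ?_)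
    intro x hx
    rw [Real.norm_eq_abs]
    exact hM x hx

/-- translation of the variable, integrability -/
theorem asb_ti {h : ℝ → ℝ} {α β c : ℝ} (hh : IntervalIntegrable h MeasureTheory.volume (c + α) (c + β)) :
    IntervalIntegrable (fun s => h (c + s)) MeasureTheory.volume α β := by
  have h1 := hh.comp_add_left c
  simpa using h1

theorem g_part {g : ℝ → ℝ} {M : ℝ} (hg : ∀ x ∈ Ioo 0 (2 * π), ContinuousAt g x)
    (hgb : ∀ x ∈ Ioo 0 (2 * π), |g x| ≤ M) {t : ℝ} (ht : t ∈ Ioo 0 π) :
    IntervalIntegrable (fun w => ∫ x in w..(w + t), rho2 w (w + t) x * g x) MeasureTheory.volume 0 (π - t) ∧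
    IntervalIntegrable (fun s => ∫ x in (π - t + s)..(π + s), rho2 (π - t + s) (π + s) x * g x) MeasureTheory.volume 0 t ∧
    IntervalIntegrable (fun w => ∫ x in (π + w)..(π + w + t), rho2 (π + w) (π + w + t) x * g x) MeasureTheory.volume 0 (π - t) ∧
    IntervalIntegrable (fun s => ∫ x in s..(s + (2 * π - t)), rho2 s (s + (2 * π - t)) x * g x) MeasureTheory.volume 0 t ∧
    (∫ w in (0 : ℝ)..(π - t), ∫ x in w..(w + t), rho2 w (w + t) x * g x)
      + (∫ s in (0 : ℝ)..t, ∫ x in (π - t + s)..(π + s), rho2 (π - t + s) (π + s) x * g x)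
      + (∫ w in (0 : ℝ)..(π - t), ∫ x in (π + w)..(π + w + t), rho2 (π + w) (π + w + t) x * g x)
      + (∫ s in (0 : ℝ)..t, ∫ x in s..(s + (2 * π - t)), rho2 s (s + (2 * π - t)) x * g x)
      = ∫ x in (0 : ℝ)..(2 * π), g x := by
  have hπ := Real.pi_pos
  have c : ContinuousOn g (Ioo 0 (2 * π)) := fun x hx => (hg x hx).continuousWithinAt
  obtain ⟨i1, i4, e⟩ := trig2 (t := t) ⟨ht.1, by linarith [ht.2]⟩ c hgb
  set h : ℝ → ℝ := fun w => ∫ x in w..(w + t), rho2 w (w + t) x * g x with hdef
  have q1 : (fun w => ∫ x in w..(w + t),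
      Real.sin (w / 2) * Real.sin ((w + t) / 2) / (2 * Real.sin (t / 2) * Real.sin (x / 2) ^ 2) * g x) = h := by
    funext w
    simp only [hdef, rho2, add_sub_cancel_left]
  have q4 : (fun w => ∫ x in w..(w + (2 * π - t)),
      Real.sin (w / 2) * Real.sin ((t - w) / 2) / (2 * Real.sin (t / 2) * Real.sin (x / 2) ^ 2) * g x) =
      fun s => ∫ x in s..(s + (2 * π - t)), rho2 s (s + (2 * π - t)) x * g x := by
    funext s
    have e1 : Real.sin ((s + (2 * π - t)) / 2) = Real.sin ((t - s) / 2) := by
      have : (s + (2 * π - t)) / 2 = π - (t - s) / 2 := by ring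
      rw [this, Real.sin_pi_sub]
    have e2 : Real.sin ((s + (2 * π - t) - s) / 2) = Real.sin (t / 2) := by
      have : (s + (2 * π - t) - s) / 2 = π - t / 2 := by ring
      rw [this, Real.sin_pi_sub]
    simp only [rho2, e1, e2]
  rw [q1] at i1
  rw [q4] at i4
  have q2 : (fun s => ∫ x in (π - t + s)..(π + s), rho2 (π - t + s) (π + s) x * g x) =
      fun s => h ((π - t) + s) := by
    funext s
    have e3 : π + s = π - t + s + t := by ring
    simp only [hdef, e3]
  have q3 : (fun w => ∫ x in (π + w)..(π + w + t), rho2 (π + w) (π + w + t) x * g x) =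
      fun w => h (π + w) := rfl
  have m1 : IntervalIntegrable h MeasureTheory.volume 0 (π - t) := by
    refine i1.mono_set ?_
    rw [uIcc_of_le (by linarith [ht.2]), uIcc_of_le (by linarith [ht.2])]
    exact Icc_subset_Icc le_rfl (by linarith)
  have m2 : IntervalIntegrable h MeasureTheory.volume (π - t) π := by
    refine i1.mono_set ?_
    rw [uIcc_of_le (by linarith [ht.1]), uIcc_of_le (by linarith [ht.2])]
    exact Icc_subset_Icc (by linarith [ht.2]) (by linarith [ht.2])
  have m3 : IntervalIntegrable h MeasureTheory.volume π (2 * π - t) := by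
    refine i1.mono_set ?_
    rw [uIcc_of_le (by linarith [ht.2]), uIcc_of_le (by linarith [ht.2])]
    exact Icc_subset_Icc (by linarith) le_rfl
  have n2 : IntervalIntegrable (fun s => h ((π - t) + s)) MeasureTheory.volume 0 t := by
    refine asb_ti ?_
    have e4 : π - t + 0 = π - t := by ring
    have e5 : π - t + t = π := by ring
    rw [e4, e5]
    exact m2
  have n3 : IntervalIntegrable (fun w => h (π + w)) MeasureTheory.volume 0 (π - t) := by
    refine asb_ti ?_
    have e4 : π + 0 = π := by ring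
    have e5 : π + (π - t) = 2 * π - t := by ring
    rw [e4, e5]
    exact m3
  refine ⟨m1, by rw [q2]; exact n2, by rw [q3]; exact n3, i4, ?_⟩
  rw [q1, q4] at e
  have s2 : ∫ s in (0 : ℝ)..t, ∫ x in (π - t + s)..(π + s), rho2 (π - t + s) (π + s) x * g x =
      ∫ w in (π - t)..π, h w := by
    rw [q2, intervalIntegral.integral_comp_add_left h (π - t)]
    congr 1 <;> ring
  have s3 : ∫ w in (0 : ℝ)..(π - t), ∫ x in (π + w)..(π + w + t), rho2 (π + w) (π + w + t) x * g x =
      ∫ w in π..(2 * π - t), h w := by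
    rw [q3, intervalIntegral.integral_comp_add_left h π]
    congr 1 <;> ring
  rw [s2, s3, intervalIntegral.integral_add_adjacent_intervals m1 m2,
    intervalIntegral.integral_add_adjacent_intervals (m1.trans m2) m3]
  exact e

theorem singles {f : ℝ → ℝ} {M : ℝ} (hf : ∀ x ∈ Ioo 0 (2 * π), x ≠ π → ContinuousAt f x)
    (hfb : ∀ x ∈ Ioo 0 (2 * π), x ≠ π → |f x| ≤ M) {t : ℝ} (ht : t ∈ Ioo 0 π) :
    IntervalIntegrable (fun w => f w + f (w + t)) MeasureTheory.volume 0 (π - t) ∧
    IntervalIntegrable (fun s => f (π - t + s) + f (π + s)) MeasureTheory.volume 0 t ∧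
    IntervalIntegrable (fun w => f (π + w) + f (π + w + t)) MeasureTheory.volume 0 (π - t) ∧
    IntervalIntegrable (fun s => f s + f (s + (2 * π - t))) MeasureTheory.volume 0 t ∧
    (∫ w in (0 : ℝ)..(π - t), (f w + f (w + t))) + (∫ s in (0 : ℝ)..t, (f (π - t + s) + f (π + s)))
      + (∫ w in (0 : ℝ)..(π - t), (f (π + w) + f (π + w + t))) + (∫ s in (0 : ℝ)..t, (f s + f (s + (2 * π - t))))
      = 2 * ∫ x in (0 : ℝ)..(2 * π), f x := by
  have hπ := Real.pi_pos
  have a1 : IntervalIntegrable f MeasureTheory.volume 0 π :=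
    asb_ii hπ.le (fun x hx => (hf x ⟨hx.1, by linarith [hx.2]⟩ (ne_of_lt hx.2)).continuousWithinAt)
      fun x hx => hfb x ⟨hx.1, by linarith [hx.2]⟩ (ne_of_lt hx.2)
  have a2 : IntervalIntegrable f MeasureTheory.volume π (2 * π) :=
    asb_ii (by linarith)
      (fun x hx => (hf x ⟨by linarith [hx.1], hx.2⟩ (ne_of_gt hx.1)).continuousWithinAt)
      fun x hx => hfb x ⟨by linarith [hx.1], hx.2⟩ (ne_of_gt hx.1)
  have a3 : IntervalIntegrable f MeasureTheory.volume 0 (2 * π) := a1.trans a2
  have sub : ∀ α β : ℝ, 0 ≤ α → α ≤ β → β ≤ 2 * π → IntervalIntegrable f MeasureTheory.volume α β := by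
    intro α β h1 h2 h3
    refine a3.mono_set ?_
    rw [uIcc_of_le h2, uIcc_of_le (by linarith)]
    exact Icc_subset_Icc h1 h3
  -- translations
  have tr : ∀ c α β : ℝ, 0 ≤ c + α → α ≤ β → c + β ≤ 2 * π →
      IntervalIntegrable (fun s => f (c + s)) MeasureTheory.volume α β ∧
      ∫ s in α..β, f (c + s) = ∫ x in (c + α)..(c + β), f x := by
    intro c α β h1 h2 h3
    exact ⟨asb_ti (sub _ _ h1 (by linarith) h3), intervalIntegral.integral_comp_add_left f c⟩
  have p1 := sub 0 (π - t) le_rfl (by linarith [ht.2]) (by linarith [ht.1])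
  have p2 := tr t 0 (π - t) (by linarith [ht.1]) (by linarith [ht.2]) (by linarith)
  have p3 := tr (π - t) 0 t (by linarith [ht.2]) ht.1.le (by linarith)
  have p4 := tr π 0 t (by linarith) ht.1.le (by linarith [ht.2])
  have p5 := tr π 0 (π - t) (by linarith) (by linarith [ht.2]) (by linarith [ht.1])
  have p6 := tr (π + t) 0 (π - t) (by linarith [ht.1]) (by linarith [ht.2]) (by linarith)
  have p7 := sub 0 t le_rfl ht.1.le (by linarith [ht.2])
  have p8 := tr (2 * π - t) 0 t (by linarith [ht.2]) ht.1.le (by linarith)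
  have r2 : (fun w => f (w + t)) = fun w => f (t + w) := by funext w; rw [add_comm]
  have r6 : (fun w => f (π + w + t)) = fun w => f (π + t + w) := by
    funext w; congr 1; ring
  have r8 : (fun s => f (s + (2 * π - t))) = fun s => f (2 * π - t + s) := by
    funext w; rw [add_comm]
  have i2 : IntervalIntegrable (fun w => f (w + t)) MeasureTheory.volume 0 (π - t) := by
    rw [r2]; exact p2.1
  have i6 : IntervalIntegrable (fun w => f (π + w + t)) MeasureTheory.volume 0 (π - t) := by
    rw [r6]; exact p6.1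
  have i8 : IntervalIntegrable (fun s => f (s + (2 * π - t))) MeasureTheory.volume 0 t := by
    rw [r8]; exact p8.1
  refine ⟨p1.add i2, p3.1.add p4.1, p5.1.add i6, p7.add i8, ?_⟩
  rw [intervalIntegral.integral_add p1 i2, intervalIntegral.integral_add p3.1 p4.1,
    intervalIntegral.integral_add p5.1 i6, intervalIntegral.integral_add p7 i8]
  have v2 : ∫ w in (0 : ℝ)..(π - t), f (w + t) = ∫ x in t..π, f x := by
    rw [r2, p2.2]; congr 1 <;> ring
  have v3 : ∫ s in (0 : ℝ)..t, f (π - t + s) = ∫ x in (π - t)..π, f x := by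
    rw [p3.2]; congr 1 <;> ring
  have v4 : ∫ s in (0 : ℝ)..t, f (π + s) = ∫ x in π..(π + t), f x := by
    rw [p4.2]; congr 1; ring
  have v5 : ∫ w in (0 : ℝ)..(π - t), f (π + w) = ∫ x in π..(2 * π - t), f x := by
    rw [p5.2]; congr 1 <;> ring
  have v6 : ∫ w in (0 : ℝ)..(π - t), f (π + w + t) = ∫ x in (π + t)..(2 * π), f x := by
    rw [r6, p6.2]; congr 1 <;> ring
  have v8 : ∫ s in (0 : ℝ)..t, f (s + (2 * π - t)) = ∫ x in (2 * π - t)..(2 * π), f x := by
    rw [r8, p8.2]; congr 1 <;> ring
  rw [v2, v3, v4, v5, v6, v8]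
  have w1 : (∫ x in (0 : ℝ)..(π - t), f x) + (∫ x in (π - t)..π, f x) + (∫ x in π..(2 * π - t), f x)
      + (∫ x in (2 * π - t)..(2 * π), f x) = ∫ x in (0 : ℝ)..(2 * π), f x := by
    rw [intervalIntegral.integral_add_adjacent_intervals p1
        (sub _ _ (by linarith [ht.2]) (by linarith [ht.1]) (by linarith)),
      intervalIntegral.integral_add_adjacent_intervals (sub _ _ le_rfl hπ.le (by linarith))
        (sub _ _ hπ.le (by linarith [ht.2]) (by linarith [ht.1])),
      intervalIntegral.integral_add_adjacent_intervals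
        (sub _ _ le_rfl (by linarith [ht.2]) (by linarith [ht.1]))
        (sub _ _ (by linarith [ht.2]) (by linarith [ht.1]) le_rfl)]
  have w2 : (∫ x in (0 : ℝ)..t, f x) + (∫ x in t..π, f x) + (∫ x in π..(π + t), f x)
      + (∫ x in (π + t)..(2 * π), f x) = ∫ x in (0 : ℝ)..(2 * π), f x := by
    rw [intervalIntegral.integral_add_adjacent_intervals p7
        (sub _ _ ht.1.le ht.2.le (by linarith)),
      intervalIntegral.integral_add_adjacent_intervals (sub _ _ le_rfl hπ.le (by linarith))
        (sub _ _ hπ.le (by linarith [ht.1]) (by linarith [ht.2])),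
      intervalIntegral.integral_add_adjacent_intervals
        (sub _ _ le_rfl (by linarith [ht.1]) (by linarith [ht.2]))
        (sub _ _ (by linarith [ht.1]) (by linarith [ht.2]) le_rfl)]
  linarith

end BL
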