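import Pool.Agent.Lib.MP_ccbbf6_gt.ASa
import Pool.Agent.Lib.MP_ccbbf6_gt.ASb

/-!
# AS: the four integrals (pure real analysis)

`f` plays the role of `φ` (bounded on `(0, 2π)`, continuous off `π`), `g` that of `ψ` (bounded, continuous).
`four_sum`: linearity: `f_part`, `g_part`, `singles` for `f` and for `g`, and the constants `c (π-t) + c t + c (π-t) + c t = 2 π c`; the `f`-terms give
`2 ∫ f - 2 ∫ f = 0`, the `g`-terms give `2 ∫ g - 2 ∫ g = 0`.
-/

open Matrix Set Filter Topology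
open scoped Real

namespace BL

noncomputable def Gc (f g : ℝ → ℝ) (c u v α β : ℝ) : ℝ :=
  c + (f u + f v - 2 * ∫ x in α..β, rho u v x * f x) + (g u + g v - 2 * ∫ x in u..v, rho2 u v x * g x)

theorem as_split {p q p' q' : ℝ → ℝ} {a b : ℝ} (c : ℝ) (hp : IntervalIntegrable p MeasureTheory.volume a b)
    (hq : IntervalIntegrable q MeasureTheory.volume a b) (hp' : IntervalIntegrable p' MeasureTheory.volume a b)
    (hq' : IntervalIntegrable q' MeasureTheory.volume a b) :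
    IntervalIntegrable (fun w => c + (p w - 2 * q w) + (p' w - 2 * q' w)) MeasureTheory.volume a b ∧
    ∫ w in a..b, (c + (p w - 2 * q w) + (p' w - 2 * q' w)) =
      (b - a) * c + ((∫ w in a..b, p w) - 2 * ∫ w in a..b, q w) + ((∫ w in a..b, p' w) - 2 * ∫ w in a..b, q' w) := by
  have e1 : IntervalIntegrable (fun w => p w - 2 * q w) MeasureTheory.volume a b := hp.sub (hq.const_mul 2)
  have e2 : IntervalIntegrable (fun w => p' w - 2 * q' w) MeasureTheory.volume a b := hp'.sub (hq'.const_mul 2)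
  have e0 : IntervalIntegrable (fun _ : ℝ => c) MeasureTheory.volume a b := intervalIntegrable_const
  have e3 : IntervalIntegrable (fun w => c + (p w - 2 * q w)) MeasureTheory.volume a b := e0.add e1
  refine ⟨e3.add e2, ?_⟩
  rw [intervalIntegral.integral_add e3 e2, intervalIntegral.integral_add e0 e1,
    intervalIntegral.integral_sub hp (hq.const_mul 2), intervalIntegral.integral_sub hp' (hq'.const_mul 2),
    intervalIntegral.integral_const_mul, intervalIntegral.integral_const_mul, intervalIntegral.integral_const,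
    smul_eq_mul]

theorem four_sum {f g : ℝ → ℝ} {M : ℝ} (hf : ∀ x ∈ Ioo 0 (2 * π), x ≠ π → ContinuousAt f x)
    (hfb : ∀ x ∈ Ioo 0 (2 * π), x ≠ π → |f x| ≤ M) (hg : ∀ x ∈ Ioo 0 (2 * π), ContinuousAt g x)
    (hgb : ∀ x ∈ Ioo 0 (2 * π), |g x| ≤ M) {t : ℝ} (ht : t ∈ Ioo 0 π) (c : ℝ) :
    IntervalIntegrable (fun w => Gc f g c w (w + t) w (w + t)) MeasureTheory.volume 0 (π - t) ∧
    IntervalIntegrable (fun s => Gc f g c (π - t + s) (π + s) (π + s) (π - t + s + π)) MeasureTheory.volume 0 t ∧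
    IntervalIntegrable (fun w => Gc f g c (π + w) (π + w + t) (π + w) (π + w + t)) MeasureTheory.volume 0 (π - t) ∧
    IntervalIntegrable (fun s => Gc f g c s (s + (2 * π - t)) s (s + (2 * π - t) - π)) MeasureTheory.volume 0 t ∧
    (∫ w in (0 : ℝ)..(π - t), Gc f g c w (w + t) w (w + t))
      + (∫ s in (0 : ℝ)..t, Gc f g c (π - t + s) (π + s) (π + s) (π - t + s + π))
      + (∫ w in (0 : ℝ)..(π - t), Gc f g c (π + w) (π + w + t) (π + w) (π + w + t))
      + (∫ s in (0 : ℝ)..t, Gc f g c s (s + (2 * π - t)) s (s + (2 * π - t) - π)) = 2 * π * c := by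
  obtain ⟨F1, F2, F3, F4, FS⟩ := f_part hf hfb ht
  obtain ⟨G1, G2, G3, G4, GS⟩ := g_part hg hgb ht
  obtain ⟨P1, P2, P3, P4, PS⟩ := singles hf hfb ht
  obtain ⟨Q1, Q2, Q3, Q4, QS⟩ := singles (fun x hx _ => hg x hx) (fun x hx _ => hgb x hx) ht
  obtain ⟨a1, b1⟩ := as_split c P1 F1 Q1 G1
  obtain ⟨a2, b2⟩ := as_split c P2 F2 Q2 G2
  obtain ⟨a3, b3⟩ := as_split c P3 F3 Q3 G3
  obtain ⟨a4, b4⟩ := as_split c P4 F4 Q4 G4
  refine ⟨a1, a2, a3, a4, ?_⟩
  have k1 : (∫ w in (0 : ℝ)..(π - t), Gc f g c w (w + t) w (w + t)) = _ := b1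
  have k2 : (∫ s in (0 : ℝ)..t, Gc f g c (π - t + s) (π + s) (π + s) (π - t + s + π)) = _ := b2
  have k3 : (∫ w in (0 : ℝ)..(π - t), Gc f g c (π + w) (π + w + t) (π + w) (π + w + t)) = _ := b3
  have k4 : (∫ s in (0 : ℝ)..t, Gc f g c s (s + (2 * π - t)) s (s + (2 * π - t) - π)) = _ := b4
  rw [k1, k2, k3, k4]
  linear_combination PS + QS - 2 * FS - 2 * GS

end BL
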