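import Pool.Agent.Lib.MP_ccbbf6_gt.Base
import Pool.Agent.Lib.MP_ccbbf6_gt.TR

/-!
# ASa: the first block in the four integrals (pure real analysis)

`f` is bounded on `(0, 2π)` and continuous off `π`.  `0 < t < π`.
First and fourth term: `rho w (w+t) x = sin w sin (w+t) / (sin t sin² x)` for `0 < w < π - t`, and for `0 < s < t`
`rho s (s+(2π-t)) x = |sin s sin (s - t)| / (|sin (2π - t)| sin² x) = sin s sin (t-s) / (sin t sin² x)`: `trig1` for `f`: they sum up to `∫ 0..π f`.
Third and second term: substitute `x = π + x'` in the inner integrals (`intervalIntegral.integral_comp_add_left`): `rho (π+w) (π+w+t) (π+x') = sin w sin (w+t) / (sin t sin² x')`,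
`rho (π-t+s) (π+s) (π+x') = sin (t-s) sin s / (sin t sin² x')`: `trig1` for `fun x => f (π + x)`: they sum up to `∫ x in 0..π, f (π + x) = ∫ π..2π f`.
The values at the end points of the outer integrals do not matter (congruence on the open interval, `intervalIntegral.integral_congr_ae` or `integral_congr_Ioo`).
-/

open Matrix Set Filter Topology
open scoped Real

namespace BL

theorem asa_ii {f : ℝ → ℝ} {M α β : ℝ} (hαβ : α ≤ β) (hf : ContinuousOn f (Ioo α β))
    (hM : ∀ x ∈ Ioo α β, |f x| ≤ M) : IntervalIntegrable f MeasureTheory.volume α β := by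
  rw [intervalIntegrable_iff_integrableOn_Ioo_of_le hαβ]
  refine MeasureTheory.IntegrableOn.of_bound ?_
    (hf.aestronglyMeasurable measurableSet_Ioo) M ?_
  · simp
  · refine (MeasureTheory.ae_restrict_iff' measurableSet_Ioo).2 (Filter.Eventually.of_forall ?_)
    intro x hx
    rw [Real.norm_eq_abs]
    exact hM x hx

/-- first kernel -/
theorem asa_k1 {t w x : ℝ} (ht : t ∈ Ioo 0 π) (hw : w ∈ Icc 0 (π - t)) :
    rho w (w + t) x = Real.sin w * Real.sin (w + t) / (Real.sin t * Real.sin x ^ 2) := by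
  have h1 : 0 ≤ Real.sin w := Real.sin_nonneg_of_nonneg_of_le_pi hw.1 (by linarith [hw.2, ht.1])
  have h2 : 0 ≤ Real.sin (w + t) :=
    Real.sin_nonneg_of_nonneg_of_le_pi (by linarith [hw.1, ht.1]) (by linarith [hw.2])
  have h3 : 0 ≤ Real.sin t := (Real.sin_pos_of_pos_of_lt_pi ht.1 ht.2).le
  unfold rho
  rw [abs_of_nonneg (mul_nonneg h1 h2), add_sub_cancel_left, abs_of_nonneg h3]

/-- third kernel -/
theorem asa_k3 {t w x : ℝ} (ht : t ∈ Ioo 0 π) (hw : w ∈ Icc 0 (π - t)) :
    rho (π + w) (π + w + t) (π + x) = Real.sin w * Real.sin (w + t) / (Real.sin t * Real.sin x ^ 2) := by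
  rw [← asa_k1 ht hw]
  unfold rho
  have e1 : Real.sin (π + w) = - Real.sin w := by rw [add_comm, Real.sin_add_pi]
  have e2 : Real.sin (π + w + t) = - Real.sin (w + t) := by
    rw [add_assoc, add_comm, Real.sin_add_pi]
  have e3 : Real.sin (π + x) = - Real.sin x := by rw [add_comm, Real.sin_add_pi]
  rw [e1, e2, e3, neg_mul_neg, neg_sq, add_sub_cancel_left, add_sub_cancel_left]

/-- fourth kernel -/
theorem asa_k4 {t s x : ℝ} (ht : t ∈ Ioo 0 π) (hs : s ∈ Icc 0 t) :
    rho s (s + (2 * π - t)) x = Real.sin s * Real.sin (t - s) / (Real.sin t * Real.sin x ^ 2) := by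
  have h1 : 0 ≤ Real.sin s := Real.sin_nonneg_of_nonneg_of_le_pi hs.1 (by linarith [hs.2, ht.2])
  have h2 : 0 ≤ Real.sin (t - s) :=
    Real.sin_nonneg_of_nonneg_of_le_pi (by linarith [hs.2]) (by linarith [hs.1, ht.2])
  have h3 : 0 ≤ Real.sin t := (Real.sin_pos_of_pos_of_lt_pi ht.1 ht.2).le
  have e1 : Real.sin (s + (2 * π - t)) = - Real.sin (t - s) := by
    have : s + (2 * π - t) = 2 * π - (t - s) := by ring
    rw [this, Real.sin_two_pi_sub]
  have e2 : Real.sin (s + (2 * π - t) - s) = - Real.sin t := by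
    rw [add_sub_cancel_left, Real.sin_two_pi_sub]
  unfold rho
  rw [e1, e2, mul_neg, abs_neg, abs_neg, abs_of_nonneg (mul_nonneg h1 h2), abs_of_nonneg h3]

/-- second kernel -/
theorem asa_k2 {t s x : ℝ} (ht : t ∈ Ioo 0 π) (hs : s ∈ Icc 0 t) :
    rho (π - t + s) (π + s) (π + x) = Real.sin s * Real.sin (t - s) / (Real.sin t * Real.sin x ^ 2) := by
  have h1 : 0 ≤ Real.sin s := Real.sin_nonneg_of_nonneg_of_le_pi hs.1 (by linarith [hs.2, ht.2])
  have h2 : 0 ≤ Real.sin (t - s) :=
    Real.sin_nonneg_of_nonneg_of_le_pi (by linarith [hs.2]) (by linarith [hs.1, ht.2])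
  have h3 : 0 ≤ Real.sin t := (Real.sin_pos_of_pos_of_lt_pi ht.1 ht.2).le
  have e1 : Real.sin (π - t + s) = Real.sin (t - s) := by
    have : π - t + s = π - (t - s) := by ring
    rw [this, Real.sin_pi_sub]
  have e2 : Real.sin (π + s) = - Real.sin s := by rw [add_comm, Real.sin_add_pi]
  have e3 : Real.sin (π + x) = - Real.sin x := by rw [add_comm, Real.sin_add_pi]
  have e4 : π + s - (π - t + s) = t := by ring
  unfold rho
  rw [e1, e2, e3, e4, mul_neg, abs_neg, neg_sq, mul_comm (Real.sin (t - s)),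
    abs_of_nonneg (mul_nonneg h1 h2), abs_of_nonneg h3]

theorem f_part {f : ℝ → ℝ} {M : ℝ} (hf : ∀ x ∈ Ioo 0 (2 * π), x ≠ π → ContinuousAt f x)
    (hfb : ∀ x ∈ Ioo 0 (2 * π), x ≠ π → |f x| ≤ M) {t : ℝ} (ht : t ∈ Ioo 0 π) :
    IntervalIntegrable (fun w => ∫ x in w..(w + t), rho w (w + t) x * f x) MeasureTheory.volume 0 (π - t) ∧
    IntervalIntegrable (fun s => ∫ x in (π + s)..(π - t + s + π), rho (π - t + s) (π + s) x * f x) MeasureTheory.volume 0 t ∧
    IntervalIntegrable (fun w => ∫ x in (π + w)..(π + w + t), rho (π + w) (π + w + t) x * f x) MeasureTheory.volume 0 (π - t) ∧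
    IntervalIntegrable (fun s => ∫ x in s..(s + (2 * π - t) - π), rho s (s + (2 * π - t)) x * f x) MeasureTheory.volume 0 t ∧
    (∫ w in (0 : ℝ)..(π - t), ∫ x in w..(w + t), rho w (w + t) x * f x)
      + (∫ s in (0 : ℝ)..t, ∫ x in (π + s)..(π - t + s + π), rho (π - t + s) (π + s) x * f x)
      + (∫ w in (0 : ℝ)..(π - t), ∫ x in (π + w)..(π + w + t), rho (π + w) (π + w + t) x * f x)
      + (∫ s in (0 : ℝ)..t, ∫ x in s..(s + (2 * π - t) - π), rho s (s + (2 * π - t)) x * f x)
      = ∫ x in (0 : ℝ)..(2 * π), f x := by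
  have hπ := Real.pi_pos
  have c1 : ContinuousOn f (Ioo 0 π) := fun x hx =>
    (hf x ⟨hx.1, by linarith [hx.2]⟩ (ne_of_lt hx.2)).continuousWithinAt
  have b1 : ∀ x ∈ Ioo 0 π, |f x| ≤ M := fun x hx =>
    hfb x ⟨hx.1, by linarith [hx.2]⟩ (ne_of_lt hx.2)
  have c2 : ContinuousOn f (Ioo π (2 * π)) := fun x hx =>
    (hf x ⟨by linarith [hx.1], hx.2⟩ (ne_of_gt hx.1)).continuousWithinAt
  have b2 : ∀ x ∈ Ioo π (2 * π), |f x| ≤ M := fun x hx =>
    hfb x ⟨by linarith [hx.1], hx.2⟩ (ne_of_gt hx.1)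
  have c3 : ContinuousOn (fun x => f (π + x)) (Ioo 0 π) := by
    refine c2.comp (continuous_const.add continuous_id).continuousOn ?_
    intro x hx
    exact ⟨by have := hx.1; show π < π + x; linarith, by have := hx.2; show π + x < 2 * π; linarith⟩
  have b3 : ∀ x ∈ Ioo 0 π, |f (π + x)| ≤ M := fun x hx =>
    b2 (π + x) ⟨by linarith [hx.1], by linarith [hx.2]⟩
  obtain ⟨i1, i4, e14⟩ := trig1 ht c1 b1
  obtain ⟨i3, i2, e32⟩ := trig1 ht c3 b3
  have u1 : uIcc 0 (π - t) = Icc 0 (π - t) := uIcc_of_le (by linarith [ht.2])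
  have u2 : uIcc 0 t = Icc 0 t := uIcc_of_le ht.1.le
  have q1 : EqOn (fun w => ∫ x in w..(w + t), rho w (w + t) x * f x)
      (fun w => ∫ x in w..(w + t), Real.sin w * Real.sin (w + t) / (Real.sin t * Real.sin x ^ 2) * f x)
      (uIcc 0 (π - t)) := by
    intro w hw
    rw [u1] at hw
    exact intervalIntegral.integral_congr fun x _ => by simp only [asa_k1 ht hw]
  have q4 : EqOn (fun s => ∫ x in s..(s + (2 * π - t) - π), rho s (s + (2 * π - t)) x * f x)
      (fun w => ∫ x in w..(w + (π - t)), Real.sin w * Real.sin (t - w) / (Real.sin t * Real.sin x ^ 2) * f x)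
      (uIcc 0 t) := by
    intro s hs
    rw [u2] at hs
    have e : s + (2 * π - t) - π = s + (π - t) := by ring
    simp only [e]
    exact intervalIntegral.integral_congr fun x _ => by simp only [asa_k4 ht hs]
  have q3 : EqOn (fun w => ∫ x in (π + w)..(π + w + t), rho (π + w) (π + w + t) x * f x)
      (fun w => ∫ x in w..(w + t), Real.sin w * Real.sin (w + t) / (Real.sin t * Real.sin x ^ 2) * f (π + x))
      (uIcc 0 (π - t)) := by
    intro w hw
    rw [u1] at hw
    have e : ∫ x in w..(w + t), rho (π + w) (π + w + t) (π + x) * f (π + x) =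
        ∫ x in (π + w)..(π + w + t), rho (π + w) (π + w + t) x * f x := by
      rw [intervalIntegral.integral_comp_add_left (fun x => rho (π + w) (π + w + t) x * f x) π,
        ← add_assoc]
    simp only [← e]
    exact intervalIntegral.integral_congr fun x _ => by simp only [asa_k3 ht hw]
  have q2 : EqOn (fun s => ∫ x in (π + s)..(π - t + s + π), rho (π - t + s) (π + s) x * f x)
      (fun w => ∫ x in w..(w + (π - t)), Real.sin w * Real.sin (t - w) / (Real.sin t * Real.sin x ^ 2) * f (π + x))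
      (uIcc 0 t) := by
    intro s hs
    rw [u2] at hs
    have e : ∫ x in s..(s + (π - t)), rho (π - t + s) (π + s) (π + x) * f (π + x) =
        ∫ x in (π + s)..(π - t + s + π), rho (π - t + s) (π + s) x * f x := by
      rw [intervalIntegral.integral_comp_add_left (fun x => rho (π - t + s) (π + s) x * f x) π]
      have e5 : π + (s + (π - t)) = π - t + s + π := by ring
      rw [e5]
    simp only [← e]
    exact intervalIntegral.integral_congr fun x _ => by simp only [asa_k2 ht hs]
  have j1 : IntervalIntegrable (fun w => ∫ x in w..(w + t), rho w (w + t) x * f x)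
      MeasureTheory.volume 0 (π - t) := i1.congr fun w hw => (q1 (uIoc_subset_uIcc hw)).symm
  have j2 : IntervalIntegrable (fun s => ∫ x in (π + s)..(π - t + s + π), rho (π - t + s) (π + s) x * f x)
      MeasureTheory.volume 0 t := i2.congr fun w hw => (q2 (uIoc_subset_uIcc hw)).symm
  have j3 : IntervalIntegrable (fun w => ∫ x in (π + w)..(π + w + t), rho (π + w) (π + w + t) x * f x)
      MeasureTheory.volume 0 (π - t) := i3.congr fun w hw => (q3 (uIoc_subset_uIcc hw)).symm
  have j4 : IntervalIntegrable (fun s => ∫ x in s..(s + (2 * π - t) - π), rho s (s + (2 * π - t)) x * f x)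
      MeasureTheory.volume 0 t := i4.congr fun w hw => (q4 (uIoc_subset_uIcc hw)).symm
  refine ⟨j1, j2, j3, j4, ?_⟩
  rw [intervalIntegral.integral_congr q1, intervalIntegral.integral_congr q2,
    intervalIntegral.integral_congr q3, intervalIntegral.integral_congr q4]
  have hsplit : ∫ x in (0 : ℝ)..(2 * π), f x = (∫ x in (0 : ℝ)..π, f x) + ∫ x in (0 : ℝ)..π, f (π + x) := by
    have e6 : ∫ x in (0 : ℝ)..π, f (π + x) = ∫ x in π..(2 * π), f x := by
      rw [intervalIntegral.integral_comp_add_left f π, add_zero, ← two_mul]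
    rw [e6]
    exact (intervalIntegral.integral_add_adjacent_intervals (asa_ii hπ.le c1 b1)
      (asa_ii (by linarith) c2 b2)).symm
  rw [hsplit, ← e14, ← e32]
  ring

end BL
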