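import Pool.Agent.Lib.MP_ccbbf6_gt.AS

/-!
# ASc: continuity of the right side on the first family

For `0 < w < π - t` the function `w ↦ Gc f g c w (w+t) w (w+t)` is continuous: `∫ w..(w+t) rho w (w+t) x f x = |sin w sin (w+t)| / |sin t| * (U (w+t) - U w)`
with the primitive `U x = ∫ (π/2)..x f / sin²`, continuous on `(0, π)`; the same for `rho2` with a primitive of `g / sin² (x/2)` on `(0, 2π)`.
-/

open Matrix Set Filter Topology
open scoped Real

namespace BL

theorem asc_cont {h : ℝ → ℝ} {a b t : ℝ} (ht : 0 < t) (hh : ContinuousOn h (Ioo a b)) :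
    ContinuousOn (fun w => ∫ x in w..(w + t), h x) (Ioo a (b - t)) := by
  intro w₀ hw₀
  apply ContinuousAt.continuousWithinAt
  have h0 : w₀ ∈ Ioo a b := ⟨hw₀.1, by linarith [hw₀.2]⟩
  have h1 : w₀ + t ∈ Ioo a b := ⟨by linarith [hw₀.1], by linarith [hw₀.2]⟩
  have hi : ∀ x ∈ Ioo a b, ∀ y ∈ Ioo a b, IntervalIntegrable h MeasureTheory.volume x y := by
    intro x hx y hy
    exact (hh.mono (ordConnected_Ioo.uIcc_subset hx hy)).intervalIntegrable
  have hU : ∀ x ∈ Ioo a b, ContinuousAt (fun x => ∫ y in w₀..x, h y) x := fun x hx =>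
    (intervalIntegral.integral_hasDerivAt_right (hi w₀ h0 x hx)
      (hh.stronglyMeasurableAtFilter isOpen_Ioo x hx) (hh.continuousAt (isOpen_Ioo.mem_nhds hx))).continuousAt
  have hs : ContinuousAt (fun w : ℝ => w + t) w₀ := by fun_prop
  have hc : ContinuousAt (fun w => (∫ y in w₀..(w + t), h y) - ∫ y in w₀..w, h y) w₀ :=
    (ContinuousAt.comp (f := fun w : ℝ => w + t) (g := fun x => ∫ y in w₀..x, h y) (hU _ h1) hs).sub (hU _ h0)
  refine hc.congr ?_
  filter_upwards [isOpen_Ioo.mem_nhds hw₀] with w hw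
  have k0 : w ∈ Ioo a b := ⟨hw.1, by linarith [hw.2]⟩
  have k1 : w + t ∈ Ioo a b := ⟨by linarith [hw.1], by linarith [hw.2]⟩
  exact intervalIntegral.integral_interval_sub_left (hi _ h0 _ k1) (hi _ h0 _ k0)

theorem cont_Gc {f g : ℝ → ℝ} (hf : ∀ x ∈ Ioo 0 (2 * π), x ≠ π → ContinuousAt f x)
    (hg : ∀ x ∈ Ioo 0 (2 * π), ContinuousAt g x) {t : ℝ} (ht : t ∈ Ioo 0 π) (c : ℝ) :
    ContinuousOn (fun w => Gc f g c w (w + t) w (w + t)) (Ioo 0 (π - t)) := by
  have hπ := Real.pi_pos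
  have ht0 : 0 < t := ht.1
  have hfc : ContinuousOn f (Ioo 0 π) := fun x hx =>
    (hf x ⟨hx.1, by linarith [hx.2]⟩ (ne_of_lt hx.2)).continuousWithinAt
  have hgc : ContinuousOn g (Ioo 0 (2 * π)) := fun x hx => (hg x hx).continuousWithinAt
  have hsub1 : ∀ w ∈ Ioo 0 (π - t), w ∈ Ioo 0 π := fun w hw => ⟨hw.1, by linarith [hw.2]⟩
  have hsub2 : ∀ w ∈ Ioo 0 (π - t), w + t ∈ Ioo 0 π := fun w hw => ⟨by linarith [hw.1], by linarith [hw.2]⟩
  have hsub3 : Ioo (0 : ℝ) π ⊆ Ioo 0 (2 * π) := fun x hx => ⟨hx.1, by linarith [hx.2]⟩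
  have hadd : ContinuousOn (fun w : ℝ => w + t) (Ioo 0 (π - t)) := by fun_prop
  -- the first block
  have hF : ContinuousOn (fun x => f x / Real.sin x ^ 2) (Ioo 0 π) :=
    hfc.div (by fun_prop) (fun x hx => pow_ne_zero _ (Real.sin_pos_of_pos_of_lt_pi hx.1 hx.2).ne')
  have hG : ContinuousOn (fun x => g x / Real.sin (x / 2) ^ 2) (Ioo 0 (2 * π)) :=
    hgc.div (by fun_prop) (fun x hx => pow_ne_zero _
      (Real.sin_pos_of_pos_of_lt_pi (by linarith [hx.1]) (by linarith [hx.2])).ne')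
  have hF' : ContinuousOn (fun w => |Real.sin w * Real.sin (w + t)| / |Real.sin t| *
      ∫ x in w..(w + t), f x / Real.sin x ^ 2) (Ioo 0 (π - t)) :=
    ContinuousOn.mul (by fun_prop) (asc_cont ht0 hF)
  have hG' : ContinuousOn (fun w => Real.sin (w / 2) * Real.sin ((w + t) / 2) / (2 * Real.sin (t / 2)) *
      ∫ x in w..(w + t), g x / Real.sin (x / 2) ^ 2) (Ioo 0 (π - t)) := by
    refine ContinuousOn.mul (by fun_prop) ((asc_cont ht0 hG).mono ?_)
    intro x hx
    exact ⟨hx.1, by linarith [hx.2]⟩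
  have hmain : ContinuousOn (fun w => c + (f w + f (w + t) - 2 * (|Real.sin w * Real.sin (w + t)| / |Real.sin t| *
      ∫ x in w..(w + t), f x / Real.sin x ^ 2)) + (g w + g (w + t) -
      2 * (Real.sin (w / 2) * Real.sin ((w + t) / 2) / (2 * Real.sin (t / 2)) *
      ∫ x in w..(w + t), g x / Real.sin (x / 2) ^ 2))) (Ioo 0 (π - t)) := by
    refine ContinuousOn.add (ContinuousOn.add continuousOn_const ?_) ?_
    · refine ContinuousOn.sub (ContinuousOn.add (hfc.mono hsub1) (hfc.comp hadd hsub2)) ?_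
      exact continuousOn_const.mul hF'
    · refine ContinuousOn.sub (ContinuousOn.add (hgc.mono fun w hw => hsub3 (hsub1 w hw))
        (hgc.comp hadd fun w hw => hsub3 (hsub2 w hw))) ?_
      exact continuousOn_const.mul hG'
  refine hmain.congr fun w hw => ?_
  have e1 : ∫ x in w..(w + t), rho w (w + t) x * f x = |Real.sin w * Real.sin (w + t)| / |Real.sin t| *
      ∫ x in w..(w + t), f x / Real.sin x ^ 2 := by
    rw [← intervalIntegral.integral_const_mul]
    refine intervalIntegral.integral_congr fun x _ => ?_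
    simp only [rho, add_sub_cancel_left]
    rw [div_mul_div_comm, div_mul_eq_mul_div]
  have e2 : ∫ x in w..(w + t), rho2 w (w + t) x * g x =
      Real.sin (w / 2) * Real.sin ((w + t) / 2) / (2 * Real.sin (t / 2)) *
      ∫ x in w..(w + t), g x / Real.sin (x / 2) ^ 2 := by
    rw [← intervalIntegral.integral_const_mul]
    refine intervalIntegral.integral_congr fun x _ => ?_
    simp only [rho2, add_sub_cancel_left]
    rw [div_mul_div_comm, div_mul_eq_mul_div]
  simp only [Gc]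
  rw [e1, e2]

end BL
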