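import Pool.Agent.Lib.MP_ccbbf6_gt.ML

/-!
# Base definitions (no geometry): entrywise derivative, weights, model value
-/

open Matrix Set Filter Topology
open scoped Real

namespace BL

/-- entrywise derivative of a matrix valued function -/
def MD {m n : Type*} (M : ℝ → Matrix m n ℝ) (M' : Matrix m n ℝ) (x : ℝ) : Prop :=
  ∀ i j, HasDerivAt (fun y => M y i j) (M' i j) x

/-- the value of the model -/
noncomputable def F0 (a b : Type) [Fintype a] [Fintype b] (t : ℝ) : ℝ :=
  (Fintype.card a : ℝ) * Real.log |Real.sin t| + (Fintype.card b : ℝ) * Real.log (2 * Real.sin (t / 2))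

/-- weights -/
noncomputable def rho (u v x : ℝ) : ℝ := |Real.sin u * Real.sin v| / (|Real.sin (v - u)| * Real.sin x ^ 2)

noncomputable def rho2 (u v x : ℝ) : ℝ :=
  Real.sin (u / 2) * Real.sin (v / 2) / (2 * Real.sin ((v - u) / 2) * Real.sin (x / 2) ^ 2)

end BL
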