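import Pool.Agent.Lib.MP_ccbbf6_gt.ML

/-!
# Blaschke manifolds: the convex cone of the directions of the minimal geodesics (linear algebra part)

`Λ` is the set of the directions at `q` of the geodesics of length `π` from `q` to `p`. The first variation gives
for every unit vector `e` a `w' ∈ Λ` with `0 ≤ ⟪e, w'⟫` and `⟪e, w⟫ ≤ ⟪e, w'⟫ * ⟪w', w⟫` for all `w ∈ Λ`.
-/

set_option autoImplicit false

open Real InnerProductSpace
open scoped RealInnerProductSpace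

namespace MPbl

variable {E : Type*} [NormedAddCommGroup E] [InnerProductSpace ℝ E]

/-- The condition which follows from the first variation. -/
def ConeCond (Λ : Set E) : Prop :=
  ∀ e : E, ‖e‖ = 1 → ∃ w' ∈ Λ, 0 ≤ ⟪e, w'⟫_ℝ ∧ ∀ w ∈ Λ, ⟪e, w⟫_ℝ ≤ ⟪e, w'⟫_ℝ * ⟪w', w⟫_ℝ

/-- The polar cone. -/
def Polar (Λ : Set E) : Set E := {x | ∀ w ∈ Λ, ⟪x, w⟫_ℝ ≤ 0}

variable {Λ : Set E}

theorem Polar.add {x y : E} (hx : x ∈ Polar Λ) (hy : y ∈ Polar Λ) : x + y ∈ Polar Λ := fun w hw => by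
  rw [inner_add_left]
  exact add_nonpos (hx w hw) (hy w hw)

theorem Polar.smul {x : E} (hx : x ∈ Polar Λ) {c : ℝ} (hc : 0 ≤ c) : c • x ∈ Polar Λ := fun w hw => by
  rw [real_inner_smul_left]
  exact mul_nonpos_of_nonneg_of_nonpos hc (hx w hw)

theorem Polar.sum {ι : Type*} (s : Finset ι) {x : ι → E} (hx : ∀ i ∈ s, x i ∈ Polar Λ) : ∑ i ∈ s, x i ∈ Polar Λ :=
  fun w hw => by
    rw [sum_inner]
    exact Finset.sum_nonpos fun i hi => hx i hi w hw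

/-- (ii-a) A unit vector of the bipolar cone belongs to `Λ`. -/
theorem mem_of_bipolar (h : ConeCond Λ) (hΛ : ∀ w ∈ Λ, ‖w‖ = 1) {e : E} (he : ‖e‖ = 1)
    (hb : ∀ x ∈ Polar Λ, ⟪x, e⟫_ℝ ≤ 0) : e ∈ Λ := by
  obtain ⟨w', hw', h0, hw⟩ := h e he
  have h1 : ‖w'‖ = 1 := hΛ w' hw'
  have h2 : e - ⟪e, w'⟫_ℝ • w' ∈ Polar Λ := fun w hwΛ => by
    rw [inner_sub_left, real_inner_smul_left]
    exact sub_nonpos.2 (hw w hwΛ)
  have h3 := hb _ h2
  rw [inner_sub_left, real_inner_smul_left, real_inner_self_eq_norm_sq, he, real_inner_comm e w'] at h3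
  have h4 : ⟪e, w'⟫_ℝ ≤ 1 := by
    have := real_inner_le_norm e w'
    rwa [he, h1, one_mul] at this
  have h5 : ⟪e, w'⟫_ℝ = 1 := by nlinarith
  have h6 : e = w' := (inner_eq_one_iff_of_norm_eq_one he h1).1 h5
  rw [h6]
  exact hw'

/-- (1) There is `w₁` with `w₁, -w₁ ∈ Λ`, and it is orthogonal to the polar cone. -/
theorem exists_antipodal (h : ConeCond Λ) (hΛ : ∀ w ∈ Λ, ‖w‖ = 1) (hc : IsCompact Λ) (hne : Λ.Nonempty) :
    ∃ w₁ ∈ Λ, -w₁ ∈ Λ := by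
  classical
  by_cases hex : ∃ w₁ ∈ Λ, ∀ x ∈ Polar Λ, 0 ≤ ⟪x, w₁⟫_ℝ
  · obtain ⟨w₁, hw₁, hx⟩ := hex
    refine ⟨w₁, hw₁, mem_of_bipolar h hΛ (by rw [norm_neg]; exact hΛ w₁ hw₁) fun x hxP => ?_⟩
    rw [inner_neg_right]
    exact neg_nonpos.2 (hx x hxP)
  · exfalso
    push Not at hex
    choose! f hf hlt using hex
    have hU : ∀ w ∈ Λ, IsOpen {v : E | ⟪f w, v⟫_ℝ < 0} := fun w _ =>
      isOpen_lt (continuous_const.inner continuous_id) continuous_const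
    obtain ⟨s, hcov⟩ := hc.elim_nhds_subcover' (fun w _ => {v : E | ⟪f w, v⟫_ℝ < 0})
      (fun w hw => (hU w hw).mem_nhds (hlt w hw))
    set x : E := ∑ i ∈ s, f i with hxdef
    have hxP : x ∈ Polar Λ := Polar.sum s fun i _ => hf i i.2
    have hneg : ∀ w ∈ Λ, ⟪x, w⟫_ℝ < 0 := fun w hw => by
      obtain ⟨i, hi, hiw⟩ := Set.mem_iUnion₂.1 (hcov hw)
      rw [hxdef, sum_inner]
      exact Finset.sum_neg' (fun j _ => hf j j.2 w hw) ⟨i, hi, hiw⟩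
    have hx0 : x ≠ 0 := fun h0 => by
      obtain ⟨w, hw⟩ := hne
      have := hneg w hw
      rw [h0, inner_zero_left] at this
      exact lt_irrefl _ this
    have hn : 0 < ‖x‖ := norm_pos_iff.2 hx0
    obtain ⟨w', hw', h0, -⟩ := h (‖x‖⁻¹ • x) (by rw [norm_smul, norm_inv, norm_norm, inv_mul_cancel₀ hn.ne'])
    rw [real_inner_smul_left] at h0
    exact absurd (mul_neg_of_pos_of_neg (inv_pos.2 hn) (hneg w' hw')) (not_lt.2 h0)

/-- A vector of `Λ` orthogonal to the polar cone has its antipode in `Λ`. -/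
theorem neg_mem (h : ConeCond Λ) (hΛ : ∀ w ∈ Λ, ‖w‖ = 1) {k : E} (hk : k ∈ Λ)
    (hp : ∀ x ∈ Polar Λ, ‖x‖ = 1 → 0 ≤ ⟪x, k⟫_ℝ) : -k ∈ Λ := by
  refine mem_of_bipolar h hΛ (by rw [norm_neg]; exact hΛ k hk) fun x hx => ?_
  rw [inner_neg_right]
  rcases eq_or_ne x 0 with rfl | hx0
  · rw [inner_zero_left, neg_zero]
  · have hn : 0 < ‖x‖ := norm_pos_iff.2 hx0
    have := hp (‖x‖⁻¹ • x) (Polar.smul hx (inv_nonneg.2 hn.le))
      (by rw [norm_smul, norm_inv, norm_norm, inv_mul_cancel₀ hn.ne'])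
    rw [real_inner_smul_left] at this
    exact neg_nonpos.2 (by
      by_contra hlt
      exact absurd (mul_neg_of_pos_of_neg (inv_pos.2 hn) (not_le.1 hlt)) (not_lt.2 this))

/-- (2) If `w₁, k ∈ Λ` and `k ≠ ±w₁` then the arc of the great circle from `w₁` to `k` is contained in `Λ`. -/
theorem exists_arc (h : ConeCond Λ) (hΛ : ∀ w ∈ Λ, ‖w‖ = 1) {w₁ k : E} (hw₁ : w₁ ∈ Λ) (hk : k ∈ Λ) (h1 : k ≠ w₁)
    (h2 : k ≠ -w₁) : ∃ η : E, ‖η‖ = 1 ∧ ⟪w₁, η⟫_ℝ = 0 ∧ ∃ s₁ ∈ Set.Ioo 0 π, k = cos s₁ • w₁ + sin s₁ • η ∧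
      ∀ s ∈ Set.Icc 0 s₁, cos s • w₁ + sin s • η ∈ Λ := by
  have hn1 : ‖w₁‖ = 1 := hΛ w₁ hw₁
  have hnk : ‖k‖ = 1 := hΛ k hk
  set c : ℝ := ⟪w₁, k⟫_ℝ with hc
  have hc1 : c < 1 := by
    rcases lt_or_eq_of_le (by have := real_inner_le_norm w₁ k; rwa [hn1, hnk, one_mul] at this : c ≤ 1) with hlt | heq
    · exact hlt
    · exact absurd ((inner_eq_one_iff_of_norm_eq_one hn1 hnk).1 heq).symm h1
  have hc2 : -1 < c := by
    have h3 : ⟪w₁, -k⟫_ℝ ≤ 1 := by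
      have := real_inner_le_norm w₁ (-k); rwa [norm_neg, hn1, hnk, one_mul] at this
    rw [inner_neg_right] at h3
    rcases lt_or_eq_of_le h3 with hlt | heq
    · linarith
    · have h4 : ⟪w₁, -k⟫_ℝ = 1 := by rw [inner_neg_right]; exact heq
      have := (inner_eq_one_iff_of_norm_eq_one hn1 (by rw [norm_neg]; exact hnk)).1 h4
      exact absurd (by rw [this, neg_neg]) h2
  set s₁ : ℝ := arccos c with hs₁
  have hs0 : 0 < s₁ := arccos_pos.2 hc1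
  have hsπ : s₁ < π := by
    rcases lt_or_eq_of_le (arccos_le_pi c) with hlt | heq
    · exact hlt
    · exact absurd (arccos_eq_pi.1 heq) (not_le.2 hc2)
  have hcos : cos s₁ = c := cos_arccos hc2.le hc1.le
  have hsin : 0 < sin s₁ := sin_pos_of_pos_of_lt_pi hs0 hsπ
  have hsc : sin s₁ ^ 2 + c ^ 2 = 1 := by rw [← hcos]; exact sin_sq_add_cos_sq s₁
  set η : E := (sin s₁)⁻¹ • (k - c • w₁) with hη
  have hkη : k = c • w₁ + sin s₁ • η := by
    rw [hη, smul_smul, mul_inv_cancel₀ hsin.ne', one_smul, add_sub_cancel]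
  have hwη : ⟪w₁, η⟫_ℝ = 0 := by
    rw [hη, real_inner_smul_right, inner_sub_right, real_inner_smul_right, real_inner_self_eq_norm_sq, hn1]
    simp [← hc]
  have hηn : ‖η‖ = 1 := by
    have h5 : ‖k - c • w₁‖ ^ 2 = sin s₁ ^ 2 := by
      rw [norm_sub_sq_real, norm_smul, real_inner_smul_right, real_inner_comm, ← hc, hnk, hn1, norm_eq_abs, mul_one,
        sq_abs]
      nlinarith
    rw [hη, norm_smul, norm_inv, norm_eq_abs, abs_of_pos hsin]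
    have h6 : ‖k - c • w₁‖ = sin s₁ := by
      have := (sq_eq_sq₀ (norm_nonneg _) hsin.le).1 h5
      exact this
    rw [h6, inv_mul_cancel₀ hsin.ne']
  refine ⟨η, hηn, hwη, s₁, ⟨hs0, hsπ⟩, by rw [hcos]; exact hkη, fun s hs => ?_⟩
  have hnorm : ‖cos s • w₁ + sin s • η‖ = 1 := by
    have : ‖cos s • w₁ + sin s • η‖ ^ 2 = 1 := by
      rw [norm_add_sq_real, norm_smul, norm_smul, real_inner_smul_left, real_inner_smul_right, hwη, hn1, hηn,
        norm_eq_abs, norm_eq_abs, mul_one, mul_one, sq_abs, sq_abs]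
      nlinarith [sin_sq_add_cos_sq s]
    nlinarith [norm_nonneg (cos s • w₁ + sin s • η)]
  refine mem_of_bipolar h hΛ hnorm fun x hx => ?_
  have ha : 0 ≤ sin (s₁ - s) / sin s₁ := div_nonneg
    (sin_nonneg_of_nonneg_of_le_pi (by linarith [hs.2]) (by linarith [hs.1])) hsin.le
  have hb : 0 ≤ sin s / sin s₁ := div_nonneg
    (sin_nonneg_of_nonneg_of_le_pi hs.1 (by linarith [hs.2])) hsin.le
  have heq : cos s • w₁ + sin s • η = (sin (s₁ - s) / sin s₁) • w₁ + (sin s / sin s₁) • k := by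
    have h7 : (sin s / sin s₁) • k = (sin s / sin s₁ * c) • w₁ + sin s • η := by
      conv_lhs => rw [hkη]
      rw [smul_add, smul_smul, smul_smul, div_mul_cancel₀ _ hsin.ne']
    rw [h7, ← add_assoc, ← add_smul]
    have h8 : sin (s₁ - s) / sin s₁ + sin s / sin s₁ * c = cos s := by
      rw [sin_sub, ← hcos]
      field_simp
      ring
    rw [h8]
  rw [heq, inner_add_right, real_inner_smul_right, real_inner_smul_right]
  have h9 := mul_nonpos_of_nonneg_of_nonpos ha (hx w₁ hw₁)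
  have h10 := mul_nonpos_of_nonneg_of_nonpos hb (hx k hk)
  linarith

/-- (4) Conclusion: `Λ = -Λ` if the following holds: for `w₁, -w₁, k ∈ Λ` joined by an arc in `Λ` with the initial
direction `η`, all unit vectors `e` of the polar cone satisfy `0 ≤ ⟪e, η⟫`. -/
theorem neg_mem_of_arc (h : ConeCond Λ) (hΛ : ∀ w ∈ Λ, ‖w‖ = 1) (hc : IsCompact Λ)
    (harc : ∀ w₁ η : E, w₁ ∈ Λ → -w₁ ∈ Λ → ‖η‖ = 1 → ⟪w₁, η⟫_ℝ = 0 → ∀ s₁ ∈ Set.Ioo 0 π,
      (∀ s ∈ Set.Icc 0 s₁, cos s • w₁ + sin s • η ∈ Λ) → ∀ e ∈ Polar Λ, ‖e‖ = 1 → 0 ≤ ⟪e, η⟫_ℝ)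
    {k : E} (hk : k ∈ Λ) : -k ∈ Λ := by
  obtain ⟨w₁, hw₁, hw₁'⟩ := exists_antipodal h hΛ hc ⟨k, hk⟩
  by_cases h1 : k = w₁
  · rw [h1]; exact hw₁'
  by_cases h2 : k = -w₁
  · rw [h2, neg_neg]; exact hw₁
  obtain ⟨η, hη, hwη, s₁, hs₁, hkη, hmem⟩ := exists_arc h hΛ hw₁ hk h1 h2
  refine neg_mem h hΛ hk fun x hx hxn => ?_
  have h3 : ⟪x, w₁⟫_ℝ = 0 := by
    have h4 := hx w₁ hw₁
    have h5 := hx (-w₁) hw₁'
    rw [inner_neg_right] at h5
    linarith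
  rw [hkη, inner_add_right, real_inner_smul_right, real_inner_smul_right, h3, mul_zero, zero_add]
  exact mul_nonneg (sin_pos_of_pos_of_lt_pi hs₁.1 hs₁.2).le (harc w₁ η hw₁ hw₁' hη hwη s₁ hs₁ hmem x hx hxn)

end MPbl
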