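import Pool.Agent.Lib.MP_ccbbf6_gt.ML

/-!
# Riemannian manifolds with Inj = diam: the definitions used in the statement

`M` is a compact Riemannian manifold with its distance.
-/

set_option autoImplicit false

namespace Blaschke

open MeasureTheory
open scoped Real

/-- The cut locus of `p`: the points `q ≠ p` beyond which no minimal segment from `p` to `q` can be continued as a minimal
segment. (Such a continuation to a point `r ≠ q` exists if and only if `dist p r = dist p q + dist q r`.) -/
def Cut {M : Type*} [MetricSpace M] (p : M) : Set M :=
  {q | q ≠ p ∧ ∀ r, dist p r = dist p q + dist q r → r = q}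

/-- The injectivity radius: the infimum of the distances from points `p` to their cut loci. -/
noncomputable def Inj (M : Type*) [MetricSpace M] : ℝ := ⨅ p : M, Metric.infDist p (Cut p)

/-- The union of the minimal segments from `p` to `q`. -/
def Segments {M : Type*} [MetricSpace M] (p q : M) : Set M := {x | dist p x + dist x q = dist p q}

/-- The unit sphere of dimension `d` in `ℝ^(d+1)`. -/
abbrev UnitSphere (d : ℕ) : Type := Metric.sphere (0 : EuclideanSpace ℝ (Fin (d + 1))) 1

/-- The volume of the model space of dimension `n` with diameter `π` and spheres of dimension `κ + 1`: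
`vol(S^(n-1)) ∫_0^π sin^κ t (2 sin (t/2))^(n-1-κ) dt`, where `vol(S^(n-1)) = n vol(B^n)`. -/
noncomputable def modelVolume (n κ : ℕ) : ENNReal :=
  n * volume (Metric.ball (0 : EuclideanSpace ℝ (Fin n)) 1) *
    ENNReal.ofReal (∫ t in (0 : ℝ)..π, Real.sin t ^ κ * (2 * Real.sin (t / 2)) ^ (n - 1 - κ))

/-- `M` is a Riemannian symmetric space: at every point `p` there is an isometric involution `s` with `s p = p` which
reverses the geodesics through `p` (`p` is the midpoint of a minimal segment from `x` to `s x` if `dist p x ≤ π / 2`). -/
def Symmetric (M : Type*) [MetricSpace M] : Prop :=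
  ∀ p : M, ∃ s : M ≃ᵢ M, s p = p ∧ (∀ x, s (s x) = x) ∧ ∀ x, dist p x ≤ π / 2 → dist x (s x) = 2 * dist p x

end Blaschke
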