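import Pool.Agent.Lib.MP_ccbbf6_gt.LitDefs

/-!
# From `Inj = diam = π` to the metric conditions (D), (E)
-/

set_option autoImplicit false

namespace Blaschke

open Set Metric
open scoped Real

variable {M : Type*} [MetricSpace M]

theorem infDist_le_of_mem_cut {p q : M} (h : q ∈ Cut p) : Inj M ≤ dist p q := by
  have h1 : BddBelow (range fun p : M => infDist p (Cut p)) := ⟨0, by
    rintro _ ⟨p, rfl⟩
    exact infDist_nonneg⟩
  exact (ciInf_le h1 p).trans (infDist_le_dist_of_mem h)

variable [CompactSpace M]

/-- (D) -/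
theorem dist_le_of_diam (hπ : diam (univ : Set M) = π) (p q : M) : dist p q ≤ π := by
  rw [← hπ]
  exact dist_le_diam_of_mem isCompact_univ.isBounded (mem_univ p) (mem_univ q)

/-- Every minimal segment extends to one which ends in the cut locus. -/
theorem exists_mem_cut {p q : M} (hpq : p ≠ q) : ∃ r ∈ Cut p, dist p r = dist p q + dist q r := by
  have hK : IsCompact {r : M | dist p r = dist p q + dist q r} :=
    (isClosed_eq (by fun_prop) (by fun_prop)).isCompact
  have hne : ({r : M | dist p r = dist p q + dist q r}).Nonempty := ⟨q, by simp⟩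
  obtain ⟨r, hr, hmax⟩ := hK.exists_isMaxOn hne (f := fun r => dist p r) (by fun_prop)
  have hr' : dist p r = dist p q + dist q r := hr
  refine ⟨r, ⟨?_, fun s hs => ?_⟩, hr'⟩
  · rintro rfl
    have h1 := dist_pos.2 hpq
    have h2 : dist q r = dist r q := dist_comm _ _
    rw [dist_self] at hr'
    have h3 : 0 ≤ dist q r := dist_nonneg
    linarith
  · have h1 : dist q s ≤ dist q r + dist r s := dist_triangle _ _ _
    have h2 : dist p s ≤ dist p q + dist q s := dist_triangle _ _ _
    have h3 : dist p s = dist p q + dist q s := by linarith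
    have h4 : dist p s ≤ dist p r := hmax h3
    have h5 : dist r s ≤ 0 := by linarith
    exact (dist_le_zero.1 h5).symm

/-- (E) -/
theorem exists_of_inj (h : Inj M = diam (univ : Set M)) (hπ : diam (univ : Set M) = π) {p q : M} (hpq : p ≠ q) :
    ∃ r, dist p r = π ∧ dist p q + dist q r = π := by
  obtain ⟨r, hr, hpr⟩ := exists_mem_cut hpq
  have h1 : π ≤ dist p r := by
    rw [← hπ, ← h]
    exact infDist_le_of_mem_cut hr
  have h2 := dist_le_of_diam hπ p r
  have h3 : dist p r = π := le_antisymm h2 h1
  exact ⟨r, h3, by rw [← hpr, h3]⟩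

end Blaschke
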