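import Pool.Agent.Lib.MP_ccbbf6_gt.Geo.Ifc
import Pool.Agent.Lib.MP_ccbbf6_gt.LitA

/-!
# FIN1: the distance multiplied by a positive constant (helper93)
-/

set_option autoImplicit false
set_option linter.unusedSectionVars false

open Set Filter Topology Metric Real
open scoped ContDiff Uniformity

noncomputable section

namespace Pool.Agent.Lib.MP_ccbbf6_gt.FIN

open Geo

/-- the distance multiplied by `c` (same topology) -/
@[reducible] def scaleM (c : ℝ) (hc : 0 < c) {M : Type*} (m : MetricSpace M) : MetricSpace M where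
  dist x y := c * dist x y
  dist_self x := by rw [dist_self, mul_zero]
  dist_comm x y := by rw [dist_comm]
  dist_triangle x y z := by
    rw [← mul_add]
    exact mul_le_mul_of_nonneg_left (dist_triangle x y z) hc.le
  edist x y := ENNReal.ofReal (c * dist x y)
  edist_dist x y := rfl
  toUniformSpace := m.toUniformSpace
  uniformity_dist := by
    have h : (𝓤 M).HasBasis (fun ε : ℝ => 0 < ε) fun ε => {p : M × M | c * dist p.1 p.2 < ε} := by
      refine Metric.uniformity_basis_dist.to_hasBasis (fun ε hε => ⟨c * ε, mul_pos hc hε, fun p hp => ?_⟩)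
        (fun ε hε => ⟨ε / c, div_pos hε hc, fun p hp => ?_⟩)
      · exact lt_of_mul_lt_mul_left hp hc.le
      · have hp' : dist p.1 p.2 < ε / c := hp
        have h1 := mul_lt_mul_of_pos_left hp' hc
        rwa [mul_div_cancel₀ _ hc.ne'] at h1
    exact h.eq_biInf
  toBornology := m.toBornology
  cobounded_sets := by
    rw [m.cobounded_sets]
    ext s
    constructor
    · rintro ⟨C, hC⟩
      exact ⟨c * C, fun x hx y hy => mul_le_mul_of_nonneg_left (hC x hx y hy) hc.le⟩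
    · rintro ⟨C, hC⟩
      refine ⟨C / c, fun x hx y hy => ?_⟩
      rw [le_div_iff₀ hc, mul_comm]
      exact hC x hx y hy
  eq_of_dist_eq_zero {x y} h := by
    have h1 : c * dist x y = 0 := h
    exact dist_eq_zero.1 ((mul_eq_zero.1 h1).resolve_left hc.ne')

variable {n : ℕ} {M : Type*}

/-- the scaled charts -/
def scaleS [m : MetricSpace M] (𝒜 : SDist n M) (c : ℝ) (hc : 0 < c) : @SDist n M (scaleM c hc m) :=
  @SDist.mk n M (scaleM c hc m) (fun p => (𝒜.ψ p).transHomeomorph (Homeomorph.smulOfNeZero c hc.ne'))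
    (fun p => 𝒜.mem p)
    (fun p => by
      show c • 𝒜.ψ p p = 0
      rw [𝒜.zero, smul_zero])
    (fun p q x hx hx' => by
      show ContDiffAt ℝ ∞ (fun u : Eu n => c • 𝒜.ψ q ((𝒜.ψ p).symm (c⁻¹ • u))) (c • 𝒜.ψ p x)
      have h1 : ContDiffAt ℝ ∞ (fun u => 𝒜.ψ q ((𝒜.ψ p).symm u)) (c⁻¹ • (c • 𝒜.ψ p x)) := by
        rw [smul_smul, inv_mul_cancel₀ hc.ne', one_smul]
        exact 𝒜.trans p q x hx hx'
      have h2 : ContDiffAt ℝ ∞ (fun u : Eu n => c⁻¹ • u) (c • 𝒜.ψ p x) := by fun_prop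
      have h3 := ContDiffAt.comp (g := fun u => 𝒜.ψ q ((𝒜.ψ p).symm u)) (f := fun u : Eu n => c⁻¹ • u)
        (c • 𝒜.ψ p x) h1 h2
      simp only [Function.comp_def] at h3
      have h4 : ContDiffAt ℝ ∞ (fun _ : Eu n => c) (c • 𝒜.ψ p x) := contDiffAt_const
      exact h4.smul h3)
    (fun p => by
      have h0 : Tendsto (fun z : Eu n × Eu n => (c⁻¹ • z.1, c⁻¹ • z.2)) (𝓝 (0, 0)) (𝓝 (0, 0)) := by
        have h1 : Continuous fun z : Eu n × Eu n => (c⁻¹ • z.1, c⁻¹ • z.2) := by fun_prop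
        have h2 := h1.tendsto (0, 0)
        simpa using h2
      filter_upwards [h0.eventually (𝒜.sq p)] with z hz
      show ContDiffAt ℝ ∞ (fun z : Eu n × Eu n => (c * dist ((𝒜.ψ p).symm (c⁻¹ • z.1)) ((𝒜.ψ p).symm (c⁻¹ • z.2))) ^ 2) z
      simp only [mul_pow]
      refine contDiffAt_const.mul ?_
      exact ContDiffAt.comp (g := fun z : Eu n × Eu n => dist ((𝒜.ψ p).symm z.1) ((𝒜.ψ p).symm z.2) ^ 2)
        (f := fun z : Eu n × Eu n => (c⁻¹ • z.1, c⁻¹ • z.2)) z hz (by fun_prop))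
    (fun p ε hε => by
      have h0 : Tendsto (fun z : Eu n × Eu n => (c⁻¹ • z.1, c⁻¹ • z.2)) (𝓝 (0, 0)) (𝓝 (0, 0)) := by
        have h1 : Continuous fun z : Eu n × Eu n => (c⁻¹ • z.1, c⁻¹ • z.2) := by fun_prop
        have h2 := h1.tendsto (0, 0)
        simpa using h2
      filter_upwards [h0.eventually (𝒜.metric p ε hε)] with z hz
      show |c * dist ((𝒜.ψ p).symm (c⁻¹ • z.1)) ((𝒜.ψ p).symm (c⁻¹ • z.2)) - ‖z.1 - z.2‖| ≤ ε * ‖z.1 - z.2‖
      have h2 : ‖c⁻¹ • z.1 - c⁻¹ • z.2‖ = c⁻¹ * ‖z.1 - z.2‖ := by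
        rw [← smul_sub, norm_smul, Real.norm_eq_abs, abs_of_pos (inv_pos.2 hc)]
      have hz' : |dist ((𝒜.ψ p).symm (c⁻¹ • z.1)) ((𝒜.ψ p).symm (c⁻¹ • z.2)) - ‖c⁻¹ • z.1 - c⁻¹ • z.2‖| ≤
        ε * ‖c⁻¹ • z.1 - c⁻¹ • z.2‖ := hz
      rw [h2] at hz'
      have h3 := mul_le_mul_of_nonneg_left hz' hc.le
      rw [← abs_of_pos hc, ← abs_mul, abs_of_pos hc] at h3
      have h4 : c * (dist ((𝒜.ψ p).symm (c⁻¹ • z.1)) ((𝒜.ψ p).symm (c⁻¹ • z.2)) - c⁻¹ * ‖z.1 - z.2‖) =
        c * dist ((𝒜.ψ p).symm (c⁻¹ • z.1)) ((𝒜.ψ p).symm (c⁻¹ • z.2)) - ‖z.1 - z.2‖ := by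
        field_simp
      have h5 : c * (ε * (c⁻¹ * ‖z.1 - z.2‖)) = ε * ‖z.1 - z.2‖ := by field_simp
      rwa [h4, h5] at h3)
    (fun p q r h0 h1 => by
      have h1' : r ≤ c * dist p q := h1
      obtain ⟨x, hx1, hx2⟩ := 𝒜.btw p q (r / c) (div_nonneg h0 hc.le) (by rwa [div_le_iff₀ hc, mul_comm])
      refine ⟨x, ?_, ?_⟩
      · show c * dist p x = r
        rw [hx1, mul_div_cancel₀ _ hc.ne']
      · show c * dist x q = c * dist p q - r
        rw [hx2, mul_sub, mul_div_cancel₀ _ hc.ne'])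

/-- (E) for every value of the diameter -/
theorem exists_of_inj' [MetricSpace M] [CompactSpace M] (h : Blaschke.Inj M = diam (univ : Set M)) {p q : M} (hpq : p ≠ q) :
    ∃ r, dist p r = diam (univ : Set M) ∧ dist p q + dist q r = diam (univ : Set M) := by
  obtain ⟨r, hr, hpr⟩ := Blaschke.exists_mem_cut hpq
  have h1 : diam (univ : Set M) ≤ dist p r := by
    rw [← h]
    exact Blaschke.infDist_le_of_mem_cut hr
  have h2 : dist p r ≤ diam (univ : Set M) := dist_le_diam_of_mem isCompact_univ.isBounded (mem_univ p) (mem_univ r)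
  have h3 : dist p r = diam (univ : Set M) := le_antisymm h2 h1
  exact ⟨r, h3, by rw [← hpr, h3]⟩

/-- **rescaling** -/
theorem bl_scale [m : MetricSpace M] [CompactSpace M] (h : Blaschke.Inj M = diam (univ : Set M))
    (hd : 0 < diam (univ : Set M)) : @Bl M (scaleM (π / diam (univ : Set M)) (div_pos Real.pi_pos hd) m) := by
  refine @Bl.mk M (scaleM (π / diam (univ : Set M)) (div_pos Real.pi_pos hd) m) (fun p q => ?_) (fun p q hpq => ?_)
  · show π / diam (univ : Set M) * dist p q ≤ π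
    have h1 : dist p q ≤ diam (univ : Set M) := dist_le_diam_of_mem isCompact_univ.isBounded (mem_univ p) (mem_univ q)
    calc π / diam (univ : Set M) * dist p q ≤ π / diam (univ : Set M) * diam (univ : Set M) :=
          mul_le_mul_of_nonneg_left h1 (by positivity)
      _ = π := div_mul_cancel₀ _ hd.ne'
  · obtain ⟨r, h1, h2⟩ := exists_of_inj' h hpq
    refine ⟨r, ?_, ?_⟩
    · show π / diam (univ : Set M) * dist p r = π
      rw [h1, div_mul_cancel₀ _ hd.ne']
    · show π / diam (univ : Set M) * dist p q + π / diam (univ : Set M) * dist q r = π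
      rw [← mul_add, h2, div_mul_cancel₀ _ hd.ne']

end Pool.Agent.Lib.MP_ccbbf6_gt.FIN
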