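import Pool.Agent.Lib.MP_ccbbf6_gt.Cls.Mod
import Pool.Agent.Lib.MP_ccbbf6_gt.Geo.CZa

/-!
# FIN2: dimension one (helper93)
-/

set_option autoImplicit false
set_option linter.unusedSectionVars false

open Set Filter Topology Metric Real
open scoped ContDiff RealInnerProductSpace

noncomputable section

namespace Pool.Agent.Lib.MP_ccbbf6_gt.FIN

open Geo

variable {M : Type*} [MetricSpace M] [CompactSpace M]

theorem cos_dist_geo {n : ℕ} (𝒜 : SDist n M) (hB : Bl M) {c : ℝ → M} (hc : IsGeo c) (s t : ℝ) :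
    Real.cos (dist (c s) (c t)) = Real.cos (s - t) := by
  have hper : Function.Periodic c (2 * π) := fun x => hc.closed 𝒜 hB x
  obtain ⟨k, hk⟩ : ∃ k : ℤ, |s - t - k * (2 * π)| ≤ π := by
    have h2 : (0 : ℝ) < 2 * π := by positivity
    refine ⟨round ((s - t) / (2 * π)), ?_⟩
    have h3 := abs_sub_round ((s - t) / (2 * π))
    have h4 : s - t - (round ((s - t) / (2 * π)) : ℝ) * (2 * π) =
        ((s - t) / (2 * π) - round ((s - t) / (2 * π))) * (2 * π) := by
      field_simp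
    rw [h4, abs_mul, abs_of_pos h2]
    calc |(s - t) / (2 * π) - round ((s - t) / (2 * π))| * (2 * π) ≤ 1 / 2 * (2 * π) :=
          mul_le_mul_of_nonneg_right h3 h2.le
      _ = π := by ring
  have h1 : c (s - k * (2 * π)) = c s := hper.sub_int_mul_eq k
  have h2 : |s - k * (2 * π) - t| ≤ π := by
    rw [show s - k * (2 * π) - t = s - t - k * (2 * π) by ring]
    exact hk
  rw [← h1, hc _ _ h2, Real.cos_abs, show s - k * (2 * π) - t = s - t - k * (2 * π) by ring]
  exact Real.cos_sub_int_mul_two_pi (s - t) k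

/-- unit vectors of the plane -/
theorem exists_angle (x : EuclideanSpace ℝ (Fin 2)) (hx : ‖x‖ = 1) : ∃ t : ℝ, x 0 = Real.cos t ∧ x 1 = Real.sin t := by
  have h1 : x 0 ^ 2 + x 1 ^ 2 = 1 := by
    have h2 := EuclideanSpace.norm_sq_eq x
    rw [hx, Fin.sum_univ_two, Real.norm_eq_abs, Real.norm_eq_abs, sq_abs, sq_abs] at h2
    linarith
  have h2 : ‖(⟨x 0, x 1⟩ : ℂ)‖ = 1 := by
    have h3 : ‖(⟨x 0, x 1⟩ : ℂ)‖ ^ 2 = 1 := by
      rw [Complex.sq_norm, Complex.normSq_apply]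
      show x 0 * x 0 + x 1 * x 1 = 1
      linarith
    have h4 := norm_nonneg (⟨x 0, x 1⟩ : ℂ)
    nlinarith
  refine ⟨Complex.arg ⟨x 0, x 1⟩, ?_, ?_⟩
  · have h3 := Complex.norm_mul_cos_arg (⟨x 0, x 1⟩ : ℂ)
    rw [h2, one_mul] at h3
    exact h3.symm
  · have h3 := Complex.norm_mul_sin_arg (⟨x 0, x 1⟩ : ℂ)
    rw [h2, one_mul] at h3
    exact h3.symm

/-- the point of the circle -/
def cp (t : ℝ) : EuclideanSpace ℝ (Fin 2) := WithLp.toLp 2 ![Real.cos t, Real.sin t]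

theorem inner_cp (s t : ℝ) : ⟪cp s, cp t⟫ = Real.cos (s - t) := by
  rw [Real.cos_sub, PiLp.inner_apply, Fin.sum_univ_two]
  simp only [cp, Real.inner_apply]
  rfl

theorem norm_cp (t : ℝ) : ‖cp t‖ = 1 := by
  have h1 : ‖cp t‖ ^ 2 = 1 := by
    rw [← real_inner_self_eq_norm_sq, inner_cp, sub_self, Real.cos_zero]
  have h2 := norm_nonneg (cp t)
  nlinarith

/-- **dimension one** -/
theorem isSphere_one [Nonempty M] (𝒜 : SDist 1 M) (hB : Bl M) : Blaschke.IsSphere 1 M := by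
  obtain ⟨p⟩ := ‹Nonempty M›
  obtain ⟨c, hc, hc0, hcv⟩ := exists_geo_vel 𝒜 hB p (v := EuclideanSpace.single (0 : Fin 1) (1 : ℝ)) (by simp)
  -- the geodesic is onto
  have hsurj : ∀ q : M, ∃ t, c t = q := by
    intro q
    by_cases hpq : p = q
    · exact ⟨0, by rw [hc0, hpq]⟩
    · obtain ⟨g, hg, hg0, hg1⟩ := exists_geo 𝒜 hB hpq
      have hgv := (IsGeo.exists_vel 𝒜 hg 0).1
      have h2 : 𝒜.vel g 0 = 𝒜.vel c 0 ∨ 𝒜.vel g 0 = -𝒜.vel c 0 := by
        obtain ⟨w, hw⟩ : ∃ w, w = 𝒜.vel g 0 := ⟨_, rfl⟩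
        rw [← hw] at hgv ⊢
        rw [hcv]
        have h3 : w 0 ^ 2 = 1 := by
          have h4 := EuclideanSpace.norm_sq_eq w
          rw [hgv, Fin.sum_univ_one, Real.norm_eq_abs, sq_abs] at h4
          linarith
        rcases (sq_eq_sq_iff_eq_or_eq_neg (a := w 0) (b := 1)).1 (by rw [h3, one_pow]) with h5 | h5
        · left
          ext i
          rw [Fin.eq_zero i, h5]
          simp
        · right
          ext i
          rw [Fin.eq_zero i, h5]
          simp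
      rcases h2 with h2 | h2
      · have h3 := IsGeo.eq_of_vel 𝒜 hg hc (s := 0) (by rw [hg0, hc0]) h2
        exact ⟨dist p q, by rw [← h3, hg1]⟩
      · have h3 : g = fun t => c (-t) := by
          refine IsGeo.eq_of_vel 𝒜 hg hc.rev (s := 0) ?_ ?_
          · rw [hg0, neg_zero, hc0]
          · rw [vel_rev 𝒜 hc, neg_zero, h2]
        refine ⟨-dist p q, ?_⟩
        rw [h3] at hg1
        exact hg1
  choose τ hτ using hsurj
  have hin : ∀ x y : M, Real.cos (dist x y) = ⟪cp (τ x), cp (τ y)⟫ := by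
    intro x y
    rw [inner_cp, ← cos_dist_geo 𝒜 hB hc, hτ, hτ]
  obtain ⟨f, hf⟩ : ∃ f : M → Metric.sphere (0 : EuclideanSpace ℝ (Fin (1 + 1))) 1,
      ∀ x, (f x : EuclideanSpace ℝ (Fin (1 + 1))) = cp (τ x) :=
    ⟨fun x => ⟨cp (τ x), by rw [mem_sphere_zero_iff_norm]; exact norm_cp _⟩, fun x => rfl⟩
  have hbij : Function.Bijective f := by
    constructor
    · intro x y hxy
      have h1 := hin x y
      have h2 : cp (τ x) = cp (τ y) := by rw [← hf, ← hf, hxy]
      rw [h2, real_inner_self_eq_norm_sq, norm_cp, one_pow] at h1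
      have h3 := Real.injOn_cos ⟨dist_nonneg, hB.diam x y⟩ ⟨le_refl 0, Real.pi_pos.le⟩ (by rw [h1, Real.cos_zero])
      exact dist_eq_zero.1 h3
    · intro z
      have hz : ‖(z : EuclideanSpace ℝ (Fin 2))‖ = 1 := by
        have := z.2
        rwa [mem_sphere_zero_iff_norm] at this
      obtain ⟨t, h1, h2⟩ := exists_angle _ hz
      have hzt : (z : EuclideanSpace ℝ (Fin 2)) = cp t := by
        ext i
        fin_cases i
        · exact h1
        · exact h2
      refine ⟨c t, Subtype.ext ?_⟩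
      rw [hf, hzt]
      have h3 : ⟪cp (τ (c t)), cp t⟫ = 1 := by
        rw [inner_cp, ← cos_dist_geo 𝒜 hB hc, hτ, dist_self, Real.cos_zero]
      exact (inner_eq_one_iff_of_norm_eq_one (norm_cp _) (norm_cp _)).1 h3
  refine ⟨Equiv.ofBijective f hbij, fun x y => ⟨hB.diam x y, ?_⟩⟩
  rw [hin]
  show _ = ⟪(f x : EuclideanSpace ℝ (Fin (1 + 1))), (f y : EuclideanSpace ℝ (Fin (1 + 1)))⟫
  rw [hf, hf]

end Pool.Agent.Lib.MP_ccbbf6_gt.FIN
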