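import Pool.Agent.Lib.MP_ccbbf6_gt.Cls.Mod

/-!
# The spaces in the classification theorem
-/

set_option autoImplicit false

namespace Blaschke

open scoped Quaternion LinearAlgebra.Projectivization RealInnerProductSpace

/-- `M` is isometric to the set `N` with the distance function `D`, after its distance is multiplied by a positive constant. -/
def Homothetic (M : Type*) [MetricSpace M] {N : Type*} (D : N → N → ℝ) : Prop :=
  ∃ c : ℝ, 0 < c ∧ ∃ f : M ≃ N, ∀ x y : M, c * dist x y = D (f x) (f y)

/-- The distance of the round unit sphere `S^n` in `ℝ^(n+1)`: the angle between `x` and `y`. -/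
noncomputable def sphereDist (n : ℕ) (x y : Metric.sphere (0 : EuclideanSpace ℝ (Fin (n + 1))) 1) : ℝ :=
  Real.arccos ⟪(x : EuclideanSpace ℝ (Fin (n + 1))), y⟫

/-- The standard distance of the projective space `KP^m`, `K = ℝ, ℂ, ℍ` (of diameter `π`): twice the angle between the lines
`x = [u]` and `y = [v]`, `2 arccos (|∑ u_i v_i^*| / (|u| |v|))`. -/
noncomputable def projDist (K : Type*) [NormedDivisionRing K] [StarRing K] (m : ℕ) (x y : ℙ K (Fin (m + 1) → K)) : ℝ :=
  2 * Real.arccos (‖∑ i, x.rep i * star (y.rep i)‖ / (√(∑ i, ‖x.rep i‖ ^ 2) * √(∑ i, ‖y.rep i‖ ^ 2)))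

/-- The standard distance of the Cayley plane (of diameter `π`), the set of the idempotents `X` of trace `1` in the Albert
algebra of the hermitian `3 × 3` matrices over the octonions: `arccos (2 tr (X ∘ Y) - 1)`, `tr (X ∘ Y) = ∑ ⟨X_ij, Y_ij⟩`. -/
noncomputable def cayleyDist (X Y : CayleyPlane) : ℝ := Real.arccos (2 * (∑ i, ∑ j, ⟪X.1 i j, Y.1 i j⟫) - 1)

end Blaschke
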