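import Pool.Agent.Lib.MP_ccbbf6_gt.ML

/-!
Minimal segments in a compact Riemannian manifold, from `IsRiemannianManifold` and compactness.
-/

open MeasureTheory Set Filter Topology Manifold ContDiff Module Bundle
open scoped ENNReal NNReal

namespace MPbl

section metric

variable {M : Type*} [MetricSpace M]

/-- Metric betweenness. -/
def Between (M : Type*) [MetricSpace M] : Prop :=
  ∀ (p q : M) (r : ℝ), 0 ≤ r → r ≤ dist p q → ∃ x, dist p x = r ∧ dist x q = dist p q - r

/-- `c` is a minimal segment on `[a, b]`. -/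
def IsSeg (c : ℝ → M) (a b : ℝ) : Prop := ∀ s ∈ Icc a b, ∀ t ∈ Icc a b, dist (c s) (c t) = |s - t|

lemma IsSeg.mono {c : ℝ → M} {a b a' b' : ℝ} (h : IsSeg c a b) (h1 : a ≤ a') (h2 : b' ≤ b) :
    IsSeg c a' b' := fun s hs t ht =>
  h s ⟨h1.trans hs.1, hs.2.trans h2⟩ t ⟨h1.trans ht.1, ht.2.trans h2⟩

/-- A concatenation of segments is a segment if the end points have the right distance. -/
lemma IsSeg.concat {c : ℝ → M} {a b e : ℝ} (hab : a ≤ b) (hbe : b ≤ e) (h1 : IsSeg c a b)
    (h2 : IsSeg c b e) (h : dist (c a) (c e) = e - a) : IsSeg c a e := by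
  have key : ∀ s ∈ Icc a b, ∀ t ∈ Icc b e, dist (c s) (c t) = t - s := by
    intro s hs t ht
    have e1 : dist (c s) (c b) = b - s := by
      rw [h1 s hs b (right_mem_Icc.2 hab), abs_sub_comm, abs_of_nonneg (by linarith [hs.2])]
    have e2 : dist (c b) (c t) = t - b := by
      rw [h2 b (left_mem_Icc.2 hbe) t ht, abs_sub_comm, abs_of_nonneg (by linarith [ht.1])]
    have e3 : dist (c a) (c s) = s - a := by
      rw [h1 a (left_mem_Icc.2 hab) s hs, abs_sub_comm, abs_of_nonneg (by linarith [hs.1])]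
    have e4 : dist (c t) (c e) = e - t := by
      rw [h2 t ht e (right_mem_Icc.2 hbe), abs_sub_comm, abs_of_nonneg (by linarith [ht.2])]
    have u1 := dist_triangle (c s) (c b) (c t)
    have u2 := dist_triangle4 (c a) (c s) (c t) (c e)
    linarith
  intro s hs t ht
  rcases le_total s b with hs' | hs' <;> rcases le_total t b with ht' | ht'
  · exact h1 s ⟨hs.1, hs'⟩ t ⟨ht.1, ht'⟩
  · rw [key s ⟨hs.1, hs'⟩ t ⟨ht', ht.2⟩, abs_sub_comm, abs_of_nonneg (by linarith)]
  · rw [dist_comm, key t ⟨ht.1, ht'⟩ s ⟨hs', hs.2⟩, abs_of_nonneg (by linarith)]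
  · exact h2 s ⟨hs', hs.2⟩ t ⟨ht', ht.2⟩

/-- Finite version. -/
lemma exists_fin_seg (hB : Between M) (p q : M) (F : Finset ℝ) :
    ∃ c : ℝ → M, c 0 = p ∧ c (dist p q) = q ∧
      ∀ s ∈ F, ∀ t ∈ F, s ∈ Icc 0 (dist p q) → t ∈ Icc 0 (dist p q) →
        dist (c s) (c t) = |s - t| := by
  classical
  set d := dist p q with hd
  have hd0 : 0 ≤ d := dist_nonneg
  -- strengthen: the finite set contains 0 and d and lies in [0,d]
  suffices H : ∀ F : Finset ℝ, (∀ s ∈ F, s ∈ Icc 0 d) → 0 ∈ F → d ∈ F →
      ∃ c : ℝ → M, c 0 = p ∧ c d = q ∧ ∀ s ∈ F, ∀ t ∈ F, dist (c s) (c t) = |s - t| by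
    obtain ⟨c, h0, h1, h2⟩ := H (insert 0 (insert d (F.filter (fun s => s ∈ Icc 0 d)))) (by
      intro s hs
      rw [Finset.mem_insert, Finset.mem_insert, Finset.mem_filter] at hs
      rcases hs with rfl | rfl | hs
      · exact left_mem_Icc.2 hd0
      · exact right_mem_Icc.2 hd0
      · exact hs.2) (Finset.mem_insert_self _ _)
      (Finset.mem_insert_of_mem (Finset.mem_insert_self _ _))
    refine ⟨c, h0, h1, fun s hs t ht hs' ht' => ?_⟩
    exact h2 s (Finset.mem_insert_of_mem (Finset.mem_insert_of_mem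
      (Finset.mem_filter.2 ⟨hs, hs'⟩))) t (Finset.mem_insert_of_mem (Finset.mem_insert_of_mem
      (Finset.mem_filter.2 ⟨ht, ht'⟩)))
  -- induction on the set of additional points
  suffices H : ∀ G : Finset ℝ, (∀ s ∈ G, s ∈ Icc 0 d) →
      ∃ c : ℝ → M, c 0 = p ∧ c d = q ∧ ∀ s ∈ insert 0 (insert d G), ∀ t ∈ insert 0 (insert d G),
        dist (c s) (c t) = |s - t| by
    intro F hF h0 h1
    obtain ⟨c, e0, e1, e2⟩ := H F hF
    rw [Finset.insert_eq_of_mem h1, Finset.insert_eq_of_mem h0] at e2
    exact ⟨c, e0, e1, e2⟩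
  intro G
  induction G using Finset.induction_on with
  | empty =>
    intro _
    by_cases hpq : d = 0
    · have hpq' : p = q := dist_eq_zero.1 (hd ▸ hpq)
      refine ⟨fun _ => p, rfl, hpq', ?_⟩
      intro s hs t ht
      have hs0 : s = 0 := by
        rw [hpq] at hs; simpa using hs
      have ht0 : t = 0 := by
        rw [hpq] at ht; simpa using ht
      rw [hs0, ht0]; simp
    · refine ⟨fun t => if t = 0 then p else q, by simp, by simp [hpq], ?_⟩
      intro s hs t ht
      have hs0 : s = 0 ∨ s = d := by simpa using hs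
      have ht0 : t = 0 ∨ t = d := by simpa using ht
      rcases hs0 with rfl | rfl <;> rcases ht0 with rfl | rfl
      · simp
      · simp only [if_true, hpq, if_false, zero_sub, abs_neg]
        rw [abs_of_nonneg hd0]
      · simp only [if_true, hpq, if_false, sub_zero]
        rw [abs_of_nonneg hd0, dist_comm]
      · simp
  | insert u G hu ih =>
    intro hG
    obtain ⟨c, e0, e1, e2⟩ := ih (fun s hs => hG s (Finset.mem_insert_of_mem hs))
    set F := insert 0 (insert d G) with hF
    have hFI : ∀ s ∈ F, s ∈ Icc 0 d := by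
      intro s hs
      rw [hF, Finset.mem_insert, Finset.mem_insert] at hs
      rcases hs with rfl | rfl | hs
      · exact left_mem_Icc.2 hd0
      · exact right_mem_Icc.2 hd0
      · exact hG s (Finset.mem_insert_of_mem hs)
    have huI : u ∈ Icc 0 d := hG u (Finset.mem_insert_self _ _)
    have hFu : insert 0 (insert d (insert u G)) = insert u F := by
      rw [hF]
      ext x
      simp only [Finset.mem_insert]
      tauto
    rw [hFu]
    by_cases huF : u ∈ F
    · rw [Finset.insert_eq_of_mem huF]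
      exact ⟨c, e0, e1, e2⟩
    · have h0F : (0 : ℝ) ∈ F := Finset.mem_insert_self _ _
      have hdF : d ∈ F := Finset.mem_insert_of_mem (Finset.mem_insert_self _ _)
      have hne1 : (F.filter (fun s => s ≤ u)).Nonempty := ⟨0, Finset.mem_filter.2 ⟨h0F, huI.1⟩⟩
      have hne2 : (F.filter (fun s => u ≤ s)).Nonempty := ⟨d, Finset.mem_filter.2 ⟨hdF, huI.2⟩⟩
      set a := (F.filter (fun s => s ≤ u)).max' hne1 with ha
      set b := (F.filter (fun s => u ≤ s)).min' hne2 with hb
      have haF : a ∈ F ∧ a ≤ u := Finset.mem_filter.1 (Finset.max'_mem _ hne1)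
      have hbF : b ∈ F ∧ u ≤ b := Finset.mem_filter.1 (Finset.min'_mem _ hne2)
      have hamax : ∀ s ∈ F, s ≤ u → s ≤ a := fun s hs hsu =>
        Finset.le_max' _ _ (Finset.mem_filter.2 ⟨hs, hsu⟩)
      have hbmin : ∀ s ∈ F, u ≤ s → b ≤ s := fun s hs hsu =>
        Finset.min'_le _ _ (Finset.mem_filter.2 ⟨hs, hsu⟩)
      have hab : dist (c a) (c b) = b - a := by
        rw [e2 a haF.1 b hbF.1, abs_sub_comm, abs_of_nonneg (by linarith [haF.2, hbF.2])]
      obtain ⟨x, hx1, hx2⟩ := hB (c a) (c b) (u - a) (by linarith [haF.2])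
        (by rw [hab]; linarith [hbF.2])
      rw [hab] at hx2
      have hxs : ∀ s ∈ F, dist (c s) x = |s - u| := by
        intro s hs
        rcases le_total s u with hsu | hsu
        · have hsa := hamax s hs hsu
          have k1 : dist (c s) (c a) = a - s := by
            rw [e2 s hs a haF.1, abs_sub_comm, abs_of_nonneg (by linarith)]
          have k2 : dist (c s) (c b) = b - s := by
            rw [e2 s hs b hbF.1, abs_sub_comm, abs_of_nonneg (by linarith [hbF.2])]
          have k3 := dist_triangle (c s) (c a) x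
          have k4 := dist_triangle (c s) x (c b)
          rw [abs_sub_comm, abs_of_nonneg (by linarith)]
          linarith
        · have hsb := hbmin s hs hsu
          have k1 : dist (c b) (c s) = s - b := by
            rw [e2 b hbF.1 s hs, abs_sub_comm, abs_of_nonneg (by linarith)]
          have k2 : dist (c a) (c s) = s - a := by
            rw [e2 a haF.1 s hs, abs_sub_comm, abs_of_nonneg (by linarith [haF.2])]
          have k3 := dist_triangle x (c b) (c s)
          have k4 := dist_triangle (c a) x (c s)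
          rw [abs_of_nonneg (by linarith), dist_comm]
          linarith
      have hu0 : (0 : ℝ) ≠ u := fun h => huF (h ▸ h0F)
      have hud : d ≠ u := fun h => huF (h ▸ hdF)
      refine ⟨Function.update c u x, ?_, ?_, ?_⟩
      · rw [Function.update_of_ne hu0, e0]
      · rw [Function.update_of_ne hud, e1]
      · intro s hs t ht
        rw [Finset.mem_insert] at hs ht
        rcases hs with rfl | hs <;> rcases ht with rfl | ht
        · simp
        · have htu : t ≠ s := fun h => huF (h ▸ ht)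
          rw [Function.update_self, Function.update_of_ne htu, dist_comm, hxs t ht, abs_sub_comm]
        · have hsu : s ≠ t := fun h => huF (h ▸ hs)
          rw [Function.update_self, Function.update_of_ne hsu, hxs s hs]
        · have htu : t ≠ u := fun h => huF (h ▸ ht)
          have hsu : s ≠ u := fun h => huF (h ▸ hs)
          rw [Function.update_of_ne hsu, Function.update_of_ne htu]
          exact e2 s hs t ht

/-- Minimal segments exist in a compact space with betweenness. -/
theorem exists_seg [CompactSpace M] (hB : Between M) (p q : M) :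
    ∃ c : ℝ → M, c 0 = p ∧ c (dist p q) = q ∧ IsSeg c 0 (dist p q) := by
  classical
  let C : Finset ℝ → Set (ℝ → M) := fun F =>
    {c | c 0 = p ∧ c (dist p q) = q ∧
      ∀ s ∈ F, ∀ t ∈ F, s ∈ Icc 0 (dist p q) → t ∈ Icc 0 (dist p q) →
        dist (c s) (c t) = |s - t|}
  have hclosed : ∀ F, IsClosed (C F) := by
    intro F
    have h1 : IsClosed {c : ℝ → M | c 0 = p} := isClosed_eq (continuous_apply 0) continuous_const
    have h2 : IsClosed {c : ℝ → M | c (dist p q) = q} :=
      isClosed_eq (continuous_apply _) continuous_const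
    have h3 : IsClosed {c : ℝ → M | ∀ s ∈ F, ∀ t ∈ F, s ∈ Icc 0 (dist p q) →
        t ∈ Icc 0 (dist p q) → dist (c s) (c t) = |s - t|} := by
      simp only [ofPred_forall]
      refine isClosed_iInter fun s => isClosed_iInter fun _ => isClosed_iInter fun t =>
        isClosed_iInter fun _ => isClosed_iInter fun _ => isClosed_iInter fun _ => ?_
      exact isClosed_eq ((continuous_apply s).dist (continuous_apply t)) continuous_const
    exact h1.inter (h2.inter h3)
  have hdir : Directed (fun A B : Set (ℝ → M) => A ⊇ B) C := by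
    intro F G
    refine ⟨F ∪ G, ?_, ?_⟩
    · rintro c ⟨h1, h2, h3⟩
      exact ⟨h1, h2, fun s hs t ht => h3 s (Finset.mem_union_left _ hs) t
        (Finset.mem_union_left _ ht)⟩
    · rintro c ⟨h1, h2, h3⟩
      exact ⟨h1, h2, fun s hs t ht => h3 s (Finset.mem_union_right _ hs) t
        (Finset.mem_union_right _ ht)⟩
  have hne := IsCompact.nonempty_iInter_of_directed_nonempty_isCompact_isClosed C hdir
    (fun F => exists_fin_seg hB p q F) (fun F => (hclosed F).isCompact) hclosed
  obtain ⟨c, hc⟩ := hne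
  rw [mem_iInter] at hc
  refine ⟨c, (hc ∅).1, (hc ∅).2.1, fun s hs t ht => ?_⟩
  exact (hc {s, t}).2.2 s (by simp) t (by simp) hs ht

end metric

section riemannian

/-- Paths of length close to the distance. -/
lemma exists_path (E : Type*) [NormedAddCommGroup E] [NormedSpace ℝ E]
    {M : Type*} [MetricSpace M] [ChartedSpace E M]
    [RiemannianBundle (fun x : M => TangentSpace 𝓘(ℝ, E) x)]
    [IsRiemannianManifold 𝓘(ℝ, E) M] (p q : M) {ε : ℝ} (hε : 0 < ε) : ∃ γ : ℝ → M, γ 0 = p ∧ γ 1 = q ∧
    ContMDiff 𝓘(ℝ, ℝ) 𝓘(ℝ, E) 1 γ ∧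
    ∀ t ∈ Icc (0 : ℝ) 1, dist p (γ t) + dist (γ t) q < dist p q + ε := by
  have h1 : edist p q < ENNReal.ofReal (dist p q + ε) := by
    rw [edist_dist]
    exact (ENNReal.ofReal_lt_ofReal_iff (by positivity)).2 (by linarith)
  rw [IsRiemannianManifold.out (I := 𝓘(ℝ, E)) p q] at h1
  obtain ⟨γ, hγ0, hγ1, hγ, hlen, -, -⟩ :=
    exists_lt_locally_constant_of_riemannianEDist_lt h1 (zero_lt_one (α := ℝ))
  refine ⟨γ, hγ0, hγ1, hγ, fun t ht => ?_⟩
  have hle : ∀ a b : ℝ, a ≤ b → edist (γ a) (γ b) ≤ pathELength 𝓘(ℝ, E) γ a b := by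
    intro a b hab
    rw [IsRiemannianManifold.out (I := 𝓘(ℝ, E)) (γ a) (γ b)]
    exact riemannianEDist_le_pathELength hγ.contMDiffOn rfl rfl hab
  have h2 : edist p (γ t) + edist (γ t) q < ENNReal.ofReal (dist p q + ε) := by
    rw [← hγ0, ← hγ1]
    rw [← hγ0, ← hγ1] at hlen
    refine lt_of_le_of_lt (add_le_add (hle 0 t ht.1) (hle t 1 ht.2)) ?_
    rw [pathELength_add ht.1 ht.2]
    exact hlen
  rw [edist_dist, edist_dist, ← ENNReal.ofReal_add dist_nonneg dist_nonneg] at h2
  exact (ENNReal.ofReal_lt_ofReal_iff (by positivity)).1 h2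

theorem between_of_riemannian (E : Type*) [NormedAddCommGroup E] [NormedSpace ℝ E]
    {M : Type*} [MetricSpace M] [ChartedSpace E M]
    [RiemannianBundle (fun x : M => TangentSpace 𝓘(ℝ, E) x)]
    [IsRiemannianManifold 𝓘(ℝ, E) M] [CompactSpace M] : Between M := by
  intro p q r h0 hr
  have hK : IsCompact {x : M | dist p x = r} :=
    (isClosed_eq (by fun_prop) (by fun_prop)).isCompact
  have hex : ∀ ε : ℝ, 0 < ε → ∃ x ∈ {x : M | dist p x = r}, dist x q < dist p q - r + ε := by
    intro ε hε
    obtain ⟨γ, hγ0, hγ1, hγ, h⟩ := exists_path E p q hε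
    have hcont : ContinuousOn (fun t => dist p (γ t)) (Icc 0 1) :=
      (continuous_const.dist hγ.continuous).continuousOn
    have hmem : r ∈ Icc (dist p (γ 0)) (dist p (γ 1)) := by
      rw [hγ0, hγ1, dist_self]; exact ⟨h0, hr⟩
    obtain ⟨t, ht, htr⟩ := intermediate_value_Icc (zero_le_one (α := ℝ)) hcont hmem
    refine ⟨γ t, htr, ?_⟩
    have h1 := h t ht
    have h2 : dist p (γ t) = r := htr
    linarith
  obtain ⟨x₀, hx₀, -⟩ := hex 1 one_pos
  obtain ⟨x, hx, hmin⟩ := hK.exists_isMinOn ⟨x₀, hx₀⟩ (f := fun x => dist x q) (by fun_prop)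
  have hx' : dist p x = r := hx
  refine ⟨x, hx', le_antisymm ?_ ?_⟩
  · apply le_of_forall_pos_le_add
    intro ε hε
    obtain ⟨y, hy, hy'⟩ := hex ε hε
    exact (hmin hy).trans hy'.le
  · have := dist_triangle p x q
    linarith

/-- Minimal segments between any two points. -/
theorem exists_segment (E : Type*) [NormedAddCommGroup E] [NormedSpace ℝ E]
    {M : Type*} [MetricSpace M] [ChartedSpace E M]
    [RiemannianBundle (fun x : M => TangentSpace 𝓘(ℝ, E) x)]
    [IsRiemannianManifold 𝓘(ℝ, E) M] [CompactSpace M] (p q : M) :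
    ∃ c : ℝ → M, c 0 = p ∧ c (dist p q) = q ∧ IsSeg c 0 (dist p q) :=
  exists_seg (between_of_riemannian E) p q

/-- Under (D), (E) the minimal segment from `p` to `q` can be chosen as part of a minimal segment
of length `π`. -/
theorem exists_segment_pi (E : Type*) [NormedAddCommGroup E] [NormedSpace ℝ E]
    {M : Type*} [MetricSpace M] [ChartedSpace E M]
    [RiemannianBundle (fun x : M => TangentSpace 𝓘(ℝ, E) x)]
    [IsRiemannianManifold 𝓘(ℝ, E) M] [CompactSpace M]
    (hE : ∀ p q : M, p ≠ q → ∃ r, dist p r = Real.pi ∧ dist p q + dist q r = Real.pi)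
    {p q : M} (hpq : p ≠ q) :
    ∃ c : ℝ → M, c 0 = p ∧ c (dist p q) = q ∧ IsSeg c 0 Real.pi := by
  obtain ⟨r, hr1, hr2⟩ := hE p q hpq
  obtain ⟨c₁, h10, h11, h1⟩ := exists_segment E p q
  obtain ⟨c₂, h20, h21, h2⟩ := exists_segment E q r
  set d := dist p q with hd
  have hd0 : 0 ≤ d := dist_nonneg
  have hdπ : d ≤ Real.pi := by
    have : 0 ≤ dist q r := dist_nonneg
    linarith
  have hqr : dist q r = Real.pi - d := by linarith
  rw [hqr] at h21 h2
  refine ⟨fun t => if t ≤ d then c₁ t else c₂ (t - d), by simp [hd0, h10], by simp [h11], ?_⟩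
  have hc1 : ∀ t ≤ d, (fun t => if t ≤ d then c₁ t else c₂ (t - d)) t = c₁ t := by
    intro t ht; simp [ht]
  have hc2 : ∀ t, d ≤ t → (fun t => if t ≤ d then c₁ t else c₂ (t - d)) t = c₂ (t - d) := by
    intro t ht
    rcases eq_or_lt_of_le ht with h | h
    · simp only [← h, le_refl, if_true, sub_self]
      rw [h11, h20]
    · simp [not_le.2 h]
  refine IsSeg.concat hd0 hdπ ?_ ?_ ?_
  · intro s hs t ht
    rw [hc1 s hs.2, hc1 t ht.2]
    exact h1 s hs t ht
  · intro s hs t ht
    rw [hc2 s hs.1, hc2 t ht.1]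
    have := h2 (s - d) ⟨by linarith [hs.1], by linarith [hs.2]⟩ (t - d)
      ⟨by linarith [ht.1], by linarith [ht.2]⟩
    rw [this]
    congr 1
    ring
  · have e1 := hc1 0 hd0
    have e2 := hc2 Real.pi hdπ
    simp only at e1 e2
    rw [e1, e2, h10, h21, hr1, sub_zero]

/-- `M` is path connected. -/
theorem pathConnected_of_riemannian (E : Type*) [NormedAddCommGroup E] [NormedSpace ℝ E]
    {M : Type*} [MetricSpace M] [ChartedSpace E M]
    [RiemannianBundle (fun x : M => TangentSpace 𝓘(ℝ, E) x)]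
    [IsRiemannianManifold 𝓘(ℝ, E) M] [Nonempty M] : PathConnectedSpace M := by
  refine ⟨inferInstance, fun p q => ?_⟩
  obtain ⟨γ, hγ0, hγ1, hγ, -⟩ := exists_path E p q one_pos
  exact ⟨{ toFun := fun t => γ t, continuous_toFun := hγ.continuous.comp continuous_subtype_val,
           source' := by simpa using hγ0, target' := by simpa using hγ1 }⟩

end riemannian

end MPbl
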