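import Pool.Agent.Lib.MP_ccbbf6_gt.G2.Dist
import Pool.Agent.Lib.MP_ccbbf6_gt.G2.Metr
import Pool.Agent.Lib.MP_ccbbf6_gt.Geo.Ifc
import Pool.Agent.Lib.MP_ccbbf6_gt.MetricGeod
import Pool.Agent.Lib.MP_ccbbf6_gt.Spray.Field

/-!
LT: a compact Riemannian manifold (in the sense of Mathlib) carries the structure `SDist`.
-/

set_option maxSynthPendingDepth 3
set_option linter.unusedSectionVars false

namespace Pool.Agent.Lib.MP_ccbbf6_gt.LT

open Set Metric Filter Topology MeasureTheory Manifold Bundle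
open scoped ContDiff ENNReal
open Pool.Agent.BL.Spray (acc gch gform gform_apply gform_self tht contDiffAt_tht)
open Pool.Agent.BL.G2
open Pool.Agent.Lib.MP_ccbbf6_gt.Geo

universe u

noncomputable section

variable {E : Type u} [NormedAddCommGroup E] [NormedSpace ℝ E] [FiniteDimensional ℝ E]
  {M : Type*} [MetricSpace M] [ChartedSpace E M]
  [RiemannianBundle (fun x : M => TangentSpace 𝓘(ℝ, E) x)]

/-- a linear isometry between a tangent space and the Euclidean space -/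
def tiso (p : M) : TangentSpace 𝓘(ℝ, E) p ≃ₗᵢ[ℝ] Eu (Module.finrank ℝ E) :=
  haveI : FiniteDimensional ℝ (TangentSpace 𝓘(ℝ, E) p) := inferInstanceAs (FiniteDimensional ℝ E)
  ((stdOrthonormalBasis ℝ (TangentSpace 𝓘(ℝ, E) p)).reindex
    (finCongr (show Module.finrank ℝ (TangentSpace 𝓘(ℝ, E) p) = Module.finrank ℝ E from rfl))).repr

/-- the same map, as a linear map on `E` -/
def tlin (p : M) : E ≃ₗ[ℝ] Eu (Module.finrank ℝ E) :=
  (tiso (E := E) p).toLinearEquiv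

/-- the same map, as a continuous linear equivalence on `E` -/
def tL (p : M) : E ≃L[ℝ] Eu (Module.finrank ℝ E) := (tlin (E := E) p).toContinuousLinearEquiv

lemma tL_apply (p : M) (v : TangentSpace 𝓘(ℝ, E) p) : tL (E := E) p v = tiso (E := E) p v := rfl

variable [IsManifold 𝓘(ℝ, E) ∞ M]

lemma tL_norm (p : M) (v : E) :
    ‖tL (E := E) p v‖ ^ 2 = gch 𝓘(ℝ, E) p (extChartAt 𝓘(ℝ, E) p p) v v := by
  have h1 : gch 𝓘(ℝ, E) p (extChartAt 𝓘(ℝ, E) p p) v v =
      @inner ℝ (TangentSpace 𝓘(ℝ, E) p) _ v v := by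
    rw [gch, (extChartAt 𝓘(ℝ, E) p).left_inv (mem_extChartAt_source p), gform_self]
  rw [h1]
  have h2 : tL (E := E) p v = tiso (E := E) p (v : TangentSpace 𝓘(ℝ, E) p) := rfl
  rw [h2, LinearIsometryEquiv.norm_map]
  exact (real_inner_self_eq_norm_sq (F := TangentSpace 𝓘(ℝ, E) p) v).symm

/-- the centered orthonormal chart -/
def cch (p : M) : OpenPartialHomeomorph M (Eu (Module.finrank ℝ E)) :=
  (chartAt E p).transHomeomorph
    ((Homeomorph.subRight (chartAt E p p)).trans (tL (E := E) p).toHomeomorph)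

lemma cch_apply (p x : M) :
    cch (E := E) p x = tL (E := E) p (extChartAt 𝓘(ℝ, E) p x - extChartAt 𝓘(ℝ, E) p p) := rfl

lemma cch_symm_apply (p : M) (u : Eu (Module.finrank ℝ E)) :
    (cch (E := E) p).symm u =
      (extChartAt 𝓘(ℝ, E) p).symm ((tL (E := E) p).symm u + extChartAt 𝓘(ℝ, E) p p) := rfl

lemma cch_source (p : M) : (cch (E := E) p).source = (extChartAt 𝓘(ℝ, E) p).source := by
  rw [extChartAt_source]
  rfl

lemma mem_cch (p : M) : p ∈ (cch (E := E) p).source := by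
  rw [cch_source]
  exact mem_extChartAt_source p

lemma cch_self (p : M) : cch (E := E) p p = 0 := by
  rw [cch_apply, sub_self, map_zero]

/-- the affine map from centered coordinates to the coordinates of the chart at `p` -/
def aff (p : M) (u : Eu (Module.finrank ℝ E)) : E :=
  (tL (E := E) p).symm u + extChartAt 𝓘(ℝ, E) p p

lemma contDiff_aff (p : M) : ContDiff ℝ ∞ (aff (E := E) p) :=
  ((tL (E := E) p).symm.contDiff).add contDiff_const

lemma aff_zero (p : M) : aff (E := E) p 0 = extChartAt 𝓘(ℝ, E) p p := by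
  simp [aff]

lemma tL_aff_sub (p : M) (u v : Eu (Module.finrank ℝ E)) :
    tL (E := E) p (aff (E := E) p u - aff (E := E) p v) = u - v := by
  simp [aff]

lemma cch_symm_eq (p : M) (u : Eu (Module.finrank ℝ E)) :
    (cch (E := E) p).symm u = (extChartAt 𝓘(ℝ, E) p).symm (aff (E := E) p u) := rfl

/-- the transition maps of the centered charts are smooth -/
lemma cch_trans (p q x : M) (hp : x ∈ (cch (E := E) p).source) (hq : x ∈ (cch (E := E) q).source) :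
    ContDiffAt ℝ ∞ (fun u => cch (E := E) q ((cch (E := E) p).symm u)) (cch (E := E) p x) := by
  rw [cch_source] at hp hq
  have h1 := contDiffAt_tht (I := 𝓘(ℝ, E)) hp hq
  have h2 : aff (E := E) p (cch (E := E) p x) = extChartAt 𝓘(ℝ, E) p x := by
    simp [aff, cch_apply]
  have h3 : ContDiffAt ℝ ∞ (fun u => tht 𝓘(ℝ, E) p q (aff (E := E) p u)) (cch (E := E) p x) := by
    rw [← h2] at h1
    exact h1.comp _ (contDiff_aff p).contDiffAt
  exact (tL (E := E) q).contDiff.contDiffAt.comp _ (h3.sub contDiffAt_const)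

variable [IsContMDiffRiemannianBundle 𝓘(ℝ, E) ∞ E (fun x : M => TangentSpace 𝓘(ℝ, E) x)]
  [IsRiemannianManifold 𝓘(ℝ, E) M]

/-- a neighbourhood where the distance is given by `D2` -/
lemma exists_nhd (p : M) : ∃ (r : ℝ) (Φ : ℝ → E × E → E × E) (ρ : ℝ) (N : Set (E × E))
    (lg : E × E → E), IsNormal (gch 𝓘(ℝ, E) p) (extChartAt 𝓘(ℝ, E) p).target
      (extChartAt 𝓘(ℝ, E) p p) r Φ ρ N lg ∧
    ∃ W : Set E, IsOpen W ∧ extChartAt 𝓘(ℝ, E) p p ∈ W ∧ ∀ y ∈ W, ∀ z ∈ W, (y, z) ∈ N ∧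
      dist ((extChartAt 𝓘(ℝ, E) p).symm y) ((extChartAt 𝓘(ℝ, E) p).symm z) =
        √(D2 (gch 𝓘(ℝ, E) p) lg (y, z)) := by
  obtain ⟨r, Φ, ρ0, hρ0, H⟩ := exists_normalAt 𝓘(ℝ, E) p
  obtain ⟨N, lg, δ, h⟩ := H ρ0 hρ0 le_rfl
  refine ⟨r, Φ, ρ0, N, lg, h.normal, ?_⟩
  have h1 : ∀ᶠ y in 𝓝 (extChartAt 𝓘(ℝ, E) p p), y ∈ (extChartAt 𝓘(ℝ, E) p).target ∧
      (extChartAt 𝓘(ℝ, E) p).symm y ∈ ball p δ := by
    have h2 : ∀ᶠ y in 𝓝 (extChartAt 𝓘(ℝ, E) p p), y ∈ (extChartAt 𝓘(ℝ, E) p).target :=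
      (isOpen_extChartAt_target p).mem_nhds (mem_extChartAt_target p)
    have h3 : ContinuousAt (extChartAt 𝓘(ℝ, E) p).symm (extChartAt 𝓘(ℝ, E) p p) :=
      continuousAt_extChartAt_symm p
    have h4 : ball p δ ∈ 𝓝 ((extChartAt 𝓘(ℝ, E) p).symm (extChartAt 𝓘(ℝ, E) p p)) := by
      rw [(extChartAt 𝓘(ℝ, E) p).left_inv (mem_extChartAt_source p)]
      exact ball_mem_nhds p h.δ_pos
    exact h2.and (h3.eventually h4)
  obtain ⟨W, hW, hWo, hpW⟩ := _root_.mem_nhds_iff.1 h1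
  refine ⟨W, hWo, hpW, fun y hy z hz => ?_⟩
  have hy' := hW hy
  have hz' := hW hz
  have h5 := h.pair _ hy'.2 _ hz'.2
  have h6 := h.dist_eq _ hy'.2 _ hz'.2
  rw [(extChartAt 𝓘(ℝ, E) p).right_inv hy'.1, (extChartAt 𝓘(ℝ, E) p).right_inv hz'.1] at h5 h6
  exact ⟨h5, h6⟩

/-- the square of the distance is smooth near the diagonal -/
theorem cch_sq (p : M) : ∀ᶠ z' in 𝓝 ((0, 0) : Eu (Module.finrank ℝ E) × Eu (Module.finrank ℝ E)),
    ContDiffAt ℝ ∞ (fun z : Eu (Module.finrank ℝ E) × Eu (Module.finrank ℝ E) =>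
      dist ((cch (E := E) p).symm z.1) ((cch (E := E) p).symm z.2) ^ 2) z' := by
  obtain ⟨r, Φ, ρ, N, lg, h, W, hW, hpW, H⟩ := exists_nhd (E := E) p
  have hG := isMetricOn_gch (I := 𝓘(ℝ, E)) p
  have hc : Continuous (fun z : Eu (Module.finrank ℝ E) × Eu (Module.finrank ℝ E) =>
      (aff (E := E) p z.1, aff (E := E) p z.2)) :=
    ((contDiff_aff p).continuous.comp continuous_fst).prodMk
      ((contDiff_aff p).continuous.comp continuous_snd)
  have hV : IsOpen ((fun z : Eu (Module.finrank ℝ E) × Eu (Module.finrank ℝ E) =>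
      (aff (E := E) p z.1, aff (E := E) p z.2)) ⁻¹' (W ×ˢ W)) := (hW.prod hW).preimage hc
  have h0 : ((0, 0) : Eu (Module.finrank ℝ E) × Eu (Module.finrank ℝ E)) ∈
      (fun z : Eu (Module.finrank ℝ E) × Eu (Module.finrank ℝ E) =>
      (aff (E := E) p z.1, aff (E := E) p z.2)) ⁻¹' (W ×ˢ W) := by
    simp only [mem_preimage, aff_zero]
    exact ⟨hpW, hpW⟩
  filter_upwards [hV.mem_nhds h0] with z' hz'
  have h1 : (fun z : Eu (Module.finrank ℝ E) × Eu (Module.finrank ℝ E) =>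
      dist ((cch (E := E) p).symm z.1) ((cch (E := E) p).symm z.2) ^ 2) =ᶠ[𝓝 z']
      fun z => D2 (gch 𝓘(ℝ, E) p) lg (aff (E := E) p z.1, aff (E := E) p z.2) := by
    filter_upwards [hV.mem_nhds hz'] with z hz
    have h2 := H _ hz.1 _ hz.2
    rw [cch_symm_eq, cch_symm_eq, h2.2, Real.sq_sqrt (h.D2_nonneg hG h2.1)]
  refine ContDiffAt.congr_of_eventuallyEq ?_ h1
  have h3 : ContDiffAt ℝ ∞ (D2 (gch 𝓘(ℝ, E) p) lg) (aff (E := E) p z'.1, aff (E := E) p z'.2) :=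
    (h.contDiffOn_D2 hG).contDiffAt (h.open_N.mem_nhds (H _ hz'.1 _ hz'.2).1)
  have h4 : ContDiff ℝ ∞ (fun z : Eu (Module.finrank ℝ E) × Eu (Module.finrank ℝ E) =>
      (aff (E := E) p z.1, aff (E := E) p z.2)) :=
    ((contDiff_aff p).comp contDiff_fst).prodMk ((contDiff_aff p).comp contDiff_snd)
  exact ContDiffAt.comp z' (g := D2 (gch 𝓘(ℝ, E) p) lg)
    (f := fun z : Eu (Module.finrank ℝ E) × Eu (Module.finrank ℝ E) =>
      (aff (E := E) p z.1, aff (E := E) p z.2)) h3 h4.contDiffAt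

/-- first order behaviour of the distance -/
theorem cch_metric (p : M) (ε : ℝ) (hε : 0 < ε) :
    ∀ᶠ z in 𝓝 ((0, 0) : Eu (Module.finrank ℝ E) × Eu (Module.finrank ℝ E)),
    |dist ((cch (E := E) p).symm z.1) ((cch (E := E) p).symm z.2) - ‖z.1 - z.2‖| ≤
      ε * ‖z.1 - z.2‖ := by
  obtain ⟨r, Φ, ρ, N, lg, h, W, hW, hpW, H⟩ := exists_nhd (E := E) p
  have hG := isMetricOn_gch (I := 𝓘(ℝ, E)) p
  have hc : Continuous (fun z : Eu (Module.finrank ℝ E) × Eu (Module.finrank ℝ E) =>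
      (aff (E := E) p z.1, aff (E := E) p z.2)) :=
    ((contDiff_aff p).continuous.comp continuous_fst).prodMk
      ((contDiff_aff p).continuous.comp continuous_snd)
  have ht : Tendsto (fun z : Eu (Module.finrank ℝ E) × Eu (Module.finrank ℝ E) =>
      (aff (E := E) p z.1, aff (E := E) p z.2)) (𝓝 (0, 0))
      (𝓝 (extChartAt 𝓘(ℝ, E) p p, extChartAt 𝓘(ℝ, E) p p)) := by
    have := hc.tendsto ((0, 0) : Eu (Module.finrank ℝ E) × Eu (Module.finrank ℝ E))
    simpa only [aff_zero] using this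
  have h1 := ht.eventually (h.sqrt_D2_near hG (tL (E := E) p) (tL_norm p) hε)
  have h2 := ht.eventually ((hW.prod hW).mem_nhds (mk_mem_prod hpW hpW))
  filter_upwards [h1, h2] with z hz1 hz2
  have h3 := H _ hz2.1 _ hz2.2
  simp only [tL_aff_sub] at hz1
  rw [cch_symm_eq, cch_symm_eq, h3.2]
  exact hz1

/-- **LT**: the structure `SDist` on a compact Riemannian manifold. -/
def sdist [CompactSpace M] : SDist (Module.finrank ℝ E) M where
  ψ := cch (E := E)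
  mem := mem_cch
  zero := cch_self
  trans := cch_trans
  sq := cch_sq
  metric := cch_metric
  btw := MPbl.between_of_riemannian E

lemma sdist_apply [CompactSpace M] (p x : M) : (sdist (E := E) (M := M)).ψ p x =
    tL (E := E) p (extChartAt 𝓘(ℝ, E) p x - extChartAt 𝓘(ℝ, E) p p) := rfl

omit [IsContMDiffRiemannianBundle 𝓘(ℝ, E) ∞ E (fun x : M => TangentSpace 𝓘(ℝ, E) x)]
  [IsRiemannianManifold 𝓘(ℝ, E) M] in
/-- the centered charts are smooth -/
theorem contMDiffOn_cch (p : M) : ContMDiffOn 𝓘(ℝ, E) 𝓘(ℝ, Eu (Module.finrank ℝ E)) ∞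
    (cch (E := E) p) (cch (E := E) p).source := by
  have h1 : ContMDiffOn 𝓘(ℝ, E) 𝓘(ℝ, E) ∞ (extChartAt 𝓘(ℝ, E) p) (cch (E := E) p).source := by
    have : (cch (E := E) p).source = (chartAt E p).source := rfl
    rw [this]
    exact contMDiffOn_extChartAt
  have h2 : ContDiff ℝ ∞ (fun y : E => tL (E := E) p (y - extChartAt 𝓘(ℝ, E) p p)) :=
    (tL (E := E) p).contDiff.comp (contDiff_id.sub contDiff_const)
  exact h2.contMDiff.comp_contMDiffOn h1

omit [IsContMDiffRiemannianBundle 𝓘(ℝ, E) ∞ E (fun x : M => TangentSpace 𝓘(ℝ, E) x)]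
  [IsRiemannianManifold 𝓘(ℝ, E) M] in
/-- the inverses of the centered charts are smooth -/
theorem contMDiffOn_cch_symm (p : M) : ContMDiffOn 𝓘(ℝ, Eu (Module.finrank ℝ E)) 𝓘(ℝ, E) ∞
    (cch (E := E) p).symm (cch (E := E) p).target := by
  have h1 : ContMDiff 𝓘(ℝ, Eu (Module.finrank ℝ E)) 𝓘(ℝ, E) ∞ (aff (E := E) p) :=
    (contDiff_aff p).contMDiff
  have h2 := (contMDiffOn_extChartAt_symm (I := 𝓘(ℝ, E)) (n := ∞) p).comp
    (s := (cch (E := E) p).target) h1.contMDiffOn (fun u hu => by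
      have h3 : (cch (E := E) p).symm u ∈ (cch (E := E) p).source := (cch (E := E) p).map_target hu
      have h4 : cch (E := E) p ((cch (E := E) p).symm u) = u := (cch (E := E) p).right_inv hu
      have h5 : u ∈ (cch (E := E) p).target := hu
      have h6 : (cch (E := E) p).target = (fun u => (Homeomorph.subRight (chartAt E p p)).symm
          ((tL (E := E) p).symm u)) ⁻¹' (chartAt E p).target := rfl
      rw [h6] at h5
      rw [mem_preimage, extChartAt_target]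
      simpa [aff] using h5)
  exact h2

omit [IsContMDiffRiemannianBundle 𝓘(ℝ, E) ∞ E (fun x : M => TangentSpace 𝓘(ℝ, E) x)]
  [IsRiemannianManifold 𝓘(ℝ, E) M] in
/-- the differential of the centered chart at its center -/
theorem mfderiv_cch (p : M) (v : TangentSpace 𝓘(ℝ, E) p) :
    mfderiv 𝓘(ℝ, E) 𝓘(ℝ, Eu (Module.finrank ℝ E)) (cch (E := E) p) p v = tiso (E := E) p v := by
  have hp : p ∈ (extChartAt 𝓘(ℝ, E) p).source := mem_extChartAt_source p
  obtain ⟨T, hT⟩ : ∃ T : E →L[ℝ] E, T = tangentCoordChange 𝓘(ℝ, E) p p p := ⟨_, rfl⟩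
  have h1 : HasMFDerivAt 𝓘(ℝ, E) 𝓘(ℝ, E) (extChartAt 𝓘(ℝ, E) p) p T := by
    rw [hT, ← mfderiv_ext hp]
    exact (mdifferentiableAt_extChartAt (mem_chart_source E p)).hasMFDerivAt
  have h2 : HasFDerivAt (fun y : E => tL (E := E) p (y - extChartAt 𝓘(ℝ, E) p p))
      (tL (E := E) p : E →L[ℝ] Eu (Module.finrank ℝ E)) (extChartAt 𝓘(ℝ, E) p p) := by
    have h5 : HasFDerivAt (fun y : E => y - extChartAt 𝓘(ℝ, E) p p) (ContinuousLinearMap.id ℝ E)
        (extChartAt 𝓘(ℝ, E) p p) := (hasFDerivAt_id _).sub_const _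
    have h6 : HasFDerivAt (tL (E := E) p) (tL (E := E) p : E →L[ℝ] Eu (Module.finrank ℝ E))
        ((fun y : E => y - extChartAt 𝓘(ℝ, E) p p) (extChartAt 𝓘(ℝ, E) p p)) :=
      (tL (E := E) p).hasFDerivAt
    exact HasFDerivAt.comp (g := tL (E := E) p) (f := fun y : E => y - extChartAt 𝓘(ℝ, E) p p)
      (extChartAt 𝓘(ℝ, E) p p) h6 h5
  have h3 : HasMFDerivAt 𝓘(ℝ, E) 𝓘(ℝ, Eu (Module.finrank ℝ E)) (cch (E := E) p) p
      ((tL (E := E) p : E →L[ℝ] Eu (Module.finrank ℝ E)).comp T) :=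
    h2.hasMFDerivAt.comp p h1
  rw [h3.mfderiv]
  obtain ⟨w, hw⟩ : ∃ w : E, w = v := ⟨v, rfl⟩
  have h4 : T w = w := by
    rw [hT]
    exact tangentCoordChange_self hp
  rw [← hw]
  change tL (E := E) p (T w) = tL (E := E) p w
  rw [h4]

omit [IsContMDiffRiemannianBundle 𝓘(ℝ, E) ∞ E (fun x : M => TangentSpace 𝓘(ℝ, E) x)]
  [IsRiemannianManifold 𝓘(ℝ, E) M] in
theorem norm_mfderiv_cch (p : M) (v : TangentSpace 𝓘(ℝ, E) p) :
    ‖(show Eu (Module.finrank ℝ E) from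
      mfderiv 𝓘(ℝ, E) 𝓘(ℝ, Eu (Module.finrank ℝ E)) (cch (E := E) p) p v)‖ = ‖v‖ := by
  have h1 := (tiso (E := E) p).norm_map v
  have h2 := mfderiv_cch (E := E) p v
  rw [← h1]
  exact congrArg (fun w : Eu (Module.finrank ℝ E) => ‖w‖) h2

/-- **LT**, complete statement: the charts are smooth in the sense of the manifold, and their
differentials at the centers are linear isometries. -/
theorem exists_sdist [CompactSpace M] : ∃ 𝒜 : SDist (Module.finrank ℝ E) M, ∀ p : M,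
    ContMDiffOn 𝓘(ℝ, E) 𝓘(ℝ, Eu (Module.finrank ℝ E)) ∞ (𝒜.ψ p) (𝒜.ψ p).source ∧
    ContMDiffOn 𝓘(ℝ, Eu (Module.finrank ℝ E)) 𝓘(ℝ, E) ∞ (𝒜.ψ p).symm (𝒜.ψ p).target ∧
    ∃ L : TangentSpace 𝓘(ℝ, E) p ≃ₗᵢ[ℝ] Eu (Module.finrank ℝ E), ∀ v,
      mfderiv 𝓘(ℝ, E) 𝓘(ℝ, Eu (Module.finrank ℝ E)) (𝒜.ψ p) p v = L v :=
  ⟨sdist, fun p => ⟨contMDiffOn_cch p, contMDiffOn_cch_symm p, tiso p, mfderiv_cch p⟩⟩

end

end Pool.Agent.Lib.MP_ccbbf6_gt.LT
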