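import Pool.Agent.Lib.MP_ccbbf6_gt.Geo.EQm
import Pool.Agent.Lib.MP_ccbbf6_gt.LT

/-!
# The manifold `M` carries the structure `SDist`, with charts of the manifold
-/

set_option autoImplicit false

open Set Filter Topology Metric Real Bundle
open scoped ContDiff RealInnerProductSpace Manifold

noncomputable section

namespace Pool.Agent.Lib.MP_ccbbf6_gt.Geo

theorem exists_mfd {E : Type*} [NormedAddCommGroup E] [NormedSpace ℝ E] [FiniteDimensional ℝ E]
    {M : Type*} [MetricSpace M] [CompactSpace M] [ChartedSpace E M] [IsManifold 𝓘(ℝ, E) ∞ M]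
    [RiemannianBundle (fun x : M => TangentSpace 𝓘(ℝ, E) x)]
    [IsContMDiffRiemannianBundle 𝓘(ℝ, E) ∞ E (fun x : M => TangentSpace 𝓘(ℝ, E) x)]
    [IsRiemannianManifold 𝓘(ℝ, E) M] : ∃ 𝒜 : SDist (Module.finrank ℝ E) M, 𝒜.Mfd E := by
  obtain ⟨𝒜, hA⟩ := LT.exists_sdist (E := E) (M := M)
  refine ⟨𝒜, fun q => (hA q).1, fun q => (hA q).2.1, fun q u => ?_⟩
  obtain ⟨L, hL⟩ := (hA q).2.2
  have h1 : ‖L u‖ = ‖u‖ := L.norm_map u
  rw [← h1]
  exact congrArg (fun w : Eu (Module.finrank ℝ E) => ‖w‖) (hL u)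

end Pool.Agent.Lib.MP_ccbbf6_gt.Geo
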