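import Pool.Agent.Lib.MP_ccbbf6_gt.FIN1
import Pool.Agent.Lib.MP_ccbbf6_gt.FIN2
import Pool.Agent.Lib.MP_ccbbf6_gt.FinDefs
import Pool.Agent.Lib.MP_ccbbf6_gt.LitE

/-!
# FIN3: from the models of diameter `π` to the final statement (helper93)
-/

set_option autoImplicit false
set_option linter.unusedSectionVars false

open Set Filter Topology Metric Real Bundle
open scoped ContDiff RealInnerProductSpace Quaternion LinearAlgebra.Projectivization Manifold

noncomputable section

namespace Pool.Agent.Lib.MP_ccbbf6_gt.FIN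

open Geo Blaschke

section models

variable {M : Type*} [m : MetricSpace M] {c : ℝ} (hc : 0 < c) {n : ℕ}

theorem hom_sphere (h : @IsSphere n M (scaleM c hc m)) : Homothetic M (sphereDist n) := by
  obtain ⟨f, hf⟩ := h
  refine ⟨c, hc, f, fun x y => ?_⟩
  obtain ⟨h1, h2⟩ := hf x y
  have h1' : c * dist x y ≤ π := h1
  have h2' : Real.cos (c * dist x y) = ⟪(f x : EuclideanSpace ℝ (Fin (n + 1))), f y⟫ := h2
  unfold sphereDist
  rw [← h2', Real.arccos_cos (mul_nonneg hc.le dist_nonneg) h1']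

theorem proj_pos {K : Type*} [NormedDivisionRing K] {d : ℕ} {u : Fin (d + 1) → K} (hu : u ≠ 0) : 0 < √(∑ i, ‖u i‖ ^ 2) := by
  refine Real.sqrt_pos.2 ?_
  obtain ⟨i, hi⟩ := Function.ne_iff.1 hu
  refine Finset.sum_pos' (fun j _ => by positivity) ⟨i, Finset.mem_univ i, ?_⟩
  have : 0 < ‖u i‖ := norm_pos_iff.2 hi
  positivity

theorem hom_proj {K : Type*} [NormedDivisionRing K] [StarRing K] {d : ℕ} (h : @IsProj K _ _ d M (scaleM c hc m)) :
    Homothetic M (projDist K d) := by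
  obtain ⟨f, hf⟩ := h
  refine ⟨c, hc, f, fun x y => ?_⟩
  obtain ⟨h1, h2⟩ := hf x y (f x).rep (f y).rep (f x).rep_nonzero (f y).rep_nonzero (f x).mk_rep.symm (f y).mk_rep.symm
  have h1' : c * dist x y ≤ π := h1
  have h2' : Real.cos (c * dist x y / 2) * (√(∑ i, ‖(f x).rep i‖ ^ 2) * √(∑ i, ‖(f y).rep i‖ ^ 2)) =
    ‖∑ i, (f x).rep i * star ((f y).rep i)‖ := h2
  have h3 := proj_pos (f x).rep_nonzero
  have h4 := proj_pos (f y).rep_nonzero
  have h0 : 0 ≤ c * dist x y := mul_nonneg hc.le dist_nonneg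
  unfold projDist
  rw [← h2', mul_div_cancel_right₀ _ (mul_pos h3 h4).ne', Real.arccos_cos (by linarith) (by linarith)]
  ring

theorem hom_cayley (h : @IsCayley M (scaleM c hc m)) : Homothetic M cayleyDist := by
  obtain ⟨f, hf⟩ := h
  refine ⟨c, hc, f, fun x y => ?_⟩
  obtain ⟨h1, h2⟩ := hf x y
  have h1' : c * dist x y ≤ π := h1
  have h2' : Real.cos (c * dist x y) = 2 * (∑ i, ∑ j, ⟪(f x).1 i j, (f y).1 i j⟫) - 1 := h2
  unfold cayleyDist
  rw [← h2', Real.arccos_cos (mul_nonneg hc.le dist_nonneg) h1']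

end models

/-! ### dimension zero -/

theorem subsingleton_proj : Subsingleton (ℙ ℝ (Fin (0 + 1) → ℝ)) := by
  refine ⟨fun x y => ?_⟩
  rw [← x.mk_rep, ← y.mk_rep, Projectivization.mk_eq_mk_iff']
  have h1 : ∀ z : ℙ ℝ (Fin (0 + 1) → ℝ), z.rep 0 ≠ 0 := by
    intro z h
    refine z.rep_nonzero (funext fun i => ?_)
    rw [Fin.eq_zero i]
    exact h
  refine ⟨x.rep 0 / y.rep 0, funext fun i => ?_⟩
  rw [Fin.eq_zero i]
  show x.rep 0 / y.rep 0 * y.rep 0 = x.rep 0
  rw [div_mul_cancel₀ _ (h1 y)]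

theorem hom_point {M : Type*} [MetricSpace M] [Nonempty M] [Subsingleton M] : Homothetic M (projDist ℝ 0) := by
  have h1 := subsingleton_proj
  have hp : Nonempty (ℙ ℝ (Fin (0 + 1) → ℝ)) :=
    ⟨Projectivization.mk ℝ (fun _ => 1) fun h => one_ne_zero (congrFun h 0)⟩
  obtain ⟨a⟩ := ‹Nonempty M›
  obtain ⟨b⟩ := hp
  refine ⟨1, one_pos, ⟨fun _ => b, fun _ => a, fun x => Subsingleton.elim _ _, fun x => Subsingleton.elim _ _⟩, fun x y => ?_⟩
  rw [Subsingleton.elim x y, dist_self, mul_zero]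
  show (0 : ℝ) = projDist ℝ 0 b b
  unfold projDist
  have h2 : b.rep 0 ≠ 0 := by
    intro h
    refine b.rep_nonzero (funext fun i => ?_)
    rw [Fin.eq_zero i]
    exact h
  rw [Fin.sum_univ_one, Fin.sum_univ_one, Real.mul_self_sqrt (by positivity)]
  have h3 : ‖b.rep 0 * star (b.rep 0)‖ / ‖b.rep 0‖ ^ 2 = 1 := by
    have h4 : 0 < ‖b.rep 0‖ := norm_pos_iff.2 h2
    rw [norm_mul, norm_star, ← sq, div_self (by positivity)]
  rw [h3, Real.arccos_one, mul_zero]

theorem subsingleton_of_zero {E : Type*} [NormedAddCommGroup E] [NormedSpace ℝ E] [FiniteDimensional ℝ E]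
    {M : Type*} [TopologicalSpace M] [ConnectedSpace M] [ChartedSpace E M] (h : Module.finrank ℝ E = 0) : Subsingleton M := by
  have h0 : Subsingleton E := Module.finrank_zero_iff.1 h
  have h1 : ∀ x : M, IsOpen ({x} : Set M) := by
    intro x
    have h2 : ({x} : Set M) = (chartAt E x).source := by
      ext y
      constructor
      · intro hy
        rw [Set.mem_singleton_iff.1 hy]
        exact mem_chart_source E x
      · intro hy
        exact (chartAt E x).injOn hy (mem_chart_source E x) (Subsingleton.elim _ _)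
    rw [h2]
    exact (chartAt E x).open_source
  have h2 : DiscreteTopology M := discreteTopology_iff_isOpen_singleton.2 h1
  exact PreconnectedSpace.trivial_of_discrete

/-! ### positive dimension -/

theorem diam_pos {n : ℕ} {M : Type*} [MetricSpace M] [CompactSpace M] [Nonempty M] (𝒜 : SDist n M) (hn : 1 ≤ n) :
    0 < diam (univ : Set M) := by
  obtain ⟨p⟩ := ‹Nonempty M›
  have h1 : (𝒜.ψ p).target ∈ 𝓝 (0 : Eu n) := by
    refine (𝒜.ψ p).open_target.mem_nhds ?_
    rw [← 𝒜.zero p]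
    exact (𝒜.ψ p).map_source (𝒜.mem p)
  obtain ⟨r, hr, hb⟩ := Metric.mem_nhds_iff.1 h1
  obtain ⟨u, hu⟩ : ∃ u : Eu n, u = EuclideanSpace.single (⟨0, by omega⟩ : Fin n) (r / 2) := ⟨_, rfl⟩
  have hun : ‖u‖ = r / 2 := by
    rw [hu, EuclideanSpace.norm_single, Real.norm_eq_abs, abs_of_pos (by positivity)]
  have hut : u ∈ (𝒜.ψ p).target := hb (by rw [mem_ball_zero_iff, hun]; linarith)
  have hne : (𝒜.ψ p).symm u ≠ p := by
    intro h
    have h2 := (𝒜.ψ p).right_inv hut
    rw [h, 𝒜.zero] at h2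
    rw [← h2, norm_zero] at hun
    linarith
  calc 0 < dist ((𝒜.ψ p).symm u) p := dist_pos.2 hne
    _ ≤ diam (univ : Set M) := dist_le_diam_of_mem isCompact_univ.isBounded (mem_univ _) (mem_univ _)

/-- **the final statement in one dimension from the classification for diameter `π`, if the dimension is at least two** -/
theorem classification_dim {E : Type} [NormedAddCommGroup E] [NormedSpace ℝ E] [FiniteDimensional ℝ E]
    (hcl : ∀ (M : Type) [MetricSpace M] [CompactSpace M], SDist (Module.finrank ℝ E) M → 2 ≤ Module.finrank ℝ E → Nonempty M →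
      Bl M → ∃ κ, IsModel (Module.finrank ℝ E) κ M)
    {M : Type} [m : MetricSpace M] [CompactSpace M] [ConnectedSpace M] [ChartedSpace E M] [IsManifold 𝓘(ℝ, E) ∞ M]
    [RiemannianBundle (fun x : M => TangentSpace 𝓘(ℝ, E) x)]
    [IsContMDiffRiemannianBundle 𝓘(ℝ, E) ∞ E (fun x : M => TangentSpace 𝓘(ℝ, E) x)]
    [IsRiemannianManifold 𝓘(ℝ, E) M]
    (h : Inj M = Metric.diam (Set.univ : Set M)) :
    Homothetic M (sphereDist (Module.finrank ℝ E)) ∨
    Homothetic M (projDist ℝ (Module.finrank ℝ E)) ∨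
    (∃ m : ℕ, Module.finrank ℝ E = 2 * m ∧ Homothetic M (projDist ℂ m)) ∨
    (∃ m : ℕ, Module.finrank ℝ E = 4 * m ∧ Homothetic M (projDist ℍ m)) ∨
    (Module.finrank ℝ E = 16 ∧ Homothetic M cayleyDist) := by
  rcases Nat.eq_zero_or_pos (Module.finrank ℝ E) with h0 | h0
  · have hs : Subsingleton M := subsingleton_of_zero (E := E) h0
    right
    left
    rw [h0]
    exact hom_point
  · obtain ⟨𝒜, -⟩ := Lib.MP_ccbbf6_gt.Geo.exists_mfd (E := E) (M := M)
    have hd := diam_pos 𝒜 h0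
    have hc : 0 < π / diam (univ : Set M) := div_pos Real.pi_pos hd
    have hB : @Bl M (scaleM (π / diam (univ : Set M)) hc m) := bl_scale h hd
    have 𝒜' := scaleS 𝒜 (π / diam (univ : Set M)) hc
    have hne : Nonempty M := inferInstance
    have hcc : @CompactSpace M (@UniformSpace.toTopologicalSpace M (@PseudoMetricSpace.toUniformSpace M
        (@MetricSpace.toPseudoMetricSpace M (scaleM (π / diam (univ : Set M)) hc m)))) := ‹CompactSpace M›
    rcases Nat.lt_or_ge (Module.finrank ℝ E) 2 with h1 | h1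
    · have h2 : Module.finrank ℝ E = 1 := by omega
      rw [h2] at 𝒜' ⊢
      left
      exact hom_sphere hc (@isSphere_one M (scaleM (π / diam (univ : Set M)) hc m) hcc hne 𝒜' hB)
    · obtain ⟨κ, hκ⟩ := @hcl M (scaleM (π / diam (univ : Set M)) hc m) hcc 𝒜' h1 hne hB
      rcases hκ with ⟨-, h2⟩ | ⟨-, h2⟩ | ⟨-, d, hd, h2⟩ | ⟨-, d, hd, h2⟩ | ⟨-, hd, h2⟩
      · exact Or.inl (hom_sphere hc h2)
      · exact Or.inr (Or.inl (hom_proj hc h2))
      · exact Or.inr (Or.inr (Or.inl ⟨d, hd, hom_proj hc h2⟩))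
      · exact Or.inr (Or.inr (Or.inr (Or.inl ⟨d, hd, hom_proj hc h2⟩)))
      · exact Or.inr (Or.inr (Or.inr (Or.inr ⟨hd, hom_cayley hc h2⟩)))

/-- **the final statement from the classification for diameter `π` and dimension at least two** -/
theorem classification_of
    (hcl : ∀ (n : ℕ) (M : Type) [MetricSpace M] [CompactSpace M], SDist n M → 2 ≤ n → Nonempty M → Bl M → ∃ κ, IsModel n κ M)
    {E : Type} [NormedAddCommGroup E] [NormedSpace ℝ E] [FiniteDimensional ℝ E]
    {M : Type} [m : MetricSpace M] [CompactSpace M] [ConnectedSpace M] [ChartedSpace E M] [IsManifold 𝓘(ℝ, E) ∞ M]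
    [RiemannianBundle (fun x : M => TangentSpace 𝓘(ℝ, E) x)]
    [IsContMDiffRiemannianBundle 𝓘(ℝ, E) ∞ E (fun x : M => TangentSpace 𝓘(ℝ, E) x)]
    [IsRiemannianManifold 𝓘(ℝ, E) M]
    (h : Inj M = Metric.diam (Set.univ : Set M)) :
    Homothetic M (sphereDist (Module.finrank ℝ E)) ∨
    Homothetic M (projDist ℝ (Module.finrank ℝ E)) ∨
    (∃ m : ℕ, Module.finrank ℝ E = 2 * m ∧ Homothetic M (projDist ℂ m)) ∨
    (∃ m : ℕ, Module.finrank ℝ E = 4 * m ∧ Homothetic M (projDist ℍ m)) ∨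
    (Module.finrank ℝ E = 16 ∧ Homothetic M cayleyDist) :=
  classification_dim (fun M _ _ => hcl _ M) h

end Pool.Agent.Lib.MP_ccbbf6_gt.FIN
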