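import Pool.Agent.Lib.MP_ccbbf6_gt.L4.CPm
import Pool.Agent.Lib.MP_ccbbf6_gt.L6.X4

/-!
# FIN4: the case split on `κ` (helper93)
-/

set_option autoImplicit false
set_option linter.unusedSectionVars false

open Set Filter Topology Metric Real
open scoped ContDiff Quaternion

noncomputable section

namespace Pool.Agent.Lib.MP_ccbbf6_gt.FIN

open Geo Blaschke

/-- **the case split** -/
theorem cls_of {n : ℕ} {M : Type} [MetricSpace M] [CompactSpace M] (𝒜 : SDist n M) (hn : 2 ≤ n) (hne : Nonempty M) (hB : Bl M)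
    (hS : 𝒜.HK (n - 1) → IsModel n (n - 1) M)
    (hP : 𝒜.HK 0 → IsModel n 0 M)
    (h3 : 5 ≤ n → 𝒜.HK 3 → ∃ m, n = 4 * m ∧ IsProj ℍ m M)
    (h7 : n = 16 → 𝒜.HK 7 → IsModel n 7 M)
    (h7' : 9 ≤ n → n ≠ 16 → 𝒜.HK 7 → False)
    (hodd : ∀ κ, 5 ≤ κ → κ ≠ 7 → Odd κ → κ + 1 < n → 𝒜.HK κ → False) : ∃ κ, IsModel n κ M := by
  obtain ⟨κ, hκ, h1, -⟩ := exists_kappa 𝒜 hn hB
  have hk : 𝒜.HK κ := h1
  obtain ⟨p⟩ : Nonempty M := hne
  have hne' : Nonempty M := ⟨p⟩
  rcases Nat.lt_or_ge (κ + 1) n with hlt | hge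
  · rcases Nat.even_or_odd κ with he | ho
    · obtain ⟨m, hm⟩ := he
      have hm2 : κ = 2 * m := by omega
      rcases Nat.eq_zero_or_pos m with h0 | h0
      · have h2 : κ = 0 := by omega
        rw [h2] at hk
        exact ⟨0, hP hk⟩
      · rw [hm2] at hk
        exact absurd (L6.even_false (by omega) hB h0 hk (by omega) p) (fun h => h)
    · by_cases h2 : κ = 1
      · rw [h2] at hk
        obtain ⟨m, hm, hM⟩ := L4.isProj_of_one hn 𝒜 hB hk
        exact ⟨1, Or.inr (Or.inr (Or.inl ⟨rfl, m, hm, hM⟩))⟩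
      · by_cases h3' : κ = 3
        · rw [h3'] at hk
          obtain ⟨m, hm, hM⟩ := h3 (by omega) hk
          exact ⟨3, Or.inr (Or.inr (Or.inr (Or.inl ⟨rfl, m, hm, hM⟩)))⟩
        · by_cases h7'' : κ = 7
          · rw [h7''] at hk
            by_cases h16 : n = 16
            · exact ⟨7, h7 h16 hk⟩
            · exact absurd (h7' (by omega) h16 hk) (fun h => h)
          · have h5 : 5 ≤ κ := by
              obtain ⟨j, hj⟩ := ho
              omega
            exact absurd (hodd κ h5 h7'' ho hlt hk) (fun h => h)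
  · have h2 : κ = n - 1 := by omega
    rw [h2] at hk
    exact ⟨n - 1, hS hk⟩

end Pool.Agent.Lib.MP_ccbbf6_gt.FIN
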