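import Pool.Agent.Lib.MP_ccbbf6_gt.FIN4
import Pool.Agent.Lib.MP_ccbbf6_gt.L7.FIN

/-!
# FIN5: the case split, with the cases `κ = n - 1` and `κ = 0` (helper93)
-/

set_option autoImplicit false
set_option linter.unusedSectionVars false

open Set Filter Topology Metric Real
open scoped ContDiff Quaternion

noncomputable section

namespace Pool.Agent.Lib.MP_ccbbf6_gt.FIN

open Geo Blaschke

/-- **the case split**, spheres and real projective spaces done -/
theorem cls_of' {n : ℕ} {M : Type} [MetricSpace M] [CompactSpace M] (𝒜 : SDist n M) (hn : 2 ≤ n) (hne : Nonempty M) (hB : Bl M)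
    (h3 : 5 ≤ n → 𝒜.HK 3 → ∃ m, n = 4 * m ∧ IsProj ℍ m M)
    (h7 : n = 16 → 𝒜.HK 7 → IsModel n 7 M)
    (h7' : 9 ≤ n → n ≠ 16 → 𝒜.HK 7 → False)
    (hodd : ∀ κ, 5 ≤ κ → κ ≠ 7 → Odd κ → κ + 1 < n → 𝒜.HK κ → False) : ∃ κ, IsModel n κ M := by
  borelize M
  exact cls_of 𝒜 hn hne hB (fun h => L7.model_sphere hB hn h) (fun h => L7.model_proj hB hn h) h3 h7 h7' hodd

end Pool.Agent.Lib.MP_ccbbf6_gt.FIN
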