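import Pool.Agent.Lib.MP_ccbbf6_gt.FIN5
import Pool.Agent.Lib.MP_ccbbf6_gt.L5.ASM6
import Pool.Agent.Lib.MP_ccbbf6_gt.L6.RG13

/-!
# FIN6: the classification up to `κ = 7`, `n = 16` (helper93)
-/

set_option autoImplicit false
set_option linter.unusedSectionVars false

open Set Filter Topology Metric Real
open scoped ContDiff Quaternion

noncomputable section

namespace Pool.Agent.Lib.MP_ccbbf6_gt.FIN

open Geo Blaschke

/-- **the classification, from the case `κ = 7`, `n = 16`** -/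
theorem cls_seven {n : ℕ} {M : Type} [MetricSpace M] [CompactSpace M] (𝒜 : SDist n M) (hn : 2 ≤ n) (hne : Nonempty M) (hB : Bl M)
    (h7 : n = 16 → 𝒜.HK 7 → IsModel n 7 M) : ∃ κ, IsModel n κ M := by
  borelize M
  obtain ⟨p⟩ : Nonempty M := hne
  have hne' : Nonempty M := ⟨p⟩
  refine cls_of' 𝒜 hn ⟨p⟩ hB (fun h5 h3 => L5.isProj_three h5 𝒜 hB h3) h7
    (fun h9 h16 hk => h16 (L6.seven_two hB hk h9 p)) fun κ h5 h7n ho hlt hk => ?_
  obtain ⟨l, rfl⟩ := ho
  have h1 := L6.odd_seven hB (l := l) (by omega) hk (by omega) p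
  omega

/-- **the classification in the dimensions other than `16`** -/
theorem cls_ne {n : ℕ} {M : Type} [MetricSpace M] [CompactSpace M] (𝒜 : SDist n M) (hn : 2 ≤ n) (hne : Nonempty M)
    (hB : Bl M) (h16 : n ≠ 16) : ∃ κ, IsModel n κ M :=
  cls_seven 𝒜 hn hne hB fun h => absurd h h16

end Pool.Agent.Lib.MP_ccbbf6_gt.FIN
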