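import Pool.Agent.Lib.MP_ccbbf6_gt.FIN6
import Pool.Agent.Lib.MP_ccbbf6_gt.K7.ASM7f

/-!
# FIN7: the classification (helper93)
-/

set_option autoImplicit false
set_option linter.unusedSectionVars false

open Set Filter Topology Metric Real
open scoped ContDiff Quaternion

noncomputable section

namespace Pool.Agent.Lib.MP_ccbbf6_gt.FIN

open Geo Blaschke

/-- **the classification** -/
theorem cls {n : ℕ} {M : Type} [MetricSpace M] [CompactSpace M] (𝒜 : SDist n M) (hn : 2 ≤ n) (hne : Nonempty M) (hB : Bl M) :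
    ∃ κ, IsModel n κ M := by
  borelize M
  refine cls_seven 𝒜 hn hne hB fun h16 hk => ?_
  have h := K7.ASM.model_seven h16 hB hk
  rw [h16]
  exact h

end Pool.Agent.Lib.MP_ccbbf6_gt.FIN
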