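import Pool.Agent.Lib.MP_ccbbf6_gt.ML

/-!
Theorem 2: integration of a bound for the mean of a logarithm along the orbits of a measure preserving flow.
-/

open MeasureTheory Set Filter Topology

namespace MPbl

/-- Tangent line inequality for the logarithm. -/
lemma tangent_log (L y : ℝ) (hy : 0 < y) : Real.exp L * (1 + Real.log y - L) ≤ y := by
  have h1 : Real.log (y / Real.exp L) ≤ y / Real.exp L - 1 :=
    Real.log_le_sub_one_of_pos (div_pos hy (Real.exp_pos L))
  rw [Real.log_div hy.ne' (Real.exp_pos L).ne', Real.log_exp] at h1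
  have h2 : 1 + Real.log y - L ≤ y / Real.exp L := by linarith
  calc Real.exp L * (1 + Real.log y - L) ≤ Real.exp L * (y / Real.exp L) :=
        mul_le_mul_of_nonneg_left h2 (Real.exp_pos L).le
    _ = y := by field_simp

lemma tangent_log_eq (L y : ℝ) (hy : 0 < y) (h : Real.exp L * (1 + Real.log y - L) = y) :
    y = Real.exp L := by
  by_contra hne
  have h1 : Real.log (y / Real.exp L) < y / Real.exp L - 1 := by
    apply Real.log_lt_sub_one_of_pos (div_pos hy (Real.exp_pos L))
    intro h0
    apply hne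
    rw [div_eq_one_iff_eq (Real.exp_pos L).ne'] at h0
    exact h0
  rw [Real.log_div hy.ne' (Real.exp_pos L).ne', Real.log_exp] at h1
  have h2 : 1 + Real.log y - L < y / Real.exp L := by linarith
  have h3 : Real.exp L * (1 + Real.log y - L) < Real.exp L * (y / Real.exp L) :=
    mul_lt_mul_of_pos_left h2 (Real.exp_pos L)
  have h4 : Real.exp L * (y / Real.exp L) = y := by field_simp
  rw [h4] at h3
  exact absurd h h3.ne

section flow

variable {X : Type*} [TopologicalSpace X] [CompactSpace X] [SecondCountableTopology X]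
  [MeasurableSpace X] [BorelSpace X]

omit [SecondCountableTopology X] in
lemma integrable_of_cont (μ : Measure X) [IsFiniteMeasure μ] {f : X → ℝ} (hf : Continuous f) :
    Integrable f μ := by
  obtain ⟨C, hC⟩ := (isCompact_range hf).isBounded.exists_norm_le
  exact Integrable.of_bound hf.measurable.aestronglyMeasurable C
    (Eventually.of_forall fun x => hC _ (mem_range_self x))

/-- The mean along the orbits has the same integral. -/
lemma integral_orbit (μ : Measure X) [IsFiniteMeasure μ] (φ : ℝ → X → X)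
    (hφc : Continuous fun p : ℝ × X => φ p.1 p.2) (hφ : ∀ w, MeasurePreserving (φ w) μ μ)
    {g : X → ℝ} (hg : Continuous g) (a : ℝ) (ha : 0 ≤ a) :
    ∫ x, (∫ w in (0 : ℝ)..a, g (φ w x)) ∂μ = a * ∫ x, g x ∂μ := by
  obtain ⟨C, hC⟩ := (isCompact_range hg).isBounded.exists_norm_le
  have hcont : Continuous fun p : X × ℝ => g (φ p.2 p.1) :=
    hg.comp (hφc.comp (continuous_snd.prodMk continuous_fst))
  have hinv : ∀ w, ∫ x, g (φ w x) ∂μ = ∫ x, g x ∂μ := by
    intro w
    have h1 := integral_map (μ := μ) (φ := φ w) (hφ w).aemeasurable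
      (f := g) (by rw [(hφ w).map_eq]; exact hg.measurable.aestronglyMeasurable)
    rw [(hφ w).map_eq] at h1
    exact h1.symm
  have hswap : ∫ x, (∫ w in (0 : ℝ)..a, g (φ w x)) ∂μ =
      ∫ w in (0 : ℝ)..a, (∫ x, g (φ w x) ∂μ) := by
    rw [intervalIntegral.integral_of_le ha]
    simp only [intervalIntegral.integral_of_le ha]
    rw [integral_integral_swap]
    apply Integrable.of_bound hcont.measurable.aestronglyMeasurable C
    exact Eventually.of_forall fun p => hC _ (mem_range_self _)
  rw [hswap]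
  simp only [hinv]
  rw [intervalIntegral.integral_const]
  simp

/-- Common part of `flow_ineq` and `flow_eq`. -/
lemma flow_aux (μ : Measure X) [IsFiniteMeasure μ] (φ : ℝ → X → X)
    (hφc : Continuous fun p : ℝ × X => φ p.1 p.2) (hφ : ∀ w, MeasurePreserving (φ w) μ μ)
    {f : X → ℝ} (hf : Continuous f) (hpos : ∀ x, 0 < f x) (L : ℝ)
    (h : ∀ x, 2 * Real.pi * L ≤ ∫ w in (0 : ℝ)..(2 * Real.pi), Real.log (f (φ w x))) :
    μ.real univ * L ≤ ∫ x, Real.log (f x) ∂μ := by
  have hg : Continuous fun x => Real.log (f x) := hf.log fun x => (hpos x).ne'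
  have h2pi : (0 : ℝ) < 2 * Real.pi := by positivity
  have h1 := integral_orbit μ φ hφc hφ hg (2 * Real.pi) h2pi.le
  have hcont : Continuous fun p : X × ℝ => Real.log (f (φ p.2 p.1)) :=
    hg.comp (hφc.comp (continuous_snd.prodMk continuous_fst))
  have hc2 : Continuous fun x => ∫ w in (0 : ℝ)..(2 * Real.pi), Real.log (f (φ w x)) := by
    apply intervalIntegral.continuous_parametric_intervalIntegral_of_continuous'
    exact hcont
  have h2 : ∫ _x : X, 2 * Real.pi * L ∂μ ≤
      ∫ x, (∫ w in (0 : ℝ)..(2 * Real.pi), Real.log (f (φ w x))) ∂μ :=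
    integral_mono (integrable_const _) (integrable_of_cont μ hc2) h
  rw [h1, integral_const, smul_eq_mul] at h2
  have h3 : 2 * Real.pi * (μ.real univ * L) ≤ 2 * Real.pi * ∫ x, Real.log (f x) ∂μ := by
    linarith
  exact le_of_mul_le_mul_left h3 h2pi

/-- If the mean of `log f` along all orbits of length `2π` is at least `L`, then the mean of `f` is
at least `exp L`. -/
theorem flow_ineq (μ : Measure X) [IsFiniteMeasure μ] (φ : ℝ → X → X)
    (hφc : Continuous fun p : ℝ × X => φ p.1 p.2) (hφ : ∀ w, MeasurePreserving (φ w) μ μ)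
    {f : X → ℝ} (hf : Continuous f) (hpos : ∀ x, 0 < f x) (L : ℝ)
    (h : ∀ x, 2 * Real.pi * L ≤ ∫ w in (0 : ℝ)..(2 * Real.pi), Real.log (f (φ w x))) :
    μ.real univ * Real.exp L ≤ ∫ x, f x ∂μ := by
  have hg : Continuous fun x => Real.log (f x) := hf.log fun x => (hpos x).ne'
  have h1 := flow_aux μ φ hφc hφ hf hpos L h
  have h2 : ∫ x, Real.exp L * (1 + Real.log (f x) - L) ∂μ ≤ ∫ x, f x ∂μ :=
    integral_mono (integrable_of_cont μ (by fun_prop)) (integrable_of_cont μ hf)
      fun x => tangent_log L (f x) (hpos x)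
  have h3 : ∫ x, Real.exp L * (1 + Real.log (f x) - L) ∂μ =
      Real.exp L * (μ.real univ * 1 + ∫ x, Real.log (f x) ∂μ - μ.real univ * L) := by
    rw [integral_const_mul, integral_sub, integral_add, integral_const, integral_const]
    · simp
    · exact integrable_const _
    · exact integrable_of_cont μ hg
    · exact (integrable_const _).add (integrable_of_cont μ hg)
    · exact integrable_const _
  rw [h3] at h2
  have h4 : Real.exp L * (μ.real univ * 1) ≤
      Real.exp L * (μ.real univ * 1 + ∫ x, Real.log (f x) ∂μ - μ.real univ * L) :=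
    mul_le_mul_of_nonneg_left (by linarith) (Real.exp_pos L).le
  linarith

/-- The case of equality in `flow_ineq`. -/
theorem flow_eq (μ : Measure X) [IsFiniteMeasure μ] [μ.IsOpenPosMeasure] (φ : ℝ → X → X)
    (hφc : Continuous fun p : ℝ × X => φ p.1 p.2) (hφ : ∀ w, MeasurePreserving (φ w) μ μ)
    {f : X → ℝ} (hf : Continuous f) (hpos : ∀ x, 0 < f x) (L : ℝ)
    (h : ∀ x, 2 * Real.pi * L ≤ ∫ w in (0 : ℝ)..(2 * Real.pi), Real.log (f (φ w x)))
    (heq : ∫ x, f x ∂μ ≤ μ.real univ * Real.exp L) (x : X) : f x = Real.exp L := by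
  have hg : Continuous fun x => Real.log (f x) := hf.log fun x => (hpos x).ne'
  have h1 := flow_aux μ φ hφc hφ hf hpos L h
  have hcd : Continuous fun x => f x - Real.exp L * (1 + Real.log (f x) - L) := by fun_prop
  have hnn : ∀ x, 0 ≤ f x - Real.exp L * (1 + Real.log (f x) - L) := fun x =>
    sub_nonneg.2 (tangent_log L (f x) (hpos x))
  have h3 : ∫ x, Real.exp L * (1 + Real.log (f x) - L) ∂μ =
      Real.exp L * (μ.real univ * 1 + ∫ x, Real.log (f x) ∂μ - μ.real univ * L) := by
    rw [integral_const_mul, integral_sub, integral_add, integral_const, integral_const]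
    · simp
    · exact integrable_const _
    · exact integrable_of_cont μ hg
    · exact (integrable_const _).add (integrable_of_cont μ hg)
    · exact integrable_const _
  have h4 : Real.exp L * (μ.real univ * 1) ≤
      Real.exp L * (μ.real univ * 1 + ∫ x, Real.log (f x) ∂μ - μ.real univ * L) :=
    mul_le_mul_of_nonneg_left (by linarith) (Real.exp_pos L).le
  have h5 : ∫ x, (f x - Real.exp L * (1 + Real.log (f x) - L)) ∂μ = 0 := by
    apply le_antisymm
    · rw [integral_sub (integrable_of_cont μ hf) (integrable_of_cont μ (by fun_prop)), h3]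
      linarith
    · exact integral_nonneg hnn
  rw [integral_eq_zero_iff_of_nonneg hnn (integrable_of_cont μ hcd)] at h5
  have h6 : (fun x => f x - Real.exp L * (1 + Real.log (f x) - L)) = fun _ => (0 : ℝ) :=
    Continuous.ae_eq_iff_eq μ hcd continuous_const |>.1 h5
  have h7 : f x - Real.exp L * (1 + Real.log (f x) - L) = 0 := congrFun h6 x
  exact tangent_log_eq L (f x) (hpos x) (by linarith)

/-- Integrated form of `flow_ineq`. -/
theorem flow_int (μ : Measure X) [IsFiniteMeasure μ] (φ : ℝ → X → X)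
    (hφc : Continuous fun p : ℝ × X => φ p.1 p.2) (hφ : ∀ w, MeasurePreserving (φ w) μ μ)
    (f : ℝ → X → ℝ) (hf : Continuous fun p : ℝ × X => f p.1 p.2)
    (hpos : ∀ t ∈ Ioo 0 Real.pi, ∀ x, 0 < f t x)
    (m : ℝ → ℝ) (hm : Continuous m) (hmpos : ∀ t ∈ Ioo 0 Real.pi, 0 < m t)
    (h : ∀ t ∈ Ioo 0 Real.pi, ∀ x, 2 * Real.pi * Real.log (m t) ≤
      ∫ w in (0 : ℝ)..(2 * Real.pi), Real.log (f t (φ w x))) :
    μ.real univ * ∫ t in (0 : ℝ)..Real.pi, m t ≤ ∫ t in (0 : ℝ)..Real.pi, ∫ x, f t x ∂μ := by
  have hF : Continuous fun t => ∫ x, f t x ∂μ := by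
    have h0 := continuous_parametric_integral_of_continuous (μ := μ) (f := f) hf (s := univ)
      isCompact_univ
    simpa using h0
  rw [← intervalIntegral.integral_const_mul]
  apply intervalIntegral.integral_mono_on_of_le_Ioo Real.pi_pos.le
  · exact (hm.const_mul _ |>.intervalIntegrable _ _)
  · exact hF.intervalIntegrable _ _
  · intro t ht
    have hft : Continuous (f t) := hf.comp (continuous_const.prodMk continuous_id)
    have h1 := flow_ineq μ φ hφc hφ hft (hpos t ht) (Real.log (m t)) (h t ht)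
    rwa [Real.exp_log (hmpos t ht)] at h1

/-- The case of equality in `flow_int`. -/
theorem flow_int_eq (μ : Measure X) [IsFiniteMeasure μ] [μ.IsOpenPosMeasure] (φ : ℝ → X → X)
    (hφc : Continuous fun p : ℝ × X => φ p.1 p.2) (hφ : ∀ w, MeasurePreserving (φ w) μ μ)
    (f : ℝ → X → ℝ) (hf : Continuous fun p : ℝ × X => f p.1 p.2)
    (hpos : ∀ t ∈ Ioo 0 Real.pi, ∀ x, 0 < f t x)
    (m : ℝ → ℝ) (hm : Continuous m) (hmpos : ∀ t ∈ Ioo 0 Real.pi, 0 < m t)
    (h : ∀ t ∈ Ioo 0 Real.pi, ∀ x, 2 * Real.pi * Real.log (m t) ≤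
      ∫ w in (0 : ℝ)..(2 * Real.pi), Real.log (f t (φ w x)))
    (heq : ∫ t in (0 : ℝ)..Real.pi, ∫ x, f t x ∂μ ≤ μ.real univ * ∫ t in (0 : ℝ)..Real.pi, m t)
    (t : ℝ) (ht : t ∈ Ioo 0 Real.pi) (x : X) : f t x = m t := by
  have hF : Continuous fun t => ∫ x, f t x ∂μ := by
    have h0 := continuous_parametric_integral_of_continuous (μ := μ) (f := f) hf (s := univ)
      isCompact_univ
    simpa using h0
  have hle : ∀ s ∈ Ioo 0 Real.pi, μ.real univ * m s ≤ ∫ x, f s x ∂μ := by
    intro s hs
    have hft : Continuous (f s) := hf.comp (continuous_const.prodMk continuous_id)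
    have h1 := flow_ineq μ φ hφc hφ hft (hpos s hs) (Real.log (m s)) (h s hs)
    rwa [Real.exp_log (hmpos s hs)] at h1
  have hfx : ∫ x, f t x ∂μ ≤ μ.real univ * m t := by
    by_contra hlt
    push Not at hlt
    have hlt' : (∫ s in (0 : ℝ)..Real.pi, μ.real univ * m s) <
        ∫ s in (0 : ℝ)..Real.pi, ∫ x, f s x ∂μ := by
      apply intervalIntegral.integral_lt_integral_of_continuousOn_of_le_of_exists_lt Real.pi_pos
      · exact (hm.const_mul _).continuousOn
      · exact hF.continuousOn
      · intro s hs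
        rcases eq_or_lt_of_le hs.2 with h1 | h1
        · rw [h1]
          refine ContinuousWithinAt.closure_le (s := Ioo 0 Real.pi) (x := Real.pi) ?_
            (hm.const_mul _).continuousWithinAt hF.continuousWithinAt hle
          rw [closure_Ioo Real.pi_pos.ne]
          exact right_mem_Icc.2 Real.pi_pos.le
        · exact hle s ⟨hs.1, h1⟩
      · exact ⟨t, Ioo_subset_Icc_self ht, hlt⟩
    rw [intervalIntegral.integral_const_mul] at hlt'
    exact absurd heq (not_le.2 hlt')
  have hft : Continuous (f t) := hf.comp (continuous_const.prodMk continuous_id)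
  have h2 := flow_eq μ φ hφc hφ hft (hpos t ht) (Real.log (m t)) (h t ht)
    (by rwa [Real.exp_log (hmpos t ht)]) x
  rwa [Real.exp_log (hmpos t ht)] at h2

end flow

end MPbl
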