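import Pool.Agent.Lib.MP_ccbbf6_gt.Base

/-!
# MC: calculus of entrywise derivatives of matrix functions

Everything follows from `HasDerivAt` of sums and products of the entries.
* `MD.mul`: `(M K) i j = ∑ l, M i l * K l j` (`HasDerivAt.fun_sum`, `HasDerivAt.mul`).
* `cont_det`, `cont_inv`: `Matrix.det`, `Matrix.adjugate` are continuous (`Continuous.matrix_det`, `Continuous.matrix_adjugate`,
  or `ContinuousAt` versions through `Matrix.det_apply`); `M⁻¹ = (det M)⁻¹ • adjugate M` (`Matrix.inv_def`, `Ring.inverse_eq_inv'`).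
* `MD.inv`: the entries of `adjugate` and `det` are differentiable (polynomials in the entries: `Matrix.det_apply`, `Matrix.adjugate_apply`,
  `DifferentiableAt.fun_finset_prod` ...), hence so are the entries of `M⁻¹`; let `K'` be the matrix of their derivatives; differentiate
  `M⁻¹ M = 1` (valid near `x` because `det ≠ 0` is open): `K' M + M⁻¹ M' = 0`, so `K' = - M⁻¹ M' M⁻¹`.
* `MD.const_of_zero`: each entry has derivative `0` (`is_const_of_deriv_eq_zero`), on an interval use the mean value theorem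
  (`Convex.is_const_of_fderivWithin_eq_zero` or `constant_of_derivWithin_zero` or `exists_hasDerivAt_eq_slope`).
-/

open Matrix Set Filter Topology
open scoped Real

namespace BL

variable {m n k : Type*}

theorem MD.const (M : Matrix m n ℝ) (x : ℝ) : MD (fun _ => M) 0 x := by
  intro i j
  exact hasDerivAt_const x (M i j)

theorem MD.add {M K : ℝ → Matrix m n ℝ} {M' K' : Matrix m n ℝ} {x : ℝ} (h1 : MD M M' x) (h2 : MD K K' x) :
    MD (fun y => M y + K y) (M' + K') x := by
  intro i j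
  exact (h1 i j).add (h2 i j)

theorem MD.sub {M K : ℝ → Matrix m n ℝ} {M' K' : Matrix m n ℝ} {x : ℝ} (h1 : MD M M' x) (h2 : MD K K' x) :
    MD (fun y => M y - K y) (M' - K') x := by
  intro i j
  exact (h1 i j).sub (h2 i j)

theorem MD.neg {M : ℝ → Matrix m n ℝ} {M' : Matrix m n ℝ} {x : ℝ} (h1 : MD M M' x) :
    MD (fun y => -M y) (-M') x := by
  intro i j
  exact (h1 i j).neg

theorem MD.smul {f : ℝ → ℝ} {f' : ℝ} {M : ℝ → Matrix m n ℝ} {M' : Matrix m n ℝ} {x : ℝ}
    (hf : HasDerivAt f f' x) (h1 : MD M M' x) :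
    MD (fun y => f y • M y) (f' • M x + f x • M') x := by
  intro i j
  exact hf.mul (h1 i j)

theorem MD.transpose {M : ℝ → Matrix m n ℝ} {M' : Matrix m n ℝ} {x : ℝ} (h1 : MD M M' x) :
    MD (fun y => (M y)ᵀ) M'ᵀ x := by
  intro i j
  exact h1 j i

theorem MD.mul [Fintype n] {M : ℝ → Matrix m n ℝ} {K : ℝ → Matrix n k ℝ} {M' : Matrix m n ℝ} {K' : Matrix n k ℝ}
    {x : ℝ} (h1 : MD M M' x) (h2 : MD K K' x) :
    MD (fun y => M y * K y) (M' * K x + M x * K') x := by
  intro i j
  have h : HasDerivAt (fun y => ∑ l, M y i l * K y l j) (∑ l, (M' i l * K x l j + M x i l * K' l j)) x :=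
    HasDerivAt.fun_sum fun l _ => (h1 i l).mul (h2 l j)
  simpa [Matrix.mul_apply, Matrix.add_apply, Finset.sum_add_distrib] using h

theorem MD.const_mul [Fintype n] (P : Matrix m n ℝ) {K : ℝ → Matrix n k ℝ} {K' : Matrix n k ℝ}
    {x : ℝ} (h2 : MD K K' x) : MD (fun y => P * K y) (P * K') x := by
  have h := MD.mul (MD.const P x) h2
  simpa using h

theorem MD.mul_const [Fintype n] {M : ℝ → Matrix m n ℝ} {M' : Matrix m n ℝ} (P : Matrix n k ℝ)
    {x : ℝ} (h1 : MD M M' x) : MD (fun y => M y * P) (M' * P) x := by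
  have h := MD.mul h1 (MD.const P x)
  simpa using h

theorem MD.submatrix {m' n' : Type*} {M : ℝ → Matrix m n ℝ} {M' : Matrix m n ℝ} {x : ℝ} (f : m' → m) (g : n' → n)
    (h1 : MD M M' x) : MD (fun y => (M y).submatrix f g) (M'.submatrix f g) x := by
  intro i j
  exact h1 (f i) (g j)

/-- translation of the variable -/
theorem MD.comp_add {M : ℝ → Matrix m n ℝ} {M' : Matrix m n ℝ} {x : ℝ} (c : ℝ) (h1 : MD M M' (x + c)) :
    MD (fun y => M (y + c)) M' x := by
  intro i j
  exact (h1 i j).comp_add_const x c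

theorem MD.continuousAt {M : ℝ → Matrix m n ℝ} {M' : Matrix m n ℝ} {x : ℝ} (h1 : MD M M' x) : ContinuousAt M x := by
  refine continuousAt_pi.2 fun i => continuousAt_pi.2 fun j => (h1 i j).continuousAt

theorem MD.unique {M : ℝ → Matrix m n ℝ} {M' M'' : Matrix m n ℝ} {x : ℝ} (h1 : MD M M' x) (h2 : MD M M'' x) :
    M' = M'' := by
  ext i j
  exact (h1 i j).unique (h2 i j)

theorem MD.congr {M K : ℝ → Matrix m n ℝ} {M' : Matrix m n ℝ} {x : ℝ} (h1 : MD M M' x) (h2 : K =ᶠ[𝓝 x] M) :
    MD K M' x := by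
  intro i j
  refine (h1 i j).congr_of_eventuallyEq ?_
  filter_upwards [h2] with y hy
  rw [hy]

theorem MD.quad [Fintype m] [Fintype n] {M : ℝ → Matrix m n ℝ} {M' : Matrix m n ℝ} {x : ℝ} (u : m → ℝ) (v : n → ℝ)
    (h1 : MD M M' x) : HasDerivAt (fun y => u ⬝ᵥ (M y *ᵥ v)) (u ⬝ᵥ (M' *ᵥ v)) x := by
  have h : HasDerivAt (fun y => ∑ i, u i * ∑ j, M y i j * v j) (∑ i, u i * ∑ j, M' i j * v j) x :=
    HasDerivAt.fun_sum fun i _ => (HasDerivAt.fun_sum fun j _ => (h1 i j).mul_const (v j)).const_mul (u i)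
  exact h

theorem cont_det [Fintype n] [DecidableEq n] {M : ℝ → Matrix n n ℝ} {x : ℝ} (h : ContinuousAt M x) :
    ContinuousAt (fun y => (M y).det) x := by
  have h1 : Continuous fun N : Matrix n n ℝ => N.det := continuous_id.matrix_det
  exact h1.continuousAt.comp h

theorem cont_inv [Fintype n] [DecidableEq n] {M : ℝ → Matrix n n ℝ} {x : ℝ} (h : ContinuousAt M x)
    (hd : (M x).det ≠ 0) : ContinuousAt (fun y => (M y)⁻¹) x := by
  have h1 : ContinuousAt (fun y => ((M y).det)⁻¹ • (M y).adjugate) x := by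
    have h2 : Continuous fun N : Matrix n n ℝ => N.adjugate := continuous_id.matrix_adjugate
    exact ((cont_det h).inv₀ hd).smul (h2.continuousAt.comp h)
  have h3 : (fun y => (M y)⁻¹) = fun y => ((M y).det)⁻¹ • (M y).adjugate := by
    funext y
    rw [Matrix.inv_def, Ring.inverse_eq_inv']
  rw [h3]
  exact h1

theorem mc_diff_det [Fintype n] [DecidableEq n] {M : ℝ → Matrix n n ℝ} {x : ℝ}
    (h : ∀ i j, DifferentiableAt ℝ (fun y => M y i j) x) : DifferentiableAt ℝ (fun y => (M y).det) x := by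
  have h1 : (fun y => (M y).det) = fun y => ∑ σ : Equiv.Perm n, ((Equiv.Perm.sign σ : ℤ) : ℝ) * ∏ i, M y (σ i) i := by
    funext y
    rw [Matrix.det_apply']
  rw [h1]
  refine DifferentiableAt.fun_sum fun σ _ => DifferentiableAt.const_mul ?_ _
  exact DifferentiableAt.fun_finsetProd fun i _ => h _ _

theorem MD.inv [Fintype n] [DecidableEq n] {M : ℝ → Matrix n n ℝ} {M' : Matrix n n ℝ} {x : ℝ} (h1 : MD M M' x)
    (hd : (M x).det ≠ 0) : MD (fun y => (M y)⁻¹) (-((M x)⁻¹ * M' * (M x)⁻¹)) x := by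
  -- differentiability of the entries of the inverse
  have hdet : DifferentiableAt ℝ (fun y => (M y).det) x := mc_diff_det fun i j => (h1 i j).differentiableAt
  have hinv : ∀ i j, DifferentiableAt ℝ (fun y => (M y)⁻¹ i j) x := by
    intro i j
    have h3 : (fun y => (M y)⁻¹ i j) = fun y => ((M y).det)⁻¹ * (M y).adjugate i j := by
      funext y
      rw [Matrix.inv_def, Ring.inverse_eq_inv']
      rfl
    rw [h3]
    refine (hdet.inv hd).mul ?_
    have h4 : (fun y => (M y).adjugate i j) = fun y => ((M y).updateRow j (Pi.single i 1)).det := by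
      funext y
      rw [Matrix.adjugate_apply]
    rw [h4]
    refine mc_diff_det fun k l => ?_
    by_cases hk : k = j
    · subst hk
      simp only [Matrix.updateRow_self]
      exact differentiableAt_const _
    · simp only [Matrix.updateRow_ne hk]
      exact (h1 k l).differentiableAt
  -- the matrix of derivatives
  let K' : Matrix n n ℝ := fun i j => deriv (fun y => (M y)⁻¹ i j) x
  have hK : MD (fun y => (M y)⁻¹) K' x := fun i j => (hinv i j).hasDerivAt
  have h5 := MD.mul hK h1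
  have hev : ∀ᶠ y in 𝓝 x, (M y).det ≠ 0 := hdet.continuousAt.eventually_ne hd
  have h6 : MD (fun y => (M y)⁻¹ * M y) 0 x := by
    refine MD.congr (MD.const 1 x) ?_
    filter_upwards [hev] with y hy
    exact Matrix.nonsing_inv_mul _ (isUnit_iff_ne_zero.2 hy)
  have h7 := MD.unique h5 h6
  have hu : IsUnit (M x).det := isUnit_iff_ne_zero.2 hd
  have h8 : K' = -((M x)⁻¹ * M' * (M x)⁻¹) := by
    have h9 : K' * M x = -((M x)⁻¹ * M') := eq_neg_of_add_eq_zero_left h7
    calc K' = K' * (M x * (M x)⁻¹) := by rw [Matrix.mul_nonsing_inv _ hu, Matrix.mul_one]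
      _ = (K' * M x) * (M x)⁻¹ := by rw [Matrix.mul_assoc]
      _ = -((M x)⁻¹ * M' * (M x)⁻¹) := by rw [h9, Matrix.neg_mul]
  rw [← h8]
  exact hK

theorem MD.const_of_zero {M : ℝ → Matrix m n ℝ} (h : ∀ x, MD M 0 x) (x y : ℝ) : M x = M y := by
  ext i j
  exact is_const_of_deriv_eq_zero (fun z => (h z i j).differentiableAt) (fun z => (h z i j).deriv) x y

theorem MD.const_of_zero_Ioo {M : ℝ → Matrix m n ℝ} {α β : ℝ} (h : ∀ x ∈ Ioo α β, MD M 0 x) :
    ∀ x ∈ Ioo α β, ∀ y ∈ Ioo α β, M x = M y := by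
  intro x hx y hy
  ext i j
  have hd : DifferentiableOn ℝ (fun z => M z i j) (Ioo α β) := fun z hz =>
    (h z hz i j).differentiableAt.differentiableWithinAt
  have h0 : EqOn (deriv (fun z => M z i j)) 0 (Ioo α β) := fun z hz => (h z hz i j).deriv
  exact (isOpen_Ioo).is_const_of_deriv_eq_zero (convex_Ioo α β).isPreconnected hd h0 hx hy

end BL
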