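import Pool.Agent.Lib.MP_ccbbf6_gt.SymA

/-!
The equality case of Theorem 1 gives `ExpData`: the polar form of the metric is even in the
direction.
-/

open MeasureTheory Set Filter Topology Manifold ContDiff Module Bundle
open scoped ENNReal NNReal

namespace MPbl

/-- The directions `w ⊥ v` in which `e` is critical at `π v`. -/
noncomputable def kerAt (E : Type*) [NormedAddCommGroup E] [NormedSpace ℝ E]
    {M : Type*} [TopologicalSpace M] [ChartedSpace E M]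
    {V : Type*} [NormedAddCommGroup V] [InnerProductSpace ℝ V]
    (e : V → M) (v : V) : Submodule ℝ V :=
  (Submodule.span ℝ {v})ᗮ ⊓
    LinearMap.ker (show V →ₗ[ℝ] E from (mfderiv 𝓘(ℝ, V) 𝓘(ℝ, E) e (Real.pi • v)).toLinearMap)

/-- The polar form of the metric in the equality case. -/
structure PolarData (E : Type*) [NormedAddCommGroup E] [NormedSpace ℝ E] [FiniteDimensional ℝ E]
    {M : Type*} [MetricSpace M] [ChartedSpace E M]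
    [RiemannianBundle (fun x : M => TangentSpace 𝓘(ℝ, E) x)]
    {V : Type*} [NormedAddCommGroup V] [InnerProductSpace ℝ V] [FiniteDimensional ℝ V]
    (p : M) (e : V → M) : Prop where
  smooth : ContMDiff 𝓘(ℝ, V) 𝓘(ℝ, E) 1 e
  surj : ∀ q, ∃ ξ : V, ‖ξ‖ ≤ Real.pi ∧ e ξ = q
  dist_e : ∀ ξ : V, ‖ξ‖ ≤ Real.pi → dist p (e ξ) = ‖ξ‖
  inj : ∀ ξ ξ' : V, ‖ξ‖ < Real.pi → ‖ξ'‖ < Real.pi → e ξ = e ξ' → ξ = ξ'
  cut : ∀ v : V, ‖v‖ = 1 → e (-(Real.pi • v)) = e (Real.pi • v)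
  dim : finrank ℝ V = finrank ℝ E
  der_zero : Function.Injective (mfderiv 𝓘(ℝ, V) 𝓘(ℝ, E) e 0)
  gauss : ∀ v : V, ‖v‖ = 1 → ∀ t : ℝ, 0 < t → t < Real.pi → ∀ η : V,
    inner ℝ (mfderiv 𝓘(ℝ, V) 𝓘(ℝ, E) e (t • v) v) (mfderiv 𝓘(ℝ, V) 𝓘(ℝ, E) e (t • v) η) =
      inner ℝ v η
  polar : ∀ v : V, ‖v‖ = 1 → ∀ t : ℝ, 0 < t → t < Real.pi → ∀ w : V, inner ℝ v w = 0 →
    t ^ 2 * ‖mfderiv 𝓘(ℝ, V) 𝓘(ℝ, E) e (t • v) w‖ ^ 2 =
      Real.sin t ^ 2 * ‖(kerAt E e v).starProjection w‖ ^ 2 +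
        4 * Real.sin (t / 2) ^ 2 * ‖w - (kerAt E e v).starProjection w‖ ^ 2

variable {E : Type*} [NormedAddCommGroup E] [NormedSpace ℝ E] [FiniteDimensional ℝ E]
  {M : Type*} [MetricSpace M] [ChartedSpace E M]
  [RiemannianBundle (fun x : M => TangentSpace 𝓘(ℝ, E) x)]
  {V : Type*} [NormedAddCommGroup V] [InnerProductSpace ℝ V] [FiniteDimensional ℝ V]
  {p : M} {e : V → M}

/-- Pythagoras. -/
lemma norm_sq_aux {V F : Type*} [NormedAddCommGroup V] [InnerProductSpace ℝ V]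
    [NormedAddCommGroup F] [InnerProductSpace ℝ F] (L : V →L[ℝ] F) {v : V} (hv : ‖v‖ = 1)
    (hL : ∀ η, inner ℝ (L v) (L η) = inner ℝ v η) (η : V) :
    ‖L η‖ ^ 2 = inner ℝ v η ^ 2 + ‖L (η - inner ℝ v η • v)‖ ^ 2 := by
  set α : ℝ := inner ℝ v η with hα
  set w : V := η - α • v with hw
  have hvv : inner ℝ v v = (1 : ℝ) := by rw [real_inner_self_eq_norm_sq, hv]; norm_num
  have hvw : inner ℝ v w = (0 : ℝ) := by
    rw [hw, inner_sub_right, inner_smul_right, hvv, ← hα]; ring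
  have hη : η = α • v + w := by rw [hw]; abel
  have h1 : L η = α • L v + L w := by
    conv_lhs => rw [hη]
    rw [map_add, map_smul]
  have h2 := hL v
  have h3 := hL w
  rw [hvv, real_inner_self_eq_norm_sq] at h2
  rw [hvw] at h3
  rw [h1, norm_add_sq_real, norm_smul, inner_smul_left, h3, mul_pow, h2]
  simp

omit [FiniteDimensional ℝ E] [FiniteDimensional ℝ V]
  [RiemannianBundle (fun x : M => TangentSpace 𝓘(ℝ, E) x)] in
/-- The derivative of `e` along a curve. -/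
lemma mfderiv_curve {e : V → M} {f : ℝ → V} {f' y : V} (he : MDifferentiableAt 𝓘(ℝ, V) 𝓘(ℝ, E) e y)
    (hf : HasDerivAt f f' 0) (hy : f 0 = y) :
    @Eq E (mfderiv 𝓘(ℝ, ℝ) 𝓘(ℝ, E) (e ∘ f) 0 (1 : ℝ)) (mfderiv 𝓘(ℝ, V) 𝓘(ℝ, E) e y f') := by
  have hfm : MDifferentiableAt 𝓘(ℝ, ℝ) 𝓘(ℝ, V) f 0 := hf.differentiableAt.mdifferentiableAt
  have h1 := mfderiv_comp_apply_of_eq (x := (0 : ℝ)) (f := f) (g := e) (I := 𝓘(ℝ, ℝ))
    (I' := 𝓘(ℝ, V)) (I'' := 𝓘(ℝ, E)) he hfm hy (1 : ℝ)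
  have h2 : mfderiv 𝓘(ℝ, ℝ) 𝓘(ℝ, V) f 0 (1 : ℝ) = f' := by
    rw [mfderiv_eq_fderiv, hf.hasFDerivAt.fderiv]
    exact (ContinuousLinearMap.toSpanSingleton_apply_one ℝ f')
  refine Eq.trans h1 ?_
  rw [h2]

omit [FiniteDimensional ℝ E] [FiniteDimensional ℝ V]
  [RiemannianBundle (fun x : M => TangentSpace 𝓘(ℝ, E) x)] in
lemma der_cut (he : ContMDiff 𝓘(ℝ, V) 𝓘(ℝ, E) 1 e)
    (hcut : ∀ v : V, ‖v‖ = 1 → e (-(Real.pi • v)) = e (Real.pi • v)) {v u : V} (hv : ‖v‖ = 1)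
    (hu : ‖u‖ = 1) (hvu : inner ℝ v u = (0 : ℝ)) :
    @Eq E (mfderiv 𝓘(ℝ, V) 𝓘(ℝ, E) e (-(Real.pi • v)) u)
      (-(show E from mfderiv 𝓘(ℝ, V) 𝓘(ℝ, E) e (Real.pi • v) u)) := by
  have hed : ∀ ξ : V, MDifferentiableAt 𝓘(ℝ, V) 𝓘(ℝ, E) e ξ := fun ξ =>
    he.contMDiffAt.mdifferentiableAt one_ne_zero
  let c : ℝ → V := fun τ => Real.cos τ • v + Real.sin τ • u
  have hc : ∀ τ, ‖c τ‖ = 1 := by
    intro τ
    have h1 : ‖c τ‖ ^ 2 = 1 := by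
      simp only [c]
      rw [norm_add_sq_real, inner_smul_left, inner_smul_right, hvu, norm_smul, norm_smul, hv, hu]
      simp
    have h2 : (0 : ℝ) ≤ ‖c τ‖ := norm_nonneg _
    nlinarith
  have hcd : HasDerivAt c u 0 := by
    have h1 : HasDerivAt c ((-Real.sin 0) • v + Real.cos 0 • u) 0 :=
      ((Real.hasDerivAt_cos 0).smul_const v).add ((Real.hasDerivAt_sin 0).smul_const u)
    rw [Real.sin_zero, Real.cos_zero, neg_zero, zero_smul, zero_add, one_smul] at h1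
    exact h1
  have h1 := mfderiv_curve (E := E) (hed (Real.pi • v)) (hcd.const_smul Real.pi) (by simp [c])
  have h2 := mfderiv_curve (E := E) (hed (-(Real.pi • v))) (hcd.const_smul Real.pi).neg
    (by simp [c])
  have h3 : (e ∘ (-(Real.pi • c))) = e ∘ (Real.pi • c) := by
    funext τ
    exact hcut _ (hc τ)
  have h4 : @Eq E (mfderiv 𝓘(ℝ, ℝ) 𝓘(ℝ, E) (e ∘ (-(Real.pi • c))) 0 (1 : ℝ))
      (mfderiv 𝓘(ℝ, ℝ) 𝓘(ℝ, E) (e ∘ (Real.pi • c)) 0 (1 : ℝ)) := by rw [h3]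
  have h5 := (h2.symm.trans h4).trans h1
  have h6 : ∀ L₁ L₂ : V →L[ℝ] E, L₂ (-(Real.pi • u)) = L₁ (Real.pi • u) → L₂ u = -(L₁ u) := by
    intro L₁ L₂ h
    rw [map_neg, map_smul, map_smul] at h
    have h7 : Real.pi • (L₂ u) = Real.pi • (-(L₁ u)) := by
      rw [smul_neg, ← h, neg_neg]
    exact smul_right_injective E Real.pi_ne_zero h7
  exact h6 (mfderiv 𝓘(ℝ, V) 𝓘(ℝ, E) e (Real.pi • v))
    (mfderiv 𝓘(ℝ, V) 𝓘(ℝ, E) e (-(Real.pi • v))) h5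

omit [FiniteDimensional ℝ E] [RiemannianBundle fun x : M => TangentSpace 𝓘(ℝ, E) x]
  [FiniteDimensional ℝ V] in
lemma mem_kerAt {e : V → M} {v w : V} : w ∈ kerAt E e v ↔
    inner ℝ v w = (0 : ℝ) ∧ @Eq E (mfderiv 𝓘(ℝ, V) 𝓘(ℝ, E) e (Real.pi • v) w) 0 := by
  unfold kerAt
  rw [Submodule.mem_inf, Submodule.mem_orthogonal_singleton_iff_inner_right]
  exact Iff.rfl

omit [FiniteDimensional ℝ E] [RiemannianBundle fun x : M => TangentSpace 𝓘(ℝ, E) x]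
  [FiniteDimensional ℝ V] in
lemma kerAt_neg_le (he : ContMDiff 𝓘(ℝ, V) 𝓘(ℝ, E) 1 e)
    (hcut : ∀ v : V, ‖v‖ = 1 → e (-(Real.pi • v)) = e (Real.pi • v)) {v : V} (hv : ‖v‖ = 1) :
    kerAt E e v ≤ kerAt E e (-v) := by
  intro w hw
  rw [mem_kerAt] at hw ⊢
  obtain ⟨h1, h2⟩ := hw
  refine ⟨by rw [inner_neg_left, h1, neg_zero], ?_⟩
  rw [smul_neg]
  by_cases hw0 : w = 0
  · rw [hw0]
    exact map_zero (mfderiv 𝓘(ℝ, V) 𝓘(ℝ, E) e (-(Real.pi • v)))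
  have hwn : ‖w‖ ≠ 0 := norm_ne_zero_iff.2 hw0
  have h3 : ‖‖w‖⁻¹ • w‖ = 1 := by
    rw [norm_smul, norm_inv, norm_norm, inv_mul_cancel₀ hwn]
  have h4 := der_cut (E := E) he hcut hv h3 (by rw [inner_smul_right, h1, mul_zero])
  have h6 : ∀ L₁ L₂ : V →L[ℝ] E, L₂ (‖w‖⁻¹ • w) = -(L₁ (‖w‖⁻¹ • w)) → L₁ w = 0 → L₂ w = 0 := by
    intro L₁ L₂ h h'
    rw [map_smul, map_smul, h', smul_zero, neg_zero, smul_eq_zero] at h
    exact h.resolve_left (inv_ne_zero hwn)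
  exact h6 (mfderiv 𝓘(ℝ, V) 𝓘(ℝ, E) e (Real.pi • v))
    (mfderiv 𝓘(ℝ, V) 𝓘(ℝ, E) e (-(Real.pi • v))) h4 h2

omit [FiniteDimensional ℝ E] [RiemannianBundle fun x : M => TangentSpace 𝓘(ℝ, E) x]
  [FiniteDimensional ℝ V] in
lemma kerAt_neg (he : ContMDiff 𝓘(ℝ, V) 𝓘(ℝ, E) 1 e)
    (hcut : ∀ v : V, ‖v‖ = 1 → e (-(Real.pi • v)) = e (Real.pi • v)) {v : V} (hv : ‖v‖ = 1) :
    kerAt E e (-v) = kerAt E e v := by
  refine le_antisymm ?_ (kerAt_neg_le he hcut hv)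
  have := kerAt_neg_le (E := E) he hcut (v := -v) (by rwa [norm_neg])
  rwa [neg_neg] at this

namespace PolarData

/-- Norm of the derivative in polar coordinates. -/
lemma norm_sq (h : PolarData E p e) {v : V} (hv : ‖v‖ = 1) {t : ℝ} (ht : 0 < t)
    (ht' : t < Real.pi) (η : V) :
    t ^ 2 * ‖mfderiv 𝓘(ℝ, V) 𝓘(ℝ, E) e (t • v) η‖ ^ 2 =
      t ^ 2 * inner ℝ v η ^ 2 +
      (Real.sin t ^ 2 * ‖(kerAt E e v).starProjection (η - inner ℝ v η • v)‖ ^ 2 +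
        4 * Real.sin (t / 2) ^ 2 *
          ‖(η - inner ℝ v η • v) - (kerAt E e v).starProjection (η - inner ℝ v η • v)‖ ^ 2) := by
  have hvv : inner ℝ v v = (1 : ℝ) := by rw [real_inner_self_eq_norm_sq, hv]; norm_num
  have hvw : inner ℝ v (η - inner ℝ v η • v) = (0 : ℝ) := by
    rw [inner_sub_right, inner_smul_right, hvv]; ring
  rw [← h.polar v hv t ht ht' _ hvw, ← mul_add]
  congr 1
  exact norm_sq_aux (V := V) (F := TangentSpace 𝓘(ℝ, E) (e (t • v)))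
    (mfderiv 𝓘(ℝ, V) 𝓘(ℝ, E) e (t • v)) hv (h.gauss v hv t ht ht') η

/-- The polar form is even. -/
lemma norm_sq_neg (h : PolarData E p e) {v : V} (hv : ‖v‖ = 1) {t : ℝ} (ht : 0 < t)
    (ht' : t < Real.pi) (η : V) :
    ‖mfderiv 𝓘(ℝ, V) 𝓘(ℝ, E) e (t • (-v)) η‖ ^ 2 = ‖mfderiv 𝓘(ℝ, V) 𝓘(ℝ, E) e (t • v) η‖ ^ 2 := by
  have h1 := h.norm_sq hv ht ht' η
  have h2 := h.norm_sq (v := -v) (by rwa [norm_neg]) ht ht' η
  have h3 : η - inner ℝ (-v) η • (-v) = η - inner ℝ v η • v := by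
    rw [inner_neg_left, neg_smul_neg]
  rw [h3, kerAt_neg h.smooth h.cut hv, inner_neg_left, neg_sq, ← h1] at h2
  exact mul_left_cancel₀ (pow_ne_zero 2 ht.ne') h2

lemma eq_zero_of_der (h : PolarData E p e) {v : V} (hv : ‖v‖ = 1) {t : ℝ} (ht : 0 < t)
    (ht' : t < Real.pi) (η : V) (hη : mfderiv 𝓘(ℝ, V) 𝓘(ℝ, E) e (t • v) η = 0) : η = 0 := by
  have h1 := h.norm_sq hv ht ht' η
  rw [hη, norm_zero] at h1
  have hs : 0 < Real.sin t := Real.sin_pos_of_pos_of_lt_pi ht ht'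
  have hs' : 0 < Real.sin (t / 2) := Real.sin_pos_of_pos_of_lt_pi (by linarith)
    (by linarith [Real.pi_pos])
  set α : ℝ := inner ℝ v η with hα
  set w : V := η - α • v with hw
  set P := (kerAt E e v).starProjection with hP
  have h2 : 0 ≤ t ^ 2 * α ^ 2 := by positivity
  have h3 : 0 ≤ Real.sin t ^ 2 * ‖P w‖ ^ 2 := by positivity
  have h4 : 0 ≤ 4 * Real.sin (t / 2) ^ 2 * ‖w - P w‖ ^ 2 := by positivity
  have h5 : t ^ 2 * α ^ 2 = 0 := by nlinarith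
  have h6 : Real.sin t ^ 2 * ‖P w‖ ^ 2 = 0 := by nlinarith
  have h7 : 4 * Real.sin (t / 2) ^ 2 * ‖w - P w‖ ^ 2 = 0 := by nlinarith
  have h8 : α = 0 := by
    rcases mul_eq_zero.1 h5 with h | h
    · exact absurd h (by positivity)
    · exact pow_eq_zero_iff (two_ne_zero) |>.1 h
  have h9 : P w = 0 := by
    rcases mul_eq_zero.1 h6 with h | h
    · exact absurd h (by positivity)
    · exact norm_eq_zero.1 (pow_eq_zero_iff (two_ne_zero) |>.1 h)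
  have h10 : w - P w = 0 := by
    rcases mul_eq_zero.1 h7 with h | h
    · exact absurd h (by positivity)
    · exact norm_eq_zero.1 (pow_eq_zero_iff (two_ne_zero) |>.1 h)
  have h11 : w = 0 := by rw [h9, sub_zero] at h10; exact h10
  have h12 : η = w + α • v := by rw [hw]; abel
  rw [h12, h11, h8, zero_smul, add_zero]

lemma der (h : PolarData E p e) {v : V} (hv : ‖v‖ = 1) {t : ℝ} (ht : 0 < t)
    (ht' : t < Real.pi) : Function.Injective (mfderiv 𝓘(ℝ, V) 𝓘(ℝ, E) e (t • v)) :=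
  (injective_iff_map_eq_zero _).2 (h.eq_zero_of_der hv ht ht')

theorem expData (h : PolarData E p e) : ExpData E p e where
  smooth := h.smooth
  surj := h.surj
  dist_e := h.dist_e
  inj := h.inj
  dim := h.dim
  cut := by
    intro ξ hξ
    have h1 : ‖Real.pi⁻¹ • ξ‖ = 1 := by
      rw [norm_smul, hξ, norm_inv, Real.norm_of_nonneg Real.pi_pos.le,
        inv_mul_cancel₀ Real.pi_ne_zero]
    have h2 := h.cut _ h1
    rwa [smul_smul, mul_inv_cancel₀ Real.pi_ne_zero, one_smul] at h2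
  der := by
    intro ξ hξ
    by_cases h0 : ξ = 0
    · rw [h0]; exact h.der_zero
    · have h1 : 0 < ‖ξ‖ := norm_pos_iff.2 h0
      have h2 : ‖‖ξ‖⁻¹ • ξ‖ = 1 := by
        rw [norm_smul, norm_inv, norm_norm, inv_mul_cancel₀ h1.ne']
      have h3 := h.der h2 h1 hξ
      rwa [smul_smul, mul_inv_cancel₀ h1.ne', one_smul] at h3
  iso := by
    intro ξ hξ η
    by_cases h0 : ξ = 0
    · rw [h0, neg_zero]
    · have h1 : 0 < ‖ξ‖ := norm_pos_iff.2 h0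
      have h2 : ‖‖ξ‖⁻¹ • ξ‖ = 1 := by
        rw [norm_smul, norm_inv, norm_norm, inv_mul_cancel₀ h1.ne']
      have h3 := h.norm_sq_neg h2 h1 hξ η
      rw [smul_neg, smul_smul, mul_inv_cancel₀ h1.ne', one_smul] at h3
      have h4 : ‖mfderiv 𝓘(ℝ, V) 𝓘(ℝ, E) e (-ξ) η‖ = ‖mfderiv 𝓘(ℝ, V) 𝓘(ℝ, E) e ξ η‖ :=
        (sq_eq_sq₀ (norm_nonneg _) (norm_nonneg _)).1 h3
      rw [← ofReal_norm, ← ofReal_norm, h4]

end PolarData

/-- Metric geodesics through `p`: the symmetry reverses them. -/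
theorem ExpData.exists_symmetry [IsRiemannianManifold 𝓘(ℝ, E) M] (h : ExpData E p e)
    (hray : ∀ v : V, ‖v‖ = 1 → ∀ s t : ℝ, |s - t| ≤ Real.pi →
      dist (e (s • v)) (e (t • v)) = |s - t|) :
    ∃ s : M ≃ᵢ M, s p = p ∧ (∀ q, s (s q) = q) ∧
      (∀ ξ : V, ‖ξ‖ ≤ Real.pi → s (e ξ) = e (-ξ)) ∧
      ∀ x, dist p x ≤ Real.pi / 2 → dist x (s x) = 2 * dist p x := by
  obtain ⟨s, hs1, hs2, hs3⟩ := h.exists_isometry
  refine ⟨s, hs1, hs2, hs3, fun x hx => ?_⟩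
  obtain ⟨ξ, hξ, rfl⟩ := h.surj x
  rw [h.dist_e ξ hξ] at hx ⊢
  rw [hs3 ξ hξ]
  by_cases h0 : ξ = 0
  · rw [h0, neg_zero, dist_self, norm_zero, mul_zero]
  have h1 : 0 < ‖ξ‖ := norm_pos_iff.2 h0
  have h2 : ‖‖ξ‖⁻¹ • ξ‖ = 1 := by
    rw [norm_smul, norm_inv, norm_norm, inv_mul_cancel₀ h1.ne']
  have h3 := hray _ h2 ‖ξ‖ (-‖ξ‖) (by
    rw [sub_neg_eq_add, abs_of_nonneg (by positivity)]
    linarith)
  rw [neg_smul, smul_smul, mul_inv_cancel₀ h1.ne', one_smul, sub_neg_eq_add,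
    abs_of_nonneg (by positivity)] at h3
  rw [h3]
  ring

end MPbl
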