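import Pool.Agent.Lib.MP_ccbbf6_gt.ML

/-!
# LD: tangent inequality for log det and the Jensen inequality

* `logdet_tangent`: write `M = Bᵀ B` with `B` invertible (`Matrix.PosDef` / `CStarAlgebra`, e.g. `Matrix.posSemidef_iff_eq_conjTranspose_mul_self`,
  or `B` = square root), `X = (B⁻¹)ᵀ C B⁻¹` is positive definite, `det X = det C / det M`, `tr X = tr (M⁻¹ C)` (`trace_mul_comm`); for a positive
  definite `X` with eigenvalues `e i > 0`: `log det X = ∑ log (e i) ≤ ∑ (e i - 1) = tr X - k` (`IsHermitian.det_eq_prod_eigenvalues`,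
  `trace_eq_sum_eigenvalues`, `Real.log_le_sub_one_of_pos`), with equality only if all `e i = 1` (`Real.log_lt_sub_one_of_pos`), i.e. `X = 1`, `C = M`.
* `trace_le`: `M⁻¹ = ∑ i, l i • u i (u i)ᵀ`, `l i > 0` (spectral theorem) or `M⁻¹ = K Kᵀ`, `tr (M⁻¹ C) = ∑ i, (K e i) ⬝ᵥ C (K e i)`; integrate: `≤ ∑ i, (K e i) ⬝ᵥ M (K e i)
  = tr (M⁻¹ M) = k`.
* `logdet_jensen`: for every `x`, `ρ (log det C - k log ρ) = ρ log det (ρ⁻¹ • C) ≤ ρ log det M + tr (M⁻¹ C) - k ρ` (`det_smul`); integrate over `[α, β]`, `∫ ρ = 1`,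
  `∫ tr (M⁻¹ C) ≤ k` (`trace_le`).  Equality: the nonnegative continuous function (right - left) has integral `≤ 0`, so it vanishes on `[α, β]`
  and `ρ⁻¹ • C = M` (equality case of `logdet_tangent`).
-/

open Matrix Set Filter Topology
open scoped Real

namespace BL

variable {k : Type} [Fintype k] [DecidableEq k]

open scoped MatrixOrder in
/-- a positive definite matrix is `Bᵀ B` with `B` invertible -/
theorem ld_factor {M : Matrix k k ℝ} (hM : M.PosDef) : ∃ B : Matrix k k ℝ, IsUnit B.det ∧ M = Bᵀ * B := by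
  obtain ⟨B, hB⟩ := CStarAlgebra.nonneg_iff_eq_star_mul_self.mp hM.posSemidef.nonneg
  have hB' : M = Bᵀ * B := by
    rw [hB, star_eq_conjTranspose, conjTranspose_eq_transpose_of_trivial]
  refine ⟨B, ?_, hB'⟩
  have h := hM.det_pos
  rw [hB', det_mul, det_transpose] at h
  exact isUnit_iff_ne_zero.mpr (fun h0 => by rw [h0] at h; simp at h)

/-- the tangent inequality at the identity -/
theorem ld_tangent_one {X : Matrix k k ℝ} (hX : X.PosDef) :
    Real.log X.det ≤ X.trace - (Fintype.card k : ℝ) ∧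
    (Real.log X.det = X.trace - (Fintype.card k : ℝ) → X = 1) := by
  have hpos : ∀ i, 0 < hX.isHermitian.eigenvalues i := fun i => hX.eigenvalues_pos i
  have hdet : X.det = ∏ i, hX.isHermitian.eigenvalues i := by
    rw [hX.isHermitian.det_eq_prod_eigenvalues]; rfl
  have htr : X.trace = ∑ i, hX.isHermitian.eigenvalues i := by
    rw [hX.isHermitian.trace_eq_sum_eigenvalues]; rfl
  have hlog : Real.log X.det = ∑ i, Real.log (hX.isHermitian.eigenvalues i) := by
    rw [hdet, Real.log_prod (fun i _ => (hpos i).ne')]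
  have htr' : X.trace - (Fintype.card k : ℝ) = ∑ i, (hX.isHermitian.eigenvalues i - 1) := by
    rw [htr, Finset.sum_sub_distrib]; simp
  have hle : ∀ i ∈ (Finset.univ : Finset k), Real.log (hX.isHermitian.eigenvalues i) ≤
      hX.isHermitian.eigenvalues i - 1 := fun i _ => Real.log_le_sub_one_of_pos (hpos i)
  refine ⟨by rw [hlog, htr']; exact Finset.sum_le_sum hle, fun heq => ?_⟩
  rw [hlog, htr'] at heq
  have h1 : ∀ i, hX.isHermitian.eigenvalues i = 1 := by
    intro i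
    by_contra hne
    have := (Finset.sum_eq_sum_iff_of_le hle).mp heq i (Finset.mem_univ i)
    exact absurd this (Real.log_lt_sub_one_of_pos (hpos i) hne).ne
  have hfun : (RCLike.ofReal ∘ hX.isHermitian.eigenvalues : k → ℝ) = fun _ => 1 := by
    funext i; simp [h1 i]
  have hsp := hX.isHermitian.spectral_theorem
  rw [hfun] at hsp
  rw [hsp]
  have : (diagonal (fun _ => (1 : ℝ)) : Matrix k k ℝ) = 1 := rfl
  rw [this, map_one]

theorem ld_inv_eq {M B : Matrix k k ℝ} (hMB : M = Bᵀ * B) : M⁻¹ = B⁻¹ * (B⁻¹)ᵀ := by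
  rw [hMB, Matrix.mul_inv_rev, transpose_nonsing_inv]

theorem logdet_tangent {M C : Matrix k k ℝ} (hM : M.PosDef) (hC : C.PosDef) :
    Real.log C.det ≤ Real.log M.det + (M⁻¹ * C).trace - (Fintype.card k : ℝ) ∧
    (Real.log C.det = Real.log M.det + (M⁻¹ * C).trace - (Fintype.card k : ℝ) → C = M) := by
  obtain ⟨B, hB, hMB⟩ := ld_factor hM
  have hBB : B⁻¹ * B = 1 := nonsing_inv_mul B hB
  have hBB' : B * B⁻¹ = 1 := mul_nonsing_inv B hB
  have hinj : Function.Injective (B⁻¹).mulVec := by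
    intro u v huv
    have h := congrArg (fun w => B *ᵥ w) huv
    simpa [mulVec_mulVec, hBB'] using h
  have hX : ((B⁻¹)ᵀ * C * B⁻¹).PosDef := by
    have h := hC.conjTranspose_mul_mul_same hinj
    rwa [conjTranspose_eq_transpose_of_trivial] at h
  have hdetM : M.det = B.det * B.det := by rw [hMB, det_mul, det_transpose]
  have hBne : B.det ≠ 0 := hB.ne_zero
  have hdetX : C.det = M.det * ((B⁻¹)ᵀ * C * B⁻¹).det := by
    rw [det_mul, det_mul, det_transpose, det_nonsing_inv, Ring.inverse_eq_inv', hdetM]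
    field_simp
  have hlog : Real.log C.det = Real.log M.det + Real.log ((B⁻¹)ᵀ * C * B⁻¹).det := by
    rw [← Real.log_mul hM.det_pos.ne' hX.det_pos.ne', ← hdetX]
  have htr : ((B⁻¹)ᵀ * C * B⁻¹).trace = (M⁻¹ * C).trace := by
    rw [trace_mul_comm, ← Matrix.mul_assoc, ld_inv_eq hMB]
  obtain ⟨h1, h2⟩ := ld_tangent_one hX
  rw [htr] at h1 h2
  refine ⟨by rw [hlog]; linarith, fun heq => ?_⟩
  have h3 : (B⁻¹)ᵀ * C * B⁻¹ = 1 := h2 (by rw [hlog] at heq; linarith)
  have hT : Bᵀ * (B⁻¹)ᵀ = 1 := by rw [← transpose_mul, hBB, transpose_one]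
  calc C = (Bᵀ * (B⁻¹)ᵀ) * C * (B⁻¹ * B) := by rw [hT, hBB, Matrix.one_mul, Matrix.mul_one]
    _ = Bᵀ * ((B⁻¹)ᵀ * C * B⁻¹) * B := by simp only [Matrix.mul_assoc]
    _ = M := by rw [h3, Matrix.mul_one, hMB]

/-- `tr (M⁻¹ C)` as a sum of values of the quadratic form `C` -/
theorem ld_trace_eq {M B C : Matrix k k ℝ} (hMB : M = Bᵀ * B) :
    (M⁻¹ * C).trace = ∑ i, (fun j => B⁻¹ j i) ⬝ᵥ (C *ᵥ (fun j => B⁻¹ j i)) := by
  rw [ld_inv_eq hMB, Matrix.mul_assoc, trace_mul_comm]
  simp only [trace, diag, Matrix.mul_apply, dotProduct, mulVec, transpose_apply]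
  refine Finset.sum_congr rfl fun i _ => ?_
  simp only [Finset.sum_mul, Finset.mul_sum]
  rw [Finset.sum_comm]
  simp only [mul_assoc]

omit [Fintype k] [DecidableEq k] in
theorem ld_cont_entry {Cf : ℝ → Matrix k k ℝ} {s : Set ℝ} (hc : ContinuousOn Cf s) (i j : k) :
    ContinuousOn (fun x => Cf x i j) s := by
  exact (continuous_apply_apply i j).comp_continuousOn hc

theorem trace_le {M : Matrix k k ℝ} (hM : M.PosDef) {Cf : ℝ → Matrix k k ℝ} {α β : ℝ} (hab : α < β)
    (hc : ContinuousOn Cf (Icc α β))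
    (hq : ∀ y : k → ℝ, ∫ x in α..β, y ⬝ᵥ (Cf x *ᵥ y) ≤ y ⬝ᵥ (M *ᵥ y)) :
    ∫ x in α..β, (M⁻¹ * Cf x).trace ≤ (Fintype.card k : ℝ) := by
  obtain ⟨B, -, hMB⟩ := ld_factor hM
  have hint : ∀ y : k → ℝ, IntervalIntegrable (fun x => y ⬝ᵥ (Cf x *ᵥ y)) MeasureTheory.volume α β := by
    intro y
    apply ContinuousOn.intervalIntegrable
    rw [uIcc_of_le hab.le]
    simp only [dotProduct, mulVec]
    refine continuousOn_finsetSum _ fun i _ => continuousOn_const.mul ?_
    refine continuousOn_finsetSum _ fun j _ => ?_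
    exact (ld_cont_entry hc i j).mul continuousOn_const
  have h1 : ∫ x in α..β, (M⁻¹ * Cf x).trace =
      ∑ i, ∫ x in α..β, (fun j => B⁻¹ j i) ⬝ᵥ (Cf x *ᵥ (fun j => B⁻¹ j i)) := by
    rw [← intervalIntegral.integral_finsetSum (fun i _ => hint _)]
    exact intervalIntegral.integral_congr fun x _ => ld_trace_eq hMB
  rw [h1]
  calc ∑ i, ∫ x in α..β, (fun j => B⁻¹ j i) ⬝ᵥ (Cf x *ᵥ (fun j => B⁻¹ j i))
      ≤ ∑ i, (fun j => B⁻¹ j i) ⬝ᵥ (M *ᵥ (fun j => B⁻¹ j i)) := Finset.sum_le_sum fun i _ => hq _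
    _ = (M⁻¹ * M).trace := (ld_trace_eq hMB).symm
    _ = (Fintype.card k : ℝ) := by
      rw [nonsing_inv_mul M (isUnit_iff_ne_zero.mpr hM.det_pos.ne'), trace_one]

/-- the pointwise inequality behind `logdet_jensen` -/
theorem ld_pointwise {M C : Matrix k k ℝ} (hM : M.PosDef) (hC : C.PosDef) {r : ℝ} (hr : 0 < r) :
    r * (Real.log C.det - (Fintype.card k : ℝ) * Real.log r) ≤
      r * Real.log M.det + (M⁻¹ * C).trace - (Fintype.card k : ℝ) * r ∧
    (r * (Real.log C.det - (Fintype.card k : ℝ) * Real.log r) =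
      r * Real.log M.det + (M⁻¹ * C).trace - (Fintype.card k : ℝ) * r → C = r • M) := by
  have hC' : (r⁻¹ • C).PosDef := hC.smul (inv_pos.mpr hr)
  obtain ⟨h1, h2⟩ := logdet_tangent hM hC'
  have hdet : Real.log (r⁻¹ • C).det = Real.log C.det - (Fintype.card k : ℝ) * Real.log r := by
    rw [det_smul, Real.log_mul (pow_ne_zero _ (inv_ne_zero hr.ne')) hC.det_pos.ne', Real.log_pow, Real.log_inv]
    ring
  have htr : (M⁻¹ * (r⁻¹ • C)).trace = r⁻¹ * (M⁻¹ * C).trace := by
    rw [Matrix.mul_smul, trace_smul, smul_eq_mul]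
  rw [hdet, htr] at h1 h2
  have hr' : r * r⁻¹ = 1 := mul_inv_cancel₀ hr.ne'
  constructor
  · have h3 := mul_le_mul_of_nonneg_left h1 hr.le
    have h4 : r * (Real.log M.det + r⁻¹ * (M⁻¹ * C).trace - (Fintype.card k : ℝ)) =
        r * Real.log M.det + (r * r⁻¹) * (M⁻¹ * C).trace - (Fintype.card k : ℝ) * r := by ring
    rw [h4, hr', one_mul] at h3
    exact h3
  · intro heq
    have h5 : Real.log C.det - (Fintype.card k : ℝ) * Real.log r =
        Real.log M.det + r⁻¹ * (M⁻¹ * C).trace - (Fintype.card k : ℝ) := by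
      apply mul_left_cancel₀ hr.ne'
      have h4 : r * (Real.log M.det + r⁻¹ * (M⁻¹ * C).trace - (Fintype.card k : ℝ)) =
        r * Real.log M.det + (r * r⁻¹) * (M⁻¹ * C).trace - (Fintype.card k : ℝ) * r := by ring
      rw [h4, hr', one_mul]
      exact heq
    have h6 := h2 h5
    rw [← h6, smul_smul, hr', one_smul]

theorem logdet_jensen {M : Matrix k k ℝ} (hM : M.PosDef) {Cf : ℝ → Matrix k k ℝ} {α β : ℝ} (hab : α < β)
    (hc : ContinuousOn Cf (Icc α β)) (hC : ∀ x ∈ Icc α β, (Cf x).PosDef)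
    {ρ : ℝ → ℝ} (hρc : ContinuousOn ρ (Icc α β)) (hρ : ∀ x ∈ Icc α β, 0 < ρ x) (hρ1 : ∫ x in α..β, ρ x = 1)
    (hq : ∀ y : k → ℝ, ∫ x in α..β, y ⬝ᵥ (Cf x *ᵥ y) ≤ y ⬝ᵥ (M *ᵥ y)) :
    ∫ x in α..β, ρ x * (Real.log (Cf x).det - (Fintype.card k : ℝ) * Real.log (ρ x)) ≤ Real.log M.det ∧
    (∫ x in α..β, ρ x * (Real.log (Cf x).det - (Fintype.card k : ℝ) * Real.log (ρ x)) = Real.log M.det →
      ∀ x ∈ Icc α β, Cf x = ρ x • M) := by
  have hdetc : ContinuousOn (fun x => (Cf x).det) (Icc α β) := (continuous_id.matrix_det).comp_continuousOn hc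
  have hL : ContinuousOn (fun x => ρ x * (Real.log (Cf x).det - (Fintype.card k : ℝ) * Real.log (ρ x)))
      (Icc α β) := by
    refine hρc.mul (ContinuousOn.sub ?_ (continuousOn_const.mul ?_))
    · exact hdetc.log fun x hx => (hC x hx).det_pos.ne'
    · exact hρc.log fun x hx => (hρ x hx).ne'
  have hT : ContinuousOn (fun x => (M⁻¹ * Cf x).trace) (Icc α β) := by
    simp only [trace, diag, Matrix.mul_apply]
    refine continuousOn_finsetSum _ fun i _ => continuousOn_finsetSum _ fun j _ => ?_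
    exact continuousOn_const.mul (ld_cont_entry hc j i)
  have hR : ContinuousOn (fun x => ρ x * Real.log M.det + (M⁻¹ * Cf x).trace - (Fintype.card k : ℝ) * ρ x)
      (Icc α β) := ((hρc.mul continuousOn_const).add hT).sub (continuousOn_const.mul hρc)
  have hii : ∀ {f : ℝ → ℝ}, ContinuousOn f (Icc α β) → IntervalIntegrable f MeasureTheory.volume α β := by
    intro f hf
    apply ContinuousOn.intervalIntegrable
    rwa [uIcc_of_le hab.le]
  have hpt : ∀ x ∈ Icc α β, ρ x * (Real.log (Cf x).det - (Fintype.card k : ℝ) * Real.log (ρ x)) ≤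
      ρ x * Real.log M.det + (M⁻¹ * Cf x).trace - (Fintype.card k : ℝ) * ρ x :=
    fun x hx => (ld_pointwise hM (hC x hx) (hρ x hx)).1
  have hmono : ∫ x in α..β, ρ x * (Real.log (Cf x).det - (Fintype.card k : ℝ) * Real.log (ρ x)) ≤
      ∫ x in α..β, (ρ x * Real.log M.det + (M⁻¹ * Cf x).trace - (Fintype.card k : ℝ) * ρ x) :=
    intervalIntegral.integral_mono_on hab.le (hii hL) (hii hR) hpt
  have hRint : ∫ x in α..β, (ρ x * Real.log M.det + (M⁻¹ * Cf x).trace - (Fintype.card k : ℝ) * ρ x) =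
      Real.log M.det + (∫ x in α..β, (M⁻¹ * Cf x).trace) - (Fintype.card k : ℝ) := by
    have e1 : IntervalIntegrable (fun x => ρ x * Real.log M.det) MeasureTheory.volume α β :=
      hii (hρc.mul continuousOn_const)
    have e2 : IntervalIntegrable (fun x => (Fintype.card k : ℝ) * ρ x) MeasureTheory.volume α β :=
      hii (continuousOn_const.mul hρc)
    have e3 : IntervalIntegrable (fun x => ρ x * Real.log M.det + (M⁻¹ * Cf x).trace)
        MeasureTheory.volume α β := e1.add (hii hT)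
    rw [intervalIntegral.integral_sub e3 e2, intervalIntegral.integral_add e1 (hii hT),
      intervalIntegral.integral_mul_const, intervalIntegral.integral_const_mul, hρ1]
    ring
  have htl := trace_le hM hab hc hq
  refine ⟨by rw [hRint] at hmono; linarith, fun heq => ?_⟩
  -- equality case
  have hge : ∫ x in α..β, (ρ x * Real.log M.det + (M⁻¹ * Cf x).trace - (Fintype.card k : ℝ) * ρ x) ≤
      ∫ x in α..β, ρ x * (Real.log (Cf x).det - (Fintype.card k : ℝ) * Real.log (ρ x)) := by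
    rw [hRint, heq]; linarith
  intro x hx
  by_contra hne
  have hlt : ρ x * (Real.log (Cf x).det - (Fintype.card k : ℝ) * Real.log (ρ x)) <
      ρ x * Real.log M.det + (M⁻¹ * Cf x).trace - (Fintype.card k : ℝ) * ρ x :=
    lt_of_le_of_ne (hpt x hx) (fun h => hne ((ld_pointwise hM (hC x hx) (hρ x hx)).2 h))
  have hstrict := intervalIntegral.integral_lt_integral_of_continuousOn_of_le_of_exists_lt hab hL hR
    (fun y hy => hpt y (Ioc_subset_Icc_self hy)) ⟨x, hx, hlt⟩
  exact absurd hge (not_le.mpr hstrict)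

end BL
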