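import Pool.Agent.Lib.MP_ccbbf6_gt.LitDefs

/-!
# The suspension: a ball with its boundary identified to a point is a sphere
-/

set_option autoImplicit false

namespace Blaschke

open Set Metric Topology
open scoped Real

/-- Two quotients of the same space with the same fibres are homeomorphic. -/
theorem exists_homeomorph_of_fibres {D X Y : Type*} [TopologicalSpace D] [TopologicalSpace X] [TopologicalSpace Y]
    {f : D → X} {g : D → Y} (hf : IsQuotientMap f) (hg : IsQuotientMap g) (h : ∀ a b, f a = f b ↔ g a = g b) :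
    Nonempty (X ≃ₜ Y) := by
  choose u hu using hf.surjective
  choose v hv using hg.surjective
  have h1 : ∀ a, g (u (f a)) = g a := fun a => (h _ _).1 (hu (f a))
  have h2 : ∀ a, f (v (g a)) = f a := fun a => (h _ _).2 (hv (g a))
  refine ⟨{ toFun := fun x => g (u x), invFun := fun y => f (v y), left_inv := fun x => ?_,
            right_inv := fun y => ?_, continuous_toFun := ?_, continuous_invFun := ?_ }⟩
  · change f (v (g (u x))) = x
    rw [h2, hu]
  · change g (u (f (v y))) = y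
    rw [h1, hv]
  · refine hf.continuous_iff.2 ?_
    have h3 : (fun x => g (u x)) ∘ f = g := funext h1
    rw [h3]
    exact hg.continuous
  · refine hg.continuous_iff.2 ?_
    have h3 : (fun y => f (v y)) ∘ g = f := funext h2
    rw [h3]
    exact hf.continuous

section sphere

variable {L : Type*} [NormedAddCommGroup L] [InnerProductSpace ℝ L]

/-- The map from the ball of radius `π` to the sphere which contracts the boundary. -/
noncomputable def susp (ξ : L) : WithLp 2 (ℝ × L) := WithLp.toLp 2 (Real.cos ‖ξ‖, Real.sinc ‖ξ‖ • ξ)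

theorem continuous_susp : Continuous (susp : L → WithLp 2 (ℝ × L)) := by
  have h1 : Continuous fun ξ : L => (Real.cos ‖ξ‖, Real.sinc ‖ξ‖ • ξ) :=
    (Real.continuous_cos.comp continuous_norm).prodMk
      ((Real.continuous_sinc.comp continuous_norm).smul continuous_id)
  exact (WithLp.prod_continuous_toLp 2 ℝ L).comp h1

theorem norm_sinc_smul {ξ : L} (hξ : ‖ξ‖ ≤ π) : ‖Real.sinc ‖ξ‖ • ξ‖ = Real.sin ‖ξ‖ := by
  rcases eq_or_ne ξ 0 with rfl | h0
  · simp
  · have h1 : ‖ξ‖ ≠ 0 := norm_ne_zero_iff.2 h0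
    have h2 : 0 ≤ Real.sin ‖ξ‖ := Real.sin_nonneg_of_nonneg_of_le_pi (norm_nonneg ξ) hξ
    rw [norm_smul, Real.sinc_of_ne_zero h1, Real.norm_eq_abs, abs_of_nonneg (div_nonneg h2 (norm_nonneg ξ)),
      div_mul_cancel₀ _ h1]

theorem norm_susp {ξ : L} (hξ : ‖ξ‖ ≤ π) : ‖susp ξ‖ = 1 := by
  have h1 : ‖susp ξ‖ ^ 2 = 1 := by
    rw [WithLp.prod_norm_sq_eq_of_L2]
    change ‖Real.cos ‖ξ‖‖ ^ 2 + ‖Real.sinc ‖ξ‖ • ξ‖ ^ 2 = 1
    rw [norm_sinc_smul hξ, Real.norm_eq_abs, sq_abs]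
    exact Real.cos_sq_add_sin_sq _
  exact (pow_eq_one_iff_of_nonneg (norm_nonneg _) two_ne_zero).1 h1

theorem susp_eq_iff {ξ η : L} (hξ : ‖ξ‖ ≤ π) (hη : ‖η‖ ≤ π) : susp ξ = susp η ↔ ξ = η ∨ ‖ξ‖ = π ∧ ‖η‖ = π := by
  constructor
  · intro h
    have h1 : (Real.cos ‖ξ‖, Real.sinc ‖ξ‖ • ξ) = (Real.cos ‖η‖, Real.sinc ‖η‖ • η) := WithLp.toLp_injective 2 h
    have h2 : Real.cos ‖ξ‖ = Real.cos ‖η‖ := congrArg Prod.fst h1
    have h3 : Real.sinc ‖ξ‖ • ξ = Real.sinc ‖η‖ • η := congrArg Prod.snd h1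
    have h4 : ‖ξ‖ = ‖η‖ := Real.injOn_cos ⟨norm_nonneg _, hξ⟩ ⟨norm_nonneg _, hη⟩ h2
    rcases eq_or_lt_of_le hξ with h5 | h5
    · exact Or.inr ⟨h5, h4 ▸ h5⟩
    · left
      rw [← h4] at h3
      rcases eq_or_ne ξ 0 with rfl | h0
      · have h6 : ‖η‖ = 0 := by rw [← h4, norm_zero]
        exact (norm_eq_zero.1 h6).symm
      · have h6 : 0 < ‖ξ‖ := norm_pos_iff.2 h0
        have h7 : Real.sinc ‖ξ‖ ≠ 0 := by
          rw [Real.sinc_of_ne_zero h6.ne']
          exact (div_pos (Real.sin_pos_of_pos_of_lt_pi h6 h5) h6).ne'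
        exact smul_right_injective L h7 h3
  · rintro (rfl | ⟨h1, h2⟩)
    · rfl
    · have h3 : ∀ ζ : L, ‖ζ‖ = π → susp ζ = WithLp.toLp 2 (-1, 0) := by
        intro ζ hζ
        change WithLp.toLp 2 (Real.cos ‖ζ‖, Real.sinc ‖ζ‖ • ζ) = _
        rw [hζ, Real.cos_pi, Real.sinc_of_ne_zero Real.pi_ne_zero, Real.sin_pi, zero_div, zero_smul]
      rw [h3 ξ h1, h3 η h2]

theorem susp_surj [Nontrivial L] {x : WithLp 2 (ℝ × L)} (hx : ‖x‖ = 1) : ∃ ξ : L, ‖ξ‖ ≤ π ∧ susp ξ = x := by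
  obtain ⟨⟨a, v⟩, rfl⟩ := (WithLp.equiv 2 (ℝ × L)).symm.surjective x
  have h1 : a ^ 2 + ‖v‖ ^ 2 = 1 := by
    have h2 := WithLp.prod_norm_sq_eq_of_L2 (WithLp.toLp 2 (a, v))
    have h3 : ‖WithLp.toLp 2 (a, v)‖ = 1 := hx
    rw [h3] at h2
    have h4 : (1 : ℝ) ^ 2 = ‖a‖ ^ 2 + ‖v‖ ^ 2 := h2
    rw [Real.norm_eq_abs, sq_abs] at h4
    linarith
  have ha : a ∈ Icc (-1 : ℝ) 1 := abs_le.1 ((sq_le_one_iff_abs_le_one a).1 (by
    have := sq_nonneg ‖v‖
    linarith))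
  have hcos : Real.cos (Real.arccos a) = a := Real.cos_arccos ha.1 ha.2
  have hsin : Real.sin (Real.arccos a) = ‖v‖ := by
    rw [Real.sin_arccos, show 1 - a ^ 2 = ‖v‖ ^ 2 by linarith, Real.sqrt_sq (norm_nonneg v)]
  have h0 : 0 ≤ Real.arccos a := Real.arccos_nonneg a
  have hle : Real.arccos a ≤ π := Real.arccos_le_pi a
  have key : ∀ u : L, ‖u‖ = 1 → ‖v‖ • u = v → ∃ ξ : L, ‖ξ‖ ≤ π ∧ susp ξ = WithLp.toLp 2 (a, v) := by
    intro u hu huv
    have h2 : ‖Real.arccos a • u‖ = Real.arccos a := by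
      rw [norm_smul, hu, mul_one, Real.norm_eq_abs, abs_of_nonneg h0]
    refine ⟨Real.arccos a • u, by rw [h2]; exact hle, ?_⟩
    change WithLp.toLp 2 (Real.cos ‖Real.arccos a • u‖, Real.sinc ‖Real.arccos a • u‖ • Real.arccos a • u) = _
    rw [h2, hcos, smul_smul]
    have h3 : Real.sinc (Real.arccos a) * Real.arccos a = ‖v‖ := by
      rcases eq_or_ne (Real.arccos a) 0 with h4 | h4
      · rw [h4, mul_zero, ← hsin, h4, Real.sin_zero]
      · rw [Real.sinc_of_ne_zero h4, div_mul_cancel₀ _ h4, hsin]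
    rw [h3, huv]
  rcases eq_or_ne v 0 with rfl | hv
  · obtain ⟨u, hu⟩ := exists_norm_eq L (zero_le_one' ℝ)
    exact key u hu (by rw [norm_zero, zero_smul])
  · have h2 : ‖v‖ ≠ 0 := norm_ne_zero_iff.2 hv
    exact key (‖v‖⁻¹ • v) (by rw [norm_smul, norm_inv, norm_norm, inv_mul_cancel₀ h2])
      (by rw [smul_smul, mul_inv_cancel₀ h2, one_smul])

/-- A quotient of the ball of radius `π` of a space of dimension `κ + 1` by its boundary is the sphere of dimension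
`κ + 1`. -/
theorem exists_homeomorph_sphere [FiniteDimensional ℝ L] {κ : ℕ} (hL : Module.finrank ℝ L = κ + 1) {X : Type*}
    [TopologicalSpace X] [T2Space X] (f : closedBall (0 : L) π → X) (hf : Continuous f)
    (hs : Function.Surjective f)
    (hfib : ∀ ξ η, f ξ = f η ↔ ξ = η ∨ ‖(ξ : L)‖ = π ∧ ‖(η : L)‖ = π) : Nonempty (X ≃ₜ UnitSphere (κ + 1)) := by
  have hnt : Nontrivial L := Module.nontrivial_of_finrank_pos (R := ℝ) (by omega)
  have hfin : Module.finrank ℝ (WithLp 2 (ℝ × L)) = κ + 1 + 1 := by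
    rw [(WithLp.linearEquiv 2 ℝ (ℝ × L)).finrank_eq, Module.finrank_prod, Module.finrank_self, hL]
    omega
  have hfd : FiniteDimensional ℝ (WithLp 2 (ℝ × L)) := Module.finite_of_finrank_pos (by omega)
  let ι : WithLp 2 (ℝ × L) ≃ₗᵢ[ℝ] EuclideanSpace ℝ (Fin (κ + 1 + 1)) :=
    ((stdOrthonormalBasis ℝ (WithLp 2 (ℝ × L))).reindex (finCongr hfin)).repr
  have hD : CompactSpace (closedBall (0 : L) π) := by
    have := FiniteDimensional.proper_real L
    exact isCompact_iff_compactSpace.1 (isCompact_closedBall _ _)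
  have hn : ∀ ξ : closedBall (0 : L) π, ‖(ξ : L)‖ ≤ π := fun ξ => mem_closedBall_zero_iff.1 ξ.2
  let g : closedBall (0 : L) π → UnitSphere (κ + 1) := fun ξ => ⟨ι (susp (ξ : L)), by
    rw [mem_sphere_zero_iff_norm, ι.norm_map, norm_susp (hn ξ)]⟩
  have hg : Continuous g := Continuous.subtype_mk (ι.continuous.comp (continuous_susp.comp continuous_subtype_val)) _
  have hgs : Function.Surjective g := by
    rintro ⟨x, hx⟩
    rw [mem_sphere_zero_iff_norm] at hx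
    obtain ⟨ξ, h1, h2⟩ := susp_surj (x := ι.symm x) (by rw [ι.symm.norm_map, hx])
    refine ⟨⟨ξ, mem_closedBall_zero_iff.2 h1⟩, Subtype.ext ?_⟩
    change ι (susp ξ) = x
    rw [h2, ι.apply_symm_apply]
  refine exists_homeomorph_of_fibres (hf.isClosedMap.isQuotientMap hf hs) (hg.isClosedMap.isQuotientMap hg hgs) ?_
  intro ξ η
  rw [hfib, Subtype.ext_iff, Subtype.ext_iff]
  change _ ↔ ι (susp (ξ : L)) = ι (susp (η : L))
  rw [ι.injective.eq_iff, susp_eq_iff (hn ξ) (hn η)]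

end sphere

end Blaschke
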