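import Pool.Agent.Lib.MP_ccbbf6_gt.LitB

/-!
# The union of the minimal segments from `p` to `q`, `dist p q = π`, is a sphere

`e : V → M` is the exponential map at `p`.
-/

set_option autoImplicit false

namespace Blaschke

open Set Metric Topology
open scoped Real

variable {M : Type*} [MetricSpace M]

/-- Distance preserving on `[0, l]`. -/
def IsSeg (c : ℝ → M) (l : ℝ) : Prop := ∀ s ∈ Icc 0 l, ∀ t ∈ Icc 0 l, dist (c s) (c t) = |s - t|

/-- Two segments `p → x → q` with `dist p x + dist x q = dist p q` form a segment. -/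
theorem IsSeg.concat {p x q : M} {c c' : ℝ → M} (hc : IsSeg c (dist p x)) (h0 : c 0 = p) (h1 : c (dist p x) = x)
    (hc' : IsSeg c' (dist x q)) (h0' : c' 0 = x) (h1' : c' (dist x q) = q) (h : dist p x + dist x q = dist p q) :
    ∃ b : ℝ → M, IsSeg b (dist p q) ∧ b 0 = p ∧ b (dist p x) = x ∧ b (dist p q) = q := by
  classical
  obtain ⟨b, hb⟩ : ∃ b : ℝ → M, b = fun t => if t ≤ dist p x then c t else c' (t - dist p x) := ⟨_, rfl⟩
  have hle : ∀ t, t ≤ dist p x → b t = c t := fun t ht => by rw [hb]; exact if_pos ht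
  have hge : ∀ t, dist p x ≤ t → b t = c' (t - dist p x) := fun t ht => by
    rcases eq_or_lt_of_le ht with rfl | ht'
    · rw [hle _ le_rfl, h1, sub_self, h0']
    · rw [hb]
      exact if_neg (not_le.2 ht')
  have hpx : 0 ≤ dist p x := dist_nonneg
  have hxq : 0 ≤ dist x q := dist_nonneg
  have key : ∀ s t, 0 ≤ s → s ≤ dist p x → dist p x ≤ t → t ≤ dist p q → dist (b s) (b t) = t - s := by
    intro s t hs hs' ht ht'
    rw [hle s hs', hge t ht]
    have e1 : dist p (c s) = s := by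
      rw [← h0, hc 0 ⟨le_rfl, hpx⟩ s ⟨hs, hs'⟩, zero_sub, abs_neg, abs_of_nonneg hs]
    have e2 : dist (c s) x = dist p x - s := by
      have := hc s ⟨hs, hs'⟩ (dist p x) ⟨hpx, le_rfl⟩
      rw [h1, abs_sub_comm, abs_of_nonneg (by linarith)] at this
      exact this
    have e3 : dist x (c' (t - dist p x)) = t - dist p x := by
      have := hc' 0 ⟨le_rfl, hxq⟩ (t - dist p x) ⟨by linarith, by linarith⟩
      rw [h0', zero_sub, abs_neg, abs_of_nonneg (by linarith)] at this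
      exact this
    have e4 : dist (c' (t - dist p x)) q = dist p q - t := by
      have := hc' (t - dist p x) ⟨by linarith, by linarith⟩ (dist x q) ⟨hxq, le_rfl⟩
      rw [h1', abs_sub_comm, abs_of_nonneg (by linarith)] at this
      rw [this]
      linarith
    apply le_antisymm
    · have := dist_triangle (c s) x (c' (t - dist p x))
      linarith
    · have i1 := dist_triangle p (c s) q
      have i2 := dist_triangle (c s) (c' (t - dist p x)) q
      linarith
  refine ⟨b, ?_, ?_, ?_, ?_⟩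
  · intro s hs t ht
    rcases le_total s (dist p x) with h2 | h2 <;> rcases le_total t (dist p x) with h3 | h3
    · rw [hle s h2, hle t h3]
      exact hc s ⟨hs.1, h2⟩ t ⟨ht.1, h3⟩
    · rw [key s t hs.1 h2 h3 ht.2, abs_sub_comm, abs_of_nonneg (by linarith)]
    · rw [dist_comm, key t s ht.1 h3 h2 hs.2, abs_of_nonneg (by linarith)]
    · rw [hge s h2, hge t h3, hc' _ ⟨by linarith, by linarith [hs.2]⟩ _ ⟨by linarith, by linarith [ht.2]⟩]
      congr 1
      ring
  · rw [hle 0 hpx, h0]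
  · rw [hle _ le_rfl, h1]
  · rw [hge _ (by linarith), ← h, add_sub_cancel_left, h1']

/-- The union of the segments from `p` to `q` is a sphere. `e` is the exponential map at `p`; `L` is the space spanned by
the initial velocities of the minimal segments from `p` to `q`. -/
theorem segments_sphere {V : Type*} [NormedAddCommGroup V] [InnerProductSpace ℝ V] {p q : M} (e : V → M)
    (he : Continuous e) (hd : ∀ ξ, ‖ξ‖ ≤ π → dist p (e ξ) = ‖ξ‖)
    (hinj : ∀ ξ η, ‖ξ‖ < π → ‖η‖ < π → e ξ = e η → ξ = η)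
    (hray : ∀ w, ‖w‖ = 1 → ∀ s ∈ Icc 0 π, ∀ t ∈ Icc 0 π, dist (e (s • w)) (e (t • w)) = |s - t|)
    (hmin : ∀ c : ℝ → M, IsSeg c π → c 0 = p → ∃ w : V, ‖w‖ = 1 ∧ ∀ t ∈ Icc 0 π, c t = e (t • w))
    (hseg : ∀ x y : M, ∃ c : ℝ → M, IsSeg c (dist x y) ∧ c 0 = x ∧ c (dist x y) = y)
    (hpq : dist p q = π) (L : Submodule ℝ V) [FiniteDimensional ℝ L] {κ : ℕ} (hL : Module.finrank ℝ L = κ + 1)
    (hΛ : ∀ ξ, ‖ξ‖ = π → (e ξ = q ↔ ξ ∈ L)) : Nonempty (Segments p q ≃ₜ UnitSphere (κ + 1)) := by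
  have hπ : 0 < π := Real.pi_pos
  have hseg0 : ∀ ξ ∈ L, ‖ξ‖ ≤ π → e ξ ∈ Segments p q := by
    intro ξ hξ hle
    change dist p (e ξ) + dist (e ξ) q = dist p q
    rw [hd ξ hle, hpq]
    rcases eq_or_ne ξ 0 with rfl | h0
    · rw [norm_zero, zero_add]
      have h1 : dist p (e 0) = 0 := by rw [hd 0 (by rw [norm_zero]; exact hπ.le), norm_zero]
      rw [← dist_eq_zero.1 h1, hpq]
    · have h1 : ‖ξ‖ ≠ 0 := norm_ne_zero_iff.2 h0
      have hw : ‖(‖ξ‖⁻¹ • ξ)‖ = 1 := by rw [norm_smul, norm_inv, norm_norm, inv_mul_cancel₀ h1]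
      have h2 := hray _ hw ‖ξ‖ ⟨norm_nonneg _, hle⟩ π ⟨hπ.le, le_rfl⟩
      rw [smul_smul, mul_inv_cancel₀ h1, one_smul] at h2
      have h3 : e (π • ‖ξ‖⁻¹ • ξ) = q := by
        refine (hΛ _ ?_).2 (L.smul_mem _ (L.smul_mem _ hξ))
        rw [norm_smul, hw, mul_one, Real.norm_eq_abs, abs_of_pos hπ]
      rw [h3] at h2
      rw [h2, abs_sub_comm, abs_of_nonneg (by linarith)]
      ring
  let f : closedBall (0 : L) π → Segments p q := fun ξ =>
    ⟨e ((ξ : L) : V), hseg0 _ (ξ : L).2 (mem_closedBall_zero_iff.1 ξ.2)⟩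
  have hf : Continuous f :=
    Continuous.subtype_mk (he.comp (continuous_subtype_val.comp continuous_subtype_val)) _
  have hn : ∀ ξ : closedBall (0 : L) π, ‖((ξ : L) : V)‖ ≤ π := fun ξ => mem_closedBall_zero_iff.1 ξ.2
  have hnt : Nontrivial L := Module.nontrivial_of_finrank_pos (R := ℝ) (by omega)
  refine exists_homeomorph_sphere hL f hf ?_ ?_
  · rintro ⟨x, hx⟩
    have hx' : dist p x + dist x q = dist p q := hx
    rcases eq_or_ne x q with rfl | hxq
    · obtain ⟨ξ, hξ⟩ := exists_norm_eq L hπ.le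
      refine ⟨⟨ξ, mem_closedBall_zero_iff.2 hξ.le⟩, Subtype.ext ?_⟩
      exact (hΛ ξ hξ).2 ξ.2
    · have hlt : dist p x < π := by
        have := dist_pos.2 hxq
        rw [hpq] at hx'
        linarith
      obtain ⟨c, hc, h0, h1⟩ := hseg p x
      obtain ⟨c', hc', h0', h1'⟩ := hseg x q
      obtain ⟨b, hb, hb0, hb1, hb2⟩ := hc.concat h0 h1 hc' h0' h1' hx'
      rw [hpq] at hb hb2
      obtain ⟨w, hw, hbw⟩ := hmin b hb hb0
      have h2 : e (dist p x • w) = x := by rw [← hbw _ ⟨dist_nonneg, hlt.le⟩, hb1]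
      have h3 : e (π • w) = q := by rw [← hbw _ ⟨hπ.le, le_rfl⟩, hb2]
      have h4 : π • w ∈ L := (hΛ _ (by rw [norm_smul, hw, mul_one, Real.norm_eq_abs, abs_of_pos hπ])).1 h3
      have h5 : w ∈ L := by
        have := L.smul_mem π⁻¹ h4
        rwa [smul_smul, inv_mul_cancel₀ hπ.ne', one_smul] at this
      refine ⟨⟨⟨dist p x • w, L.smul_mem _ h5⟩, mem_closedBall_zero_iff.2 ?_⟩, Subtype.ext h2⟩
      change ‖dist p x • w‖ ≤ π
      rw [norm_smul, hw, mul_one, Real.norm_eq_abs, abs_of_nonneg dist_nonneg]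
      exact hlt.le
  · intro ξ η
    constructor
    · intro h
      have h1 : e ((ξ : L) : V) = e ((η : L) : V) := congrArg Subtype.val h
      have h2 : ‖((ξ : L) : V)‖ = ‖((η : L) : V)‖ := by rw [← hd _ (hn ξ), ← hd _ (hn η), h1]
      rcases eq_or_lt_of_le (hn ξ) with h3 | h3
      · exact Or.inr ⟨h3, (h2.symm.trans h3)⟩
      · left
        have h4 := hinj _ _ h3 (h2 ▸ h3) h1
        exact Subtype.ext (Subtype.ext h4)
    · rintro (rfl | ⟨h1, h2⟩)
      · rfl
      · refine Subtype.ext ?_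
        change e ((ξ : L) : V) = e ((η : L) : V)
        exact ((hΛ ((ξ : L) : V) h1).2 (ξ : L).2).trans ((hΛ ((η : L) : V) h2).2 (η : L).2).symm

end Blaschke
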