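import Pool.Agent.Lib.MP_ccbbf6_gt.Geo.CZd
import Pool.Agent.Lib.MP_ccbbf6_gt.Geo.EXa
import Pool.Agent.Lib.MP_ccbbf6_gt.LitA
import Pool.Agent.Lib.MP_ccbbf6_gt.LitC

/-!
# The first conclusion of the literal statement from the geometry
-/

set_option autoImplicit false

open Set Filter Topology Metric Real
open scoped ContDiff RealInnerProductSpace

noncomputable section

namespace Pool.Agent.Lib.MP_ccbbf6_gt.Geo

variable {n : ℕ} {M : Type*} [MetricSpace M] [CompactSpace M] (𝒜 : SDist n M)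

theorem bl_of_inj (h : Blaschke.Inj M = diam (univ : Set M)) (hπ : diam (univ : Set M) = π) : Bl M :=
  ⟨Blaschke.dist_le_of_diam hπ, fun _ _ hpq => Blaschke.exists_of_inj h hπ hpq⟩

theorem nonempty_of_diam (hπ : diam (univ : Set M) = π) : Nonempty M := by
  by_contra h
  rw [not_nonempty_iff] at h
  have h1 : diam (univ : Set M) = 0 := by
    rw [univ_eq_empty_iff.2 h, diam_empty]
  rw [h1] at hπ
  exact pi_ne_zero hπ.symm

include 𝒜 in
/-- two segments of length `π` which agree at `0` and at a time in `(0, π)` agree afterwards -/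
theorem seg_unique_forward {c g : ℝ → M} (hc : Blaschke.IsSeg c π) (hg : Blaschke.IsSeg g π) (h0 : c 0 = g 0) {t₀ : ℝ}
    (ht₀ : 0 < t₀) (h1 : c t₀ = g t₀) : ∀ t ∈ Icc t₀ π, c t = g t := by
  obtain ⟨ρ, hρ, hloc⟩ := local_unique (M := M) 𝒜
  have key : ∀ k : ℕ, ∀ t ∈ Icc t₀ π, t ≤ t₀ + k * (ρ / 2) → c t = g t := by
    intro k
    induction k with
    | zero =>
      intro t ht ht'
      have : t = t₀ := le_antisymm (by simpa using ht') ht.1
      rw [this, h1]
    | succ k ih =>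
      intro t ht ht'
      by_cases hle : t ≤ t₀ + k * (ρ / 2)
      · exact ih t ht hle
      · push Not at hle
        have hk : (0 : ℝ) ≤ k * (ρ / 2) := by positivity
        set t₁ := t₀ + k * (ρ / 2) with ht₁
        have h2 : c t₁ = g t₁ := ih t₁ ⟨by linarith, by linarith [ht.2]⟩ le_rfl
        have h3 : t - t₁ ≤ ρ / 2 := by
          push_cast at ht'
          linarith
        have hpi : 0 ≤ π := pi_pos.le
        have e1 : ∀ f : ℝ → M, Blaschke.IsSeg f π → dist (f 0) (f t₁) = t₁ ∧ dist (f t₁) (f t) = t - t₁ ∧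
            dist (f 0) (f t) = t := by
          intro f hf
          refine ⟨?_, ?_, ?_⟩
          · rw [hf 0 ⟨le_rfl, hpi⟩ t₁ ⟨by linarith, by linarith [ht.2]⟩, zero_sub, abs_neg, abs_of_nonneg (by linarith)]
          · rw [hf t₁ ⟨by linarith, by linarith [ht.2]⟩ t ⟨by linarith, ht.2⟩, abs_sub_comm,
              abs_of_nonneg (by linarith)]
          · rw [hf 0 ⟨le_rfl, hpi⟩ t ⟨by linarith, ht.2⟩, zero_sub, abs_neg, abs_of_nonneg (by linarith)]
        obtain ⟨a1, a2, a3⟩ := e1 c hc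
        obtain ⟨b1, b2, b3⟩ := e1 g hg
        rw [← h0, ← h2] at b1
        rw [← h2] at b2
        rw [← h0] at b3
        refine hloc (c 0) (c t₁) (c t) (g t) ?_ ?_ ?_ ?_ ?_
        · intro h4
          rw [h4, dist_self] at a1
          linarith
        · rw [a1, a2, a3]
          ring
        · rw [b1, b2, b3]
          ring
        · rw [a2, b2]
        · rw [a2]
          linarith
  intro t ht
  obtain ⟨k, hk⟩ := exists_nat_ge ((t - t₀) / (ρ / 2))
  refine key k t ht ?_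
  rw [div_le_iff₀ (by positivity)] at hk
  linarith

include 𝒜 in
theorem seg_unique {c g : ℝ → M} (hc : Blaschke.IsSeg c π) (hg : Blaschke.IsSeg g π) (h0 : c 0 = g 0) {t₀ : ℝ}
    (ht₀ : 0 < t₀) (ht₁ : t₀ < π) (h1 : c t₀ = g t₀) : ∀ t ∈ Icc 0 π, c t = g t := by
  have hf := seg_unique_forward 𝒜 hc hg h0 ht₀ h1
  have hrev : ∀ f : ℝ → M, Blaschke.IsSeg f π → Blaschke.IsSeg (fun t => f (π - t)) π := by
    intro f hf s hs t ht
    have := hf (π - s) ⟨by linarith [hs.2], by linarith [hs.1]⟩ (π - t) ⟨by linarith [ht.2], by linarith [ht.1]⟩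
    rw [this, ← abs_neg]
    congr 1
    ring
  have hb := seg_unique_forward 𝒜 (hrev c hc) (hrev g hg) (t₀ := π - t₀) (by
    simp only [sub_zero]
    exact hf π ⟨ht₁.le, le_rfl⟩) (by linarith) (by
    simp only [sub_sub_cancel]
    exact h1)
  intro t ht
  rcases le_total t₀ t with h | h
  · exact hf t ⟨h, ht.2⟩
  · have := hb (π - t) ⟨by linarith, by linarith [ht.1]⟩
    simpa only [sub_sub_cancel] using this

/-- **The first conclusion**: the union of the minimal segments between two points at distance `π` is a sphere of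
dimension `κ + 1`. -/
theorem segments_homeo (hB : Bl M) {κ : ℕ} {p q : M} (hpq : dist p q = π)
    (hV : ∃ V : Submodule ℝ (Eu n), 𝒜.Lam p q = {v | v ∈ V ∧ ‖v‖ = 1} ∧ Module.finrank ℝ V = κ + 1) :
    Nonempty (Blaschke.Segments p q ≃ₜ Blaschke.UnitSphere (κ + 1)) := by
  obtain ⟨V, hV1, hV2⟩ := hV
  have hπ : 0 < π := pi_pos
  refine Blaschke.segments_sphere (𝒜.Ex p) (continuous_Ex 𝒜 hB p) (fun ξ hξ => dist_Ex 𝒜 hB p hξ)
    (fun ξ η h1 h2 h => Ex_injOn 𝒜 hB p (mem_ball_zero_iff.2 h1) (mem_ball_zero_iff.2 h2) h) ?_ ?_ ?_ hpq V hV2 ?_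
  · intro w hw s hs t ht
    rw [Ex_smul 𝒜 hB p hw, Ex_smul 𝒜 hB p hw]
    refine (gv_spec 𝒜 hB p hw).1 s t ?_
    rw [abs_le]
    exact ⟨by linarith [hs.1, ht.2], by linarith [hs.2, ht.1]⟩
  · intro c hc h0
    have h1 : dist p (c (π / 2)) = π / 2 := by
      rw [← h0, hc 0 ⟨le_rfl, hπ.le⟩ (π / 2) ⟨by linarith, by linarith⟩, zero_sub, abs_neg, abs_of_pos (by linarith)]
    obtain ⟨g, hg, hg0, hg1⟩ := exists_geo 𝒜 hB (p := p) (q := c (π / 2)) (by
      intro h
      rw [← h, dist_self] at h1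
      linarith)
    rw [h1] at hg1
    have hgs : Blaschke.IsSeg g π := by
      intro s hs t ht
      refine hg s t ?_
      rw [abs_le]
      exact ⟨by linarith [hs.1, ht.2], by linarith [hs.2, ht.1]⟩
    have h2 := seg_unique 𝒜 hc hgs (by rw [h0, hg0]) (t₀ := π / 2) (by linarith) (by linarith) hg1.symm
    have hv := (hg.exists_vel 𝒜 0).1
    refine ⟨𝒜.vel g 0, hv, fun t ht => ?_⟩
    rw [h2 t ht, Ex_smul 𝒜 hB p hv]
    have h3 := gv_eq 𝒜 hg 0
    rw [hg0] at h3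
    rw [h3]
    simp
  · intro x y
    obtain ⟨c, h1, h2, h3⟩ := exists_seg 𝒜 x y
    exact ⟨c, h3, h1, h2⟩
  · intro ξ hξ
    have hw : ‖π⁻¹ • ξ‖ = 1 := by
      rw [norm_smul, norm_inv, Real.norm_eq_abs, abs_of_pos hπ, hξ, inv_mul_cancel₀ hπ.ne']
    have h1 : ξ = π • (π⁻¹ • ξ) := by rw [smul_smul, mul_inv_cancel₀ hπ.ne', one_smul]
    have h2 : 𝒜.Ex p ξ = 𝒜.gv p (π⁻¹ • ξ) π := by
      conv_lhs => rw [h1]
      rw [Ex_smul 𝒜 hB p hw]
    have h3 : π⁻¹ • ξ ∈ 𝒜.Lam p q ↔ 𝒜.gv p (π⁻¹ • ξ) π = q :=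
      ⟨fun h => h.2, fun h => ⟨hw, h⟩⟩
    rw [h2, ← h3, hV1]
    constructor
    · rintro ⟨h4, -⟩
      rw [h1]
      exact V.smul_mem _ h4
    · intro h4
      exact ⟨V.smul_mem _ h4, hw⟩

end Pool.Agent.Lib.MP_ccbbf6_gt.Geo
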