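import Mathlib.Algebra.Lie.OfAssociative
import Mathlib.Algebra.Module.StablyFree.Basic
import Mathlib.Algebra.Order.Archimedean.Real.Hom
import Mathlib.Algebra.Polynomial.Basis
import Mathlib.Algebra.Ring.IsFormallyReal
import Mathlib.Analysis.CStarAlgebra.Module.Constructions
import Mathlib.Analysis.Calculus.BumpFunction.Normed
import Mathlib.Analysis.Calculus.ContDiff.FiniteDimension
import Mathlib.Analysis.Calculus.Deriv.Pi
import Mathlib.Analysis.Calculus.DerivativeTest
import Mathlib.Analysis.Calculus.FDeriv.Norm
import Mathlib.Analysis.Calculus.ImplicitContDiff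
import Mathlib.Analysis.Calculus.LHopital
import Mathlib.Analysis.Calculus.LineDeriv.IntegrationByParts
import Mathlib.Analysis.Calculus.ParametricIntervalIntegral
import Mathlib.Analysis.Convex.Measure
import Mathlib.Analysis.Fourier.AddCircle
import Mathlib.Analysis.InnerProductSpace.NormDet
import Mathlib.Analysis.Normed.Module.Connected
import Mathlib.Analysis.Quaternion
import Mathlib.Analysis.Real.Pi.Bounds
import Mathlib.Analysis.SpecialFunctions.Gamma.Beta
import Mathlib.Analysis.SpecialFunctions.Trigonometric.InverseDeriv
import Mathlib.Data.Finset.Functor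
import Mathlib.Data.Int.Star
import Mathlib.Data.Matrix.ColumnRowPartitioned
import Mathlib.Geometry.Manifold.IntegralCurve.ExistUnique
import Mathlib.Geometry.Manifold.PartitionOfUnity
import Mathlib.Geometry.Manifold.Riemannian.Basic
import Mathlib.Geometry.Manifold.Sheaf.Basic
import Mathlib.Geometry.Manifold.VectorField.Pullback
import Mathlib.LinearAlgebra.CliffordAlgebra.Contraction
import Mathlib.LinearAlgebra.ExteriorAlgebra.Basis
import Mathlib.LinearAlgebra.Lagrange
import Mathlib.LinearAlgebra.Projectivization.Basic
import Mathlib.LinearAlgebra.Transvection.Basic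
import Mathlib.MeasureTheory.Measure.HasOuterApproxClosed
import Mathlib.MeasureTheory.Measure.Lebesgue.VolumeOfBalls
import Mathlib.MeasureTheory.Measure.RegularityCompacts
import Mathlib.Order.CompletePartialOrder
import Mathlib.RingTheory.Etale.Weakly
import Mathlib.RingTheory.Flat.TorsionFree
import Mathlib.RingTheory.Henselian
import Mathlib.RingTheory.PicardGroup
import Mathlib.RingTheory.PowerSeries.Derivative
import Mathlib.RingTheory.PowerSeries.Expand
import Mathlib.RingTheory.PowerSeries.Inverse
import Mathlib.RingTheory.RegularLocalRing.Defs
import Mathlib.RingTheory.SimpleRing.Principal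
import Mathlib.RingTheory.TotallySplit
import Mathlib.Tactic
import Mathlib.Topology.Compactness.CompactlyGeneratedSpace
import Mathlib.Topology.Homotopy.Lifting
import Mathlib.Topology.Separation.Connected
import Mathlib.Topology.UniformSpace.Uniformizable
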