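import Pool.Agent.Lib.MP_ccbbf6_gt.ML

/-!
The geodesic symmetry is an isometry (equality case).
-/

open MeasureTheory Set Filter Topology Manifold ContDiff Module Bundle
open scoped ENNReal NNReal

namespace MPbl

section local_inverse

variable {E : Type*} [NormedAddCommGroup E] [NormedSpace ℝ E] [FiniteDimensional ℝ E]
  {M : Type*} [TopologicalSpace M] [ChartedSpace E M]
  {V : Type*} [NormedAddCommGroup V] [NormedSpace ℝ V] [FiniteDimensional ℝ V]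

/-- Local inverse of a map with injective derivative between spaces of the same dimension. -/
lemma exists_local_inverse (e : V → M) (ξ : V) (he : ContMDiffAt 𝓘(ℝ, V) 𝓘(ℝ, E) 1 e ξ)
    (hinj : Function.Injective (mfderiv 𝓘(ℝ, V) 𝓘(ℝ, E) e ξ))
    (hdim : finrank ℝ V = finrank ℝ E) :
    ∃ g : M → V, ContMDiffAt 𝓘(ℝ, E) 𝓘(ℝ, V) 1 g (e ξ) ∧ g (e ξ) = ξ ∧
      ∀ᶠ q in 𝓝 (e ξ), e (g q) = q := by
  set φ := extChartAt 𝓘(ℝ, E) (e ξ) with hφ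
  have hf : ContDiffAt ℝ 1 (φ ∘ e) ξ := (contMDiffAt_iff_target.1 he).2.contDiffAt
  have hder : mfderiv 𝓘(ℝ, V) 𝓘(ℝ, E) e ξ = fderiv ℝ (φ ∘ e) ξ := by
    rw [(he.mdifferentiableAt one_ne_zero).mfderiv]
    simp only [writtenInExtChartAt, mfld_simps, fderivWithin_univ, hφ] <;> rfl
  have hinj' : Function.Injective (fderiv ℝ (φ ∘ e) ξ) := by
    rw [← hder]; exact hinj
  let l : V ≃L[ℝ] E := (LinearMap.linearEquivOfInjective
    (fderiv ℝ (φ ∘ e) ξ : V →ₗ[ℝ] E) hinj' hdim).toContinuousLinearEquiv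
  have hl : (l : V →L[ℝ] E) = fderiv ℝ (φ ∘ e) ξ := by
    ext x
    simp [l, LinearMap.linearEquivOfInjective_apply]
  have hfd : HasFDerivAt (φ ∘ e) (l : V →L[ℝ] E) ξ := by
    rw [hl]
    exact (hf.differentiableAt one_ne_zero).hasFDerivAt
  have hn : (1 : WithTop ℕ∞) ≠ 0 := one_ne_zero
  set g0 : E → V := hf.localInverse hfd hn with hg0
  have hg0a : g0 ((φ ∘ e) ξ) = ξ := hf.localInverse_apply_image hfd hn
  have hg0c : ContDiffAt ℝ 1 g0 ((φ ∘ e) ξ) := hf.to_localInverse hfd hn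
  have hright : ∀ᶠ y in 𝓝 ((φ ∘ e) ξ), (φ ∘ e) (g0 y) = y :=
    (hf.hasStrictFDerivAt' hfd hn).eventually_right_inverse
  have hφc : ContMDiffAt 𝓘(ℝ, E) 𝓘(ℝ, E) 1 φ (e ξ) := contMDiffAt_extChartAt
  have hg : ContMDiffAt 𝓘(ℝ, E) 𝓘(ℝ, V) 1 (g0 ∘ φ) (e ξ) :=
    ContMDiffAt.comp (e ξ) hg0c.contMDiffAt hφc
  have hgval : (g0 ∘ φ) (e ξ) = ξ := hg0a
  refine ⟨g0 ∘ φ, hg, hgval, ?_⟩
  have h1 : ∀ᶠ q in 𝓝 (e ξ), (φ ∘ e) (g0 (φ q)) = φ q := hφc.continuousAt.eventually hright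
  have hsrc : φ.source ∈ 𝓝 (e ξ) := extChartAt_source_mem_nhds (e ξ)
  have hcomp : ContinuousAt (e ∘ (g0 ∘ φ)) (e ξ) := by
    apply ContinuousAt.comp
    · rw [hgval]; exact he.continuousAt
    · exact hg.continuousAt
  have h2 : ∀ᶠ q in 𝓝 (e ξ), (e ∘ (g0 ∘ φ)) q ∈ φ.source := by
    apply hcomp.eventually
    have : (e ∘ (g0 ∘ φ)) (e ξ) = e ξ := by
      simp only [Function.comp_apply] at hgval ⊢
      rw [hgval]
    rw [this]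
    exact hsrc
  filter_upwards [h1, h2, hsrc] with q hq1 hq2 hq3
  exact φ.injOn hq2 hq3 hq1

end local_inverse

section symmetry

variable {E : Type*} [NormedAddCommGroup E] [NormedSpace ℝ E] [FiniteDimensional ℝ E]
  {M : Type*} [MetricSpace M] [ChartedSpace E M]
  [RiemannianBundle (fun x : M => TangentSpace 𝓘(ℝ, E) x)]
  {V : Type*} [NormedAddCommGroup V] [NormedSpace ℝ V] [FiniteDimensional ℝ V]

/-- What we need to know about the exponential map at `p` (`V` is the tangent space at `p`). -/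
structure ExpData (E : Type*) [NormedAddCommGroup E] [NormedSpace ℝ E] [FiniteDimensional ℝ E]
  {M : Type*} [MetricSpace M] [ChartedSpace E M]
  [RiemannianBundle (fun x : M => TangentSpace 𝓘(ℝ, E) x)]
  {V : Type*} [NormedAddCommGroup V] [NormedSpace ℝ V] [FiniteDimensional ℝ V]
  (p : M) (e : V → M) : Prop where
  smooth : ContMDiff 𝓘(ℝ, V) 𝓘(ℝ, E) 1 e
  surj : ∀ q, ∃ ξ : V, ‖ξ‖ ≤ Real.pi ∧ e ξ = q
  dist_e : ∀ ξ : V, ‖ξ‖ ≤ Real.pi → dist p (e ξ) = ‖ξ‖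
  inj : ∀ ξ ξ' : V, ‖ξ‖ < Real.pi → ‖ξ'‖ < Real.pi → e ξ = e ξ' → ξ = ξ'
  cut : ∀ ξ : V, ‖ξ‖ = Real.pi → e (-ξ) = e ξ
  der : ∀ ξ : V, ‖ξ‖ < Real.pi → Function.Injective (mfderiv 𝓘(ℝ, V) 𝓘(ℝ, E) e ξ)
  dim : finrank ℝ V = finrank ℝ E
  iso : ∀ ξ : V, ‖ξ‖ < Real.pi → ∀ η : V,
    ‖mfderiv 𝓘(ℝ, V) 𝓘(ℝ, E) e (-ξ) η‖ₑ = ‖mfderiv 𝓘(ℝ, V) 𝓘(ℝ, E) e ξ η‖ₑ

omit [FiniteDimensional ℝ E] in
lemma enorm_base {x y : M} (h : x = y) (u : TangentSpace 𝓘(ℝ, E) x) (v : TangentSpace 𝓘(ℝ, E) y)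
    (huv : @Eq E u v) : ‖u‖ₑ = ‖v‖ₑ := by
  subst h
  have : u = v := huv
  rw [this]

variable {p : M} {e : V → M}

namespace ExpData

lemma exists_sym (h : ExpData E p e) : ∃ s : M → M, ∀ ξ : V, ‖ξ‖ ≤ Real.pi → s (e ξ) = e (-ξ) := by
  choose c hc hc' using h.surj
  refine ⟨fun q => e (-(c q)), fun ξ hξ => ?_⟩
  have h1 : ‖c (e ξ)‖ = ‖ξ‖ := by
    rw [← h.dist_e _ (hc _), hc', h.dist_e _ hξ]
  rcases lt_or_eq_of_le hξ with h2 | h2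
  · have h3 : c (e ξ) = ξ := h.inj _ _ (by rw [h1]; exact h2) h2 (hc' _)
    simp only [h3]
  · show e (-(c (e ξ))) = e (-ξ)
    rw [h.cut _ (h1.trans h2), h.cut _ h2, hc']

variable {s : M → M}

lemma sym_sym (h : ExpData E p e) (hs : ∀ ξ : V, ‖ξ‖ ≤ Real.pi → s (e ξ) = e (-ξ)) (q : M) :
    s (s q) = q := by
  obtain ⟨ξ, hξ, rfl⟩ := h.surj q
  rw [hs _ hξ, hs _ (by rwa [norm_neg]), neg_neg]

lemma sym_cut (h : ExpData E p e) (hs : ∀ ξ : V, ‖ξ‖ ≤ Real.pi → s (e ξ) = e (-ξ)) (q : M)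
    (hq : Real.pi ≤ dist p q) : s q = q := by
  obtain ⟨ξ, hξ, rfl⟩ := h.surj q
  rw [h.dist_e _ hξ] at hq
  rw [hs _ hξ, h.cut _ (le_antisymm hξ hq)]

lemma sym_continuous (h : ExpData E p e) (hs : ∀ ξ : V, ‖ξ‖ ≤ Real.pi → s (e ξ) = e (-ξ)) :
    Continuous s := by
  let K := Metric.closedBall (0 : V) Real.pi
  have : CompactSpace K := isCompact_iff_compactSpace.1 (isCompact_closedBall 0 Real.pi)
  let f : K → M := fun x => e x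
  have hf : Continuous f := h.smooth.continuous.comp continuous_subtype_val
  have hsurj : Function.Surjective f := by
    intro q
    obtain ⟨ξ, hξ, hq⟩ := h.surj q
    exact ⟨⟨ξ, mem_closedBall_zero_iff.2 hξ⟩, hq⟩
  have hquot : IsQuotientMap f := (hf.isClosedMap).isQuotientMap hf hsurj
  rw [hquot.continuous_iff]
  have : s ∘ f = fun x : K => e (-(x : V)) := by
    funext x
    exact hs _ (mem_closedBall_zero_iff.1 x.2)
  rw [this]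
  exact h.smooth.continuous.comp continuous_subtype_val.neg

lemma sym_local (h : ExpData E p e) (hs : ∀ ξ : V, ‖ξ‖ ≤ Real.pi → s (e ξ) = e (-ξ)) (ξ0 : V)
    (h0 : ‖ξ0‖ < Real.pi) :
    ContMDiffAt 𝓘(ℝ, E) 𝓘(ℝ, E) 1 s (e ξ0) ∧ ∀ u : TangentSpace 𝓘(ℝ, E) (e ξ0),
      ‖mfderiv 𝓘(ℝ, E) 𝓘(ℝ, E) s (e ξ0) u‖ₑ = ‖u‖ₑ := by
  obtain ⟨g, hg, hg0, hge⟩ := exists_local_inverse e ξ0 (h.smooth.contMDiffAt) (h.der ξ0 h0) h.dim
  have hlt : ∀ᶠ q in 𝓝 (e ξ0), ‖g q‖ < Real.pi := by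
    have h1 : ContinuousAt (fun q => ‖g q‖) (e ξ0) := hg.continuousAt.norm
    have h2 : ∀ᶠ y in 𝓝 ((fun q => ‖g q‖) (e ξ0)), y < Real.pi := by
      simp only [hg0]
      exact Iio_mem_nhds h0
    exact h1.eventually h2
  have hev : s =ᶠ[𝓝 (e ξ0)] fun q => e (-(g q)) := by
    filter_upwards [hge, hlt] with q h1 h2
    conv_lhs => rw [← h1]
    exact hs _ h2.le
  have hneg : ContMDiffAt 𝓘(ℝ, E) 𝓘(ℝ, V) 1 (fun q => -(g q)) (e ξ0) := hg.neg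
  have hcm : ContMDiffAt 𝓘(ℝ, E) 𝓘(ℝ, E) 1 (fun q => e (-(g q))) (e ξ0) :=
    ContMDiffAt.comp (e ξ0) h.smooth.contMDiffAt hneg
  refine ⟨hcm.congr_of_eventuallyEq hev, fun u => ?_⟩
  have hgd : MDifferentiableAt 𝓘(ℝ, E) 𝓘(ℝ, V) g (e ξ0) := hg.mdifferentiableAt one_ne_zero
  have hed : ∀ ξ : V, MDifferentiableAt 𝓘(ℝ, V) 𝓘(ℝ, E) e ξ := fun ξ =>
    (h.smooth.contMDiffAt).mdifferentiableAt one_ne_zero
  set η : V := mfderiv 𝓘(ℝ, E) 𝓘(ℝ, V) g (e ξ0) u with hη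
  have h1 : mfderiv 𝓘(ℝ, V) 𝓘(ℝ, E) e ξ0 η = (show E from u) := by
    have h2 : (e ∘ g) =ᶠ[𝓝 (e ξ0)] id := hge
    have h3 := h2.mfderiv_eq (I := 𝓘(ℝ, E)) (I' := 𝓘(ℝ, E))
    rw [mfderiv_id] at h3
    have h4 := mfderiv_comp_apply_of_eq (x := e ξ0) (f := g) (g := e) (I := 𝓘(ℝ, E)) (I' := 𝓘(ℝ, V)) (I'' := 𝓘(ℝ, E))
      (hed ξ0) hgd hg0 u
    have h5 := DFunLike.congr_fun h3 u
    exact h4.symm.trans h5
  have h6 : mfderiv 𝓘(ℝ, E) 𝓘(ℝ, E) s (e ξ0) u = -(show E from mfderiv 𝓘(ℝ, V) 𝓘(ℝ, E) e (-ξ0) η) := by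
    have h3 := hev.mfderiv_eq (I := 𝓘(ℝ, E)) (I' := 𝓘(ℝ, E))
    have h5 := DFunLike.congr_fun h3 u
    have h4 := mfderiv_comp_apply_of_eq (x := e ξ0) (f := fun q => -(g q)) (g := e) (I := 𝓘(ℝ, E)) (I' := 𝓘(ℝ, V)) (I'' := 𝓘(ℝ, E))
      (hed (-ξ0)) (hneg.mdifferentiableAt one_ne_zero) (by simp only [hg0]) u
    have h7 : mfderiv 𝓘(ℝ, E) 𝓘(ℝ, V) (fun q => -(g q)) (e ξ0) u = -η := by
      have h8 := mfderiv_neg (f := g) (x := e ξ0) (I := 𝓘(ℝ, E))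
      exact DFunLike.congr_fun h8 u
    refine (h5.trans h4).trans ?_
    rw [h7]
    exact map_neg _ _
  have h9 : s (e ξ0) = e (-ξ0) := hs ξ0 h0.le
  calc ‖mfderiv 𝓘(ℝ, E) 𝓘(ℝ, E) s (e ξ0) u‖ₑ
      = ‖-(mfderiv 𝓘(ℝ, V) 𝓘(ℝ, E) e (-ξ0) η)‖ₑ := enorm_base h9 _ _ h6
    _ = ‖mfderiv 𝓘(ℝ, V) 𝓘(ℝ, E) e (-ξ0) η‖ₑ := enorm_neg _
    _ = ‖mfderiv 𝓘(ℝ, V) 𝓘(ℝ, E) e ξ0 η‖ₑ := h.iso ξ0 h0 η
    _ = ‖u‖ₑ := by rw [h1]

section riem

variable [IsRiemannianManifold 𝓘(ℝ, E) M]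

omit [FiniteDimensional ℝ E] in
lemma edist_le_pathELength {γ : ℝ → M} {a b : ℝ}
    (hγ : ContMDiffOn 𝓘(ℝ, ℝ) 𝓘(ℝ, E) 1 γ (Icc a b)) (hab : a ≤ b) :
    edist (γ a) (γ b) ≤ pathELength 𝓘(ℝ, E) γ a b := by
  rw [IsRiemannianManifold.out (I := 𝓘(ℝ, E)) (γ a) (γ b)]
  exact riemannianEDist_le_pathELength hγ rfl rfl hab

/-- The symmetry does not increase the length of a path in the open ball. -/
lemma edist_sym_le_of_ball (h : ExpData E p e) (hs : ∀ ξ : V, ‖ξ‖ ≤ Real.pi → s (e ξ) = e (-ξ))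
    {γ : ℝ → M} (hγ : ContMDiff 𝓘(ℝ, ℝ) 𝓘(ℝ, E) 1 γ) {a b : ℝ} (hab : a ≤ b)
    (hball : ∀ t ∈ Icc a b, dist p (γ t) < Real.pi) :
    edist (s (γ a)) (s (γ b)) ≤ pathELength 𝓘(ℝ, E) γ a b := by
  have hat : ∀ t ∈ Icc a b, ContMDiffAt 𝓘(ℝ, E) 𝓘(ℝ, E) 1 s (γ t) ∧
      ∀ u : TangentSpace 𝓘(ℝ, E) (γ t), ‖mfderiv 𝓘(ℝ, E) 𝓘(ℝ, E) s (γ t) u‖ₑ = ‖u‖ₑ := by
    intro t ht
    obtain ⟨ξ, hξ, hq⟩ := h.surj (γ t)
    have h1 : ‖ξ‖ < Real.pi := by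
      rw [← h.dist_e ξ hξ, hq]; exact hball t ht
    rw [← hq]
    exact h.sym_local hs ξ h1
  have h1 : ContMDiffOn 𝓘(ℝ, ℝ) 𝓘(ℝ, E) 1 (s ∘ γ) (Icc a b) := fun t ht =>
    (ContMDiffAt.comp t (hat t ht).1 hγ.contMDiffAt).contMDiffWithinAt
  refine (edist_le_pathELength h1 hab).trans_eq ?_
  rw [pathELength_eq_lintegral_mfderiv_Icc, pathELength_eq_lintegral_mfderiv_Icc]
  apply setLIntegral_congr_fun measurableSet_Icc
  intro t ht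
  have h2 := mfderiv_comp_apply (x := t) (f := γ) (g := s) (I := 𝓘(ℝ, ℝ)) (I' := 𝓘(ℝ, E))
    (I'' := 𝓘(ℝ, E)) ((hat t ht).1.mdifferentiableAt one_ne_zero)
    (hγ.contMDiffAt.mdifferentiableAt one_ne_zero) 1
  show ‖mfderiv 𝓘(ℝ, ℝ) 𝓘(ℝ, E) (s ∘ γ) t 1‖ₑ = ‖mfderiv 𝓘(ℝ, ℝ) 𝓘(ℝ, E) γ t 1‖ₑ
  rw [h2]
  exact (hat t ht).2 _

/-- The symmetry does not increase the length of a path. -/
lemma edist_sym_le (h : ExpData E p e) (hs : ∀ ξ : V, ‖ξ‖ ≤ Real.pi → s (e ξ) = e (-ξ))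
    {γ : ℝ → M} (hγ : ContMDiff 𝓘(ℝ, ℝ) 𝓘(ℝ, E) 1 γ) {a b : ℝ} (hab : a ≤ b) :
    edist (s (γ a)) (s (γ b)) ≤ pathELength 𝓘(ℝ, E) γ a b := by
  by_cases hT : ∃ t ∈ Icc a b, Real.pi ≤ dist p (γ t)
  · have hγc : Continuous γ := hγ.continuous
    have hsc : Continuous s := h.sym_continuous hs
    let T : Set ℝ := Icc a b ∩ {t | Real.pi ≤ dist p (γ t)}
    have hTc : IsCompact T :=
      isCompact_Icc.inter_right (isClosed_le continuous_const (continuous_const.dist hγc))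
    have hTne : T.Nonempty := by
      obtain ⟨t, ht, ht'⟩ := hT
      exact ⟨t, ht, ht'⟩
    obtain ⟨τ₁, hτ₁, hmin⟩ := hTc.exists_isLeast hTne
    obtain ⟨τ₂, hτ₂, hmax⟩ := hTc.exists_isGreatest hTne
    have h12 : τ₁ ≤ τ₂ := hmin hτ₂
    have hfirst : edist (s (γ a)) (s (γ τ₁)) ≤ pathELength 𝓘(ℝ, E) γ a τ₁ := by
      rcases eq_or_lt_of_le hτ₁.1.1 with h0 | h0
      · rw [← h0]; simp
      · have hcl : IsClosed {t | edist (s (γ a)) (s (γ t)) ≤ pathELength 𝓘(ℝ, E) γ a τ₁} :=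
          isClosed_le (continuous_const.edist (hsc.comp hγc)) continuous_const
        have hsub : Ico a τ₁ ⊆ {t | edist (s (γ a)) (s (γ t)) ≤ pathELength 𝓘(ℝ, E) γ a τ₁} := by
          intro t ht
          refine (h.edist_sym_le_of_ball hs hγ ht.1 ?_).trans (pathELength_mono le_rfl ht.2.le)
          intro u hu
          by_contra hcon
          have : u ∈ T := ⟨⟨hu.1, (hu.2.trans ht.2.le).trans hτ₁.1.2⟩, not_lt.1 hcon⟩
          exact absurd (hmin this) (not_le.2 (hu.2.trans_lt ht.2))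
        have h3 := closure_minimal hsub hcl
        rw [closure_Ico h0.ne] at h3
        exact h3 (right_mem_Icc.2 h0.le)
    have hlast : edist (s (γ τ₂)) (s (γ b)) ≤ pathELength 𝓘(ℝ, E) γ τ₂ b := by
      rcases eq_or_lt_of_le hτ₂.1.2 with h0 | h0
      · rw [← h0]; simp
      · have hcl : IsClosed {t | edist (s (γ t)) (s (γ b)) ≤ pathELength 𝓘(ℝ, E) γ τ₂ b} :=
          isClosed_le ((hsc.comp hγc).edist continuous_const) continuous_const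
        have hsub : Ioc τ₂ b ⊆ {t | edist (s (γ t)) (s (γ b)) ≤ pathELength 𝓘(ℝ, E) γ τ₂ b} := by
          intro t ht
          refine (h.edist_sym_le_of_ball hs hγ ht.2 ?_).trans (pathELength_mono ht.1.le le_rfl)
          intro u hu
          by_contra hcon
          have : u ∈ T := ⟨⟨(hτ₂.1.1.trans ht.1.le).trans hu.1, hu.2⟩, not_lt.1 hcon⟩
          exact absurd (hmax this) (not_le.2 (ht.1.trans_le hu.1))
        have h3 := closure_minimal hsub hcl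
        rw [closure_Ioc h0.ne] at h3
        exact h3 (left_mem_Icc.2 h0.le)
    have hmid : edist (s (γ τ₁)) (s (γ τ₂)) ≤ pathELength 𝓘(ℝ, E) γ τ₁ τ₂ := by
      rw [h.sym_cut hs _ hτ₁.2, h.sym_cut hs _ hτ₂.2]
      exact edist_le_pathELength hγ.contMDiffOn h12
    rw [← pathELength_add hτ₂.1.1 hτ₂.1.2, ← pathELength_add hτ₁.1.1 h12]
    exact (edist_triangle4 _ _ _ _).trans (add_le_add (add_le_add hfirst hmid) hlast)
  · push Not at hT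
    exact h.edist_sym_le_of_ball hs hγ hab hT

lemma edist_sym_le' (h : ExpData E p e) (hs : ∀ ξ : V, ‖ξ‖ ≤ Real.pi → s (e ξ) = e (-ξ))
    (x y : M) : edist (s x) (s y) ≤ edist x y := by
  apply le_of_forall_gt
  intro r hr
  rw [IsRiemannianManifold.out (I := 𝓘(ℝ, E)) x y] at hr
  obtain ⟨γ, hγ0, hγ1, hγ, hlen, -, -⟩ :=
    exists_lt_locally_constant_of_riemannianEDist_lt hr (zero_lt_one (α := ℝ))
  rw [← hγ0, ← hγ1]
  exact (h.edist_sym_le hs hγ zero_le_one).trans_lt hlen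

lemma edist_sym_eq (h : ExpData E p e) (hs : ∀ ξ : V, ‖ξ‖ ≤ Real.pi → s (e ξ) = e (-ξ))
    (x y : M) : edist (s x) (s y) = edist x y := by
  refine le_antisymm (h.edist_sym_le' hs x y) ?_
  have := h.edist_sym_le' hs (s x) (s y)
  rwa [h.sym_sym hs, h.sym_sym hs] at this

/-- The geodesic symmetry at `p` is an isometry. -/
theorem exists_isometry (h : ExpData E p e) : ∃ s : M ≃ᵢ M, s p = p ∧ (∀ q, s (s q) = q) ∧
    ∀ ξ : V, ‖ξ‖ ≤ Real.pi → s (e ξ) = e (-ξ) := by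
  obtain ⟨s, hs⟩ := h.exists_sym
  have he0 : e 0 = p := by
    have := h.dist_e 0 (by rw [norm_zero]; exact Real.pi_pos.le)
    rw [norm_zero, dist_eq_zero] at this
    exact this.symm
  refine ⟨⟨⟨s, s, h.sym_sym hs, h.sym_sym hs⟩, h.edist_sym_eq hs⟩, ?_, h.sym_sym hs, hs⟩
  show s p = p
  have := hs 0 (by rw [norm_zero]; exact Real.pi_pos.le)
  rwa [neg_zero, he0] at this

end riem

end ExpData

end symmetry

end MPbl
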